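import Pool.Agent.Gen.F5.X1C2D13m2.S000
import Pool.Agent.Gen.F5.X1C2D13m2.S001
import Pool.Agent.Gen.F5.X1C2D13m2.S002

set_option autoImplicit false
set_option maxRecDepth 100000

namespace Pool.Agent.Gen.F5.X1C2D13m2

open Pool.Agent.Helper72.F5

def n0 : Cl (O (nat_lit 2)) (R (nat_lit 104577))
    (p (nat_lit 0x41) (nat_lit 0) (p (nat_lit 0x81) (nat_lit 1) (p (nat_lit 0x109) (nat_lit 1) (p (nat_lit 0xb0014) (nat_lit 0) (p (nat_lit 0xb0004) (nat_lit 0) (p (nat_lit 0x20000c) (nat_lit 1) (p (nat_lit 0xd1) (nat_lit 1) (p (nat_lit 0xc1) (nat_lit 0) (p (nat_lit 0x101) (nat_lit 1) (p (nat_lit 0x119) (nat_lit 0) (p (nat_lit 0xc9) (nat_lit 0) (p (nat_lit 0x89) (nat_lit 1) (p (nat_lit 0x41) (nat_lit 0) (p (nat_lit 0x88070907889a) (nat_lit 0) (p (nat_lit 0x87868887061a) (nat_lit 0) (p (nat_lit 0x80000000070806878a) (nat_lit 0) (p (nat_lit 0x80000000068786050a) (nat_lit 0) (p (nat_lit 0x8507058682)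 (nat_lit 0) (p (nat_lit 0x8486850402) (nat_lit 0) (p (nat_lit 0x160014) (nat_lit 0) (p (nat_lit 0x160004) (nat_lit 0) (p (nat_lit 0x50612) (nat_lit 0) (p (nat_lit 0x38592) (nat_lit 0) (p (nat_lit 0x40492) (nat_lit 0) (p (nat_lit 0x28412) (nat_lit 0) (p (nat_lit 0x30292) (nat_lit 0) (p (nat_lit 0x18212) (nat_lit 0) (p (nat_lit 0x20092) (nat_lit 0) (p (nat_lit 0x8012) (nat_lit 0) pn))))))))))))))))))))))))))))) :=
  Cl.node (nat_lit 0x89) (nat_lit 2) (by decide +kernel) (ClAll.succ (ClAll.succ ClAll.zero s71) s72)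

def n1 : Cl (O (nat_lit 2)) (R (nat_lit 104577))
    (p (nat_lit 0xc9) (nat_lit 1) (p (nat_lit 0x41) (nat_lit 0) (p (nat_lit 0xb0014) (nat_lit 0) (p (nat_lit 0xb0004) (nat_lit 0) (p (nat_lit 0x20000c) (nat_lit 1) (p (nat_lit 0xd1) (nat_lit 0) (p (nat_lit 0x109) (nat_lit 1) (p (nat_lit 0x101) (nat_lit 0) (p (nat_lit 0x119) (nat_lit 0) (p (nat_lit 0xc9) (nat_lit 0) (p (nat_lit 0x89) (nat_lit 1) (p (nat_lit 0x41) (nat_lit 0) (p (nat_lit 0x88070907889a) (nat_lit 0) (p (nat_lit 0x87868887061a) (nat_lit 0) (p (nat_lit 0x80000000070806878a) (nat_lit 0) (p (nat_lit 0x80000000068786050a) (nat_lit 0) (p (nat_lit 0x8507058682) (nat_lit 0) (p (nat_lit 0x8486850402) (nat_lit 0) (p (nat_lit 0x160014) (nat_lit 0) (p (nat_lit 0x160004) (nat_lit 0) (p (nat_lit 0x50612) (nat_lit 0) (p (nat_lit 0x38592) (nat_lit 0) (p (nat_lit 0x40492) (nat_lit 0) (p (nat_lit 0x28412) (nat_lit 0) (p (nat_lit 0x30292)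 (nat_lit 0) (p (nat_lit 0x18212) (nat_lit 0) (p (nat_lit 0x20092) (nat_lit 0) (p (nat_lit 0x8012) (nat_lit 0) pn)))))))))))))))))))))))))))) :=
  Cl.node (nat_lit 0x109) (nat_lit 2) (by decide +kernel) (ClAll.succ (ClAll.succ ClAll.zero s49) s50)

def n2 : Cl (O (nat_lit 2)) (R (nat_lit 104577))
    (p (nat_lit 0x111) (nat_lit 0) (p (nat_lit 0x41) (nat_lit 0) (p (nat_lit 0xb0014) (nat_lit 0) (p (nat_lit 0xb0004) (nat_lit 0) (p (nat_lit 0x20000c) (nat_lit 1) (p (nat_lit 0xd1) (nat_lit 1) (p (nat_lit 0x109) (nat_lit 1) (p (nat_lit 0x101) (nat_lit 0) (p (nat_lit 0x119) (nat_lit 0) (p (nat_lit 0xc9) (nat_lit 0) (p (nat_lit 0x89) (nat_lit 1) (p (nat_lit 0x41) (nat_lit 0) (p (nat_lit 0x88070907889a) (nat_lit 0) (p (nat_lit 0x87868887061a) (nat_lit 0) (p (nat_lit 0x80000000070806878a) (nat_lit 0) (p (nat_lit 0x80000000068786050a) (nat_lit 0) (p (nat_lit 0x8507058682) (nat_lit 0) (p (nat_lit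 0x8486850402) (nat_lit 0) (p (nat_lit 0x160014) (nat_lit 0) (p (nat_lit 0x160004) (nat_lit 0) (p (nat_lit 0x50612) (nat_lit 0) (p (nat_lit 0x38592) (nat_lit 0) (p (nat_lit 0x40492) (nat_lit 0) (p (nat_lit 0x28412) (nat_lit 0) (p (nat_lit 0x30292) (nat_lit 0) (p (nat_lit 0x18212) (nat_lit 0) (p (nat_lit 0x20092) (nat_lit 0) (p (nat_lit 0x8012) (nat_lit 0) pn)))))))))))))))))))))))))))) :=
  Cl.node (nat_lit 0x109) (nat_lit 2) (by decide +kernel) (ClAll.succ (ClAll.succ ClAll.zero s55) s56)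

def n3 : Cl (O (nat_lit 2)) (R (nat_lit 104577))
    (p (nat_lit 0x81) (nat_lit 0) (p (nat_lit 0x109) (nat_lit 1) (p (nat_lit 0xb0014) (nat_lit 0) (p (nat_lit 0xb0004) (nat_lit 0) (p (nat_lit 0x20000c) (nat_lit 1) (p (nat_lit 0xd1) (nat_lit 1) (p (nat_lit 0xc1) (nat_lit 0) (p (nat_lit 0x101) (nat_lit 1) (p (nat_lit 0x119) (nat_lit 0) (p (nat_lit 0xc9) (nat_lit 0) (p (nat_lit 0x89) (nat_lit 1) (p (nat_lit 0x41) (nat_lit 0) (p (nat_lit 0x88070907889a) (nat_lit 0) (p (nat_lit 0x87868887061a) (nat_lit 0) (p (nat_lit 0x80000000070806878a) (nat_lit 0) (p (nat_lit 0x80000000068786050a) (nat_lit 0) (p (nat_lit 0x8507058682) (nat_lit 0) (p (nat_lit 0x8486850402) (nat_lit 0) (p (nat_lit 0x160014) (nat_lit 0) (p (nat_lit 0x160004) (nat_lit 0) (p (nat_lit 0x50612) (nat_lit 0) (p (nat_lit 0x38592) (nat_lit 0) (p (nat_lit 0x40492) (nat_lit 0) (p (nat_lit 0x28412) (nat_lit 0) (p (nat_lit 0x30292)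 (nat_lit 0) (p (nat_lit 0x18212) (nat_lit 0) (p (nat_lit 0x20092) (nat_lit 0) (p (nat_lit 0x8012) (nat_lit 0) pn)))))))))))))))))))))))))))) :=
  Cl.node (nat_lit 0x89) (nat_lit 2) (by decide +kernel) (ClAll.succ (ClAll.succ ClAll.zero s69) s70)

def n4 : Cl (O (nat_lit 2)) (R (nat_lit 104577))
    (p (nat_lit 0x81) (nat_lit 1) (p (nat_lit 0x109) (nat_lit 1) (p (nat_lit 0xb0014) (nat_lit 0) (p (nat_lit 0xb0004) (nat_lit 0) (p (nat_lit 0x20000c) (nat_lit 1) (p (nat_lit 0xd1) (nat_lit 1) (p (nat_lit 0xc1) (nat_lit 0) (p (nat_lit 0x101) (nat_lit 1) (p (nat_lit 0x119) (nat_lit 0) (p (nat_lit 0xc9) (nat_lit 0) (p (nat_lit 0x89) (nat_lit 1) (p (nat_lit 0x41) (nat_lit 0) (p (nat_lit 0x88070907889a) (nat_lit 0) (p (nat_lit 0x87868887061a) (nat_lit 0) (p (nat_lit 0x80000000070806878a) (nat_lit 0) (p (nat_lit 0x80000000068786050a) (nat_lit 0) (p (nat_lit 0x8507058682) (nat_lit 0) (p (nat_lit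 0x8486850402) (nat_lit 0) (p (nat_lit 0x160014) (nat_lit 0) (p (nat_lit 0x160004) (nat_lit 0) (p (nat_lit 0x50612) (nat_lit 0) (p (nat_lit 0x38592) (nat_lit 0) (p (nat_lit 0x40492) (nat_lit 0) (p (nat_lit 0x28412) (nat_lit 0) (p (nat_lit 0x30292) (nat_lit 0) (p (nat_lit 0x18212) (nat_lit 0) (p (nat_lit 0x20092) (nat_lit 0) (p (nat_lit 0x8012) (nat_lit 0) pn)))))))))))))))))))))))))))) :=
  Cl.node (nat_lit 0x41) (nat_lit 2) (by decide +kernel) (ClAll.succ (ClAll.succ ClAll.zero n0) s73)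

def n5 : Cl (O (nat_lit 2)) (R (nat_lit 104577))
    (p (nat_lit 0x81) (nat_lit 1) (p (nat_lit 0xd1) (nat_lit 1) (p (nat_lit 0xb0014) (nat_lit 0) (p (nat_lit 0xb0004) (nat_lit 0) (p (nat_lit 0x20000c) (nat_lit 1) (p (nat_lit 0x111) (nat_lit 1) (p (nat_lit 0x101) (nat_lit 0) (p (nat_lit 0xc1) (nat_lit 1) (p (nat_lit 0x119) (nat_lit 1) (p (nat_lit 0xc9) (nat_lit 0) (p (nat_lit 0x89) (nat_lit 1) (p (nat_lit 0x41) (nat_lit 0) (p (nat_lit 0x88070907889a) (nat_lit 0) (p (nat_lit 0x87868887061a) (nat_lit 0) (p (nat_lit 0x80000000070806878a) (nat_lit 0) (p (nat_lit 0x80000000068786050a) (nat_lit 0) (p (nat_lit 0x8507058682) (nat_lit 0) (p (nat_lit 0x8486850402) (nat_lit 0) (p (nat_lit 0x160014) (nat_lit 0) (p (nat_lit 0x160004) (nat_lit 0) (p (nat_lit 0x50612) (nat_lit 0) (p (nat_lit 0x38592) (nat_lit 0) (p (nat_lit 0x40492) (nat_lit 0) (p (nat_lit 0x28412) (nat_lit 0) (p (nat_lit 0x30292)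 (nat_lit 0) (p (nat_lit 0x18212) (nat_lit 0) (p (nat_lit 0x20092) (nat_lit 0) (p (nat_lit 0x8012) (nat_lit 0) pn)))))))))))))))))))))))))))) :=
  Cl.node (nat_lit 0x41) (nat_lit 2) (by decide +kernel) (ClAll.succ (ClAll.succ ClAll.zero s89) s90)

def n6 : Cl (O (nat_lit 2)) (R (nat_lit 104577))
    (p (nat_lit 0xb0014) (nat_lit 0) (p (nat_lit 0xb0004) (nat_lit 0) (p (nat_lit 0x20000c) (nat_lit 1) (p (nat_lit 0xc9) (nat_lit 1) (p (nat_lit 0xc1) (nat_lit 0) (p (nat_lit 0x81) (nat_lit 1) (p (nat_lit 0x101) (nat_lit 1) (p (nat_lit 0x119) (nat_lit 0) (p (nat_lit 0xd1) (nat_lit 0) (p (nat_lit 0x89) (nat_lit 0) (p (nat_lit 0x41) (nat_lit 0) (p (nat_lit 0x88070907889a) (nat_lit 0) (p (nat_lit 0x87868887061a) (nat_lit 0) (p (nat_lit 0x80000000070806878a) (nat_lit 0) (p (nat_lit 0x80000000068786050a) (nat_lit 0) (p (nat_lit 0x8507058682) (nat_lit 0) (p (nat_lit 0x8486850402) (nat_lit 0) (p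 (nat_lit 0x160014) (nat_lit 0) (p (nat_lit 0x160004) (nat_lit 0) (p (nat_lit 0x50612) (nat_lit 0) (p (nat_lit 0x38592) (nat_lit 0) (p (nat_lit 0x40492) (nat_lit 0) (p (nat_lit 0x28412) (nat_lit 0) (p (nat_lit 0x30292) (nat_lit 0) (p (nat_lit 0x18212) (nat_lit 0) (p (nat_lit 0x20092) (nat_lit 0) (p (nat_lit 0x8012) (nat_lit 0) pn))))))))))))))))))))))))))) :=
  Cl.node (nat_lit 0x109) (nat_lit 2) (by decide +kernel) (ClAll.succ (ClAll.succ ClAll.zero s12) s13)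

def n7 : Cl (O (nat_lit 2)) (R (nat_lit 104577))
    (p (nat_lit 0xb0014) (nat_lit 0) (p (nat_lit 0xb0004) (nat_lit 0) (p (nat_lit 0x20000c) (nat_lit 1) (p (nat_lit 0x109) (nat_lit 1) (p (nat_lit 0x101) (nat_lit 0) (p (nat_lit 0x81) (nat_lit 1) (p (nat_lit 0xc1) (nat_lit 1) (p (nat_lit 0x119) (nat_lit 1) (p (nat_lit 0xd1) (nat_lit 0) (p (nat_lit 0x89) (nat_lit 0) (p (nat_lit 0x41) (nat_lit 0) (p (nat_lit 0x88070907889a) (nat_lit 0) (p (nat_lit 0x87868887061a) (nat_lit 0) (p (nat_lit 0x80000000070806878a) (nat_lit 0) (p (nat_lit 0x80000000068786050a) (nat_lit 0) (p (nat_lit 0x8507058682) (nat_lit 0) (p (nat_lit 0x8486850402) (nat_lit 0) (p (nat_lit 0x160014) (nat_lit 0) (p (nat_lit 0x160004) (nat_lit 0) (p (nat_lit 0x50612) (nat_lit 0) (p (nat_lit 0x38592) (nat_lit 0) (p (nat_lit 0x40492) (nat_lit 0) (p (nat_lit 0x28412) (nat_lit 0) (p (nat_lit 0x30292) (nat_lit 0) (p (nat_lit 0x18212)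 (nat_lit 0) (p (nat_lit 0x20092) (nat_lit 0) (p (nat_lit 0x8012) (nat_lit 0) pn))))))))))))))))))))))))))) :=
  Cl.node (nat_lit 0xc9) (nat_lit 2) (by decide +kernel) (ClAll.succ (ClAll.succ ClAll.zero s25) s26)

def n8 : Cl (O (nat_lit 2)) (R (nat_lit 104577))
    (p (nat_lit 0x41) (nat_lit 0) (p (nat_lit 0xb0014) (nat_lit 0) (p (nat_lit 0xb0004) (nat_lit 0) (p (nat_lit 0x20000c) (nat_lit 1) (p (nat_lit 0xd1) (nat_lit 0) (p (nat_lit 0x109) (nat_lit 1) (p (nat_lit 0x101) (nat_lit 0) (p (nat_lit 0x119) (nat_lit 0) (p (nat_lit 0xc9) (nat_lit 0) (p (nat_lit 0x89) (nat_lit 1) (p (nat_lit 0x41) (nat_lit 0) (p (nat_lit 0x88070907889a) (nat_lit 0) (p (nat_lit 0x87868887061a) (nat_lit 0) (p (nat_lit 0x80000000070806878a) (nat_lit 0) (p (nat_lit 0x80000000068786050a) (nat_lit 0) (p (nat_lit 0x8507058682) (nat_lit 0) (p (nat_lit 0x8486850402) (nat_lit 0) (p (nat_lit 0x160014) (nat_lit 0)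 (p (nat_lit 0x160004) (nat_lit 0) (p (nat_lit 0x50612) (nat_lit 0) (p (nat_lit 0x38592) (nat_lit 0) (p (nat_lit 0x40492) (nat_lit 0) (p (nat_lit 0x28412) (nat_lit 0) (p (nat_lit 0x30292) (nat_lit 0) (p (nat_lit 0x18212) (nat_lit 0) (p (nat_lit 0x20092) (nat_lit 0) (p (nat_lit 0x8012) (nat_lit 0) pn))))))))))))))))))))))))))) :=
  Cl.node (nat_lit 0xc9) (nat_lit 2) (by decide +kernel) (ClAll.succ (ClAll.succ ClAll.zero s48) n1)

def n9 : Cl (O (nat_lit 2)) (R (nat_lit 104577))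
    (p (nat_lit 0x41) (nat_lit 0) (p (nat_lit 0xb0014) (nat_lit 0) (p (nat_lit 0xb0004) (nat_lit 0) (p (nat_lit 0x20000c) (nat_lit 1) (p (nat_lit 0xd1) (nat_lit 1) (p (nat_lit 0x109) (nat_lit 1) (p (nat_lit 0x101) (nat_lit 0) (p (nat_lit 0x119) (nat_lit 0) (p (nat_lit 0xc9) (nat_lit 0) (p (nat_lit 0x89) (nat_lit 1) (p (nat_lit 0x41) (nat_lit 0) (p (nat_lit 0x88070907889a) (nat_lit 0) (p (nat_lit 0x87868887061a) (nat_lit 0) (p (nat_lit 0x80000000070806878a) (nat_lit 0) (p (nat_lit 0x80000000068786050a) (nat_lit 0) (p (nat_lit 0x8507058682) (nat_lit 0) (p (nat_lit 0x8486850402) (nat_lit 0) (p (nat_lit 0x160014) (nat_lit 0) (p (nat_lit 0x160004) (nat_lit 0) (p (nat_lit 0x50612) (nat_lit 0) (p (nat_lit 0x38592) (nat_lit 0) (p (nat_lit 0x40492) (nat_lit 0) (p (nat_lit 0x28412) (nat_lit 0) (p (nat_lit 0x30292) (nat_lit 0) (p (nat_lit 0x18212) (nat_lit 0) (p (nat_lit 0x20092) (nat_lit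 0) (p (nat_lit 0x8012) (nat_lit 0) pn))))))))))))))))))))))))))) :=
  Cl.node (nat_lit 0x111) (nat_lit 2) (by decide +kernel) (ClAll.succ (ClAll.succ ClAll.zero n2) s57)

def n10 : Cl (O (nat_lit 2)) (R (nat_lit 104577))
    (p (nat_lit 0x109) (nat_lit 1) (p (nat_lit 0xb0014) (nat_lit 0) (p (nat_lit 0xb0004) (nat_lit 0) (p (nat_lit 0x20000c) (nat_lit 1) (p (nat_lit 0xd1) (nat_lit 0) (p (nat_lit 0xc1) (nat_lit 0) (p (nat_lit 0x101) (nat_lit 1) (p (nat_lit 0x119) (nat_lit 0) (p (nat_lit 0xc9) (nat_lit 0) (p (nat_lit 0x89) (nat_lit 1) (p (nat_lit 0x41) (nat_lit 0) (p (nat_lit 0x88070907889a) (nat_lit 0) (p (nat_lit 0x87868887061a) (nat_lit 0) (p (nat_lit 0x80000000070806878a) (nat_lit 0) (p (nat_lit 0x80000000068786050a) (nat_lit 0) (p (nat_lit 0x8507058682) (nat_lit 0) (p (nat_lit 0x8486850402) (nat_lit 0) (p (nat_lit 0x160014) (nat_lit 0) (p (nat_lit 0x160004) (nat_lit 0) (p (nat_lit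 0x50612) (nat_lit 0) (p (nat_lit 0x38592) (nat_lit 0) (p (nat_lit 0x40492) (nat_lit 0) (p (nat_lit 0x28412) (nat_lit 0) (p (nat_lit 0x30292) (nat_lit 0) (p (nat_lit 0x18212) (nat_lit 0) (p (nat_lit 0x20092) (nat_lit 0) (p (nat_lit 0x8012) (nat_lit 0) pn))))))))))))))))))))))))))) :=
  Cl.node (nat_lit 0xc9) (nat_lit 2) (by decide +kernel) (ClAll.succ (ClAll.succ ClAll.zero s63) s64)

def n11 : Cl (O (nat_lit 2)) (R (nat_lit 104577))
    (p (nat_lit 0x109) (nat_lit 1) (p (nat_lit 0xb0014) (nat_lit 0) (p (nat_lit 0xb0004) (nat_lit 0) (p (nat_lit 0x20000c) (nat_lit 1) (p (nat_lit 0xd1) (nat_lit 1) (p (nat_lit 0xc1) (nat_lit 0) (p (nat_lit 0x101) (nat_lit 1) (p (nat_lit 0x119) (nat_lit 0) (p (nat_lit 0xc9) (nat_lit 0) (p (nat_lit 0x89) (nat_lit 1) (p (nat_lit 0x41) (nat_lit 0) (p (nat_lit 0x88070907889a) (nat_lit 0) (p (nat_lit 0x87868887061a) (nat_lit 0) (p (nat_lit 0x80000000070806878a)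 (nat_lit 0) (p (nat_lit 0x80000000068786050a) (nat_lit 0) (p (nat_lit 0x8507058682) (nat_lit 0) (p (nat_lit 0x8486850402) (nat_lit 0) (p (nat_lit 0x160014) (nat_lit 0) (p (nat_lit 0x160004) (nat_lit 0) (p (nat_lit 0x50612) (nat_lit 0) (p (nat_lit 0x38592) (nat_lit 0) (p (nat_lit 0x40492) (nat_lit 0) (p (nat_lit 0x28412) (nat_lit 0) (p (nat_lit 0x30292) (nat_lit 0) (p (nat_lit 0x18212) (nat_lit 0) (p (nat_lit 0x20092) (nat_lit 0) (p (nat_lit 0x8012) (nat_lit 0) pn))))))))))))))))))))))))))) :=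
  Cl.node (nat_lit 0x81) (nat_lit 2) (by decide +kernel) (ClAll.succ (ClAll.succ ClAll.zero n3) n4)

def n12 : Cl (O (nat_lit 2)) (R (nat_lit 104577))
    (p (nat_lit 0xd1) (nat_lit 0) (p (nat_lit 0xb0014) (nat_lit 0) (p (nat_lit 0xb0004) (nat_lit 0) (p (nat_lit 0x20000c) (nat_lit 1) (p (nat_lit 0x111) (nat_lit 1) (p (nat_lit 0x101) (nat_lit 0) (p (nat_lit 0xc1) (nat_lit 1) (p (nat_lit 0x119) (nat_lit 1) (p (nat_lit 0xc9) (nat_lit 0) (p (nat_lit 0x89) (nat_lit 1) (p (nat_lit 0x41) (nat_lit 0) (p (nat_lit 0x88070907889a) (nat_lit 0) (p (nat_lit 0x87868887061a) (nat_lit 0) (p (nat_lit 0x80000000070806878a) (nat_lit 0) (p (nat_lit 0x80000000068786050a) (nat_lit 0) (p (nat_lit 0x8507058682) (nat_lit 0) (p (nat_lit 0x8486850402) (nat_lit 0) (p (nat_lit 0x160014) (nat_lit 0) (p (nat_lit 0x160004) (nat_lit 0) (p (nat_lit 0x50612) (nat_lit 0) (p (nat_lit 0x38592) (nat_lit 0) (p (nat_lit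 0x40492) (nat_lit 0) (p (nat_lit 0x28412) (nat_lit 0) (p (nat_lit 0x30292) (nat_lit 0) (p (nat_lit 0x18212) (nat_lit 0) (p (nat_lit 0x20092) (nat_lit 0) (p (nat_lit 0x8012) (nat_lit 0) pn))))))))))))))))))))))))))) :=
  Cl.node (nat_lit 0x41) (nat_lit 2) (by decide +kernel) (ClAll.succ (ClAll.succ ClAll.zero s86) s87)

def n13 : Cl (O (nat_lit 2)) (R (nat_lit 104577))
    (p (nat_lit 0xd1) (nat_lit 1) (p (nat_lit 0xb0014) (nat_lit 0) (p (nat_lit 0xb0004) (nat_lit 0) (p (nat_lit 0x20000c) (nat_lit 1) (p (nat_lit 0x111) (nat_lit 1) (p (nat_lit 0x101) (nat_lit 0) (p (nat_lit 0xc1) (nat_lit 1) (p (nat_lit 0x119) (nat_lit 1) (p (nat_lit 0xc9) (nat_lit 0) (p (nat_lit 0x89) (nat_lit 1) (p (nat_lit 0x41) (nat_lit 0) (p (nat_lit 0x88070907889a) (nat_lit 0) (p (nat_lit 0x87868887061a) (nat_lit 0) (p (nat_lit 0x80000000070806878a) (nat_lit 0) (p (nat_lit 0x80000000068786050a) (nat_lit 0) (p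 (nat_lit 0x8507058682) (nat_lit 0) (p (nat_lit 0x8486850402) (nat_lit 0) (p (nat_lit 0x160014) (nat_lit 0) (p (nat_lit 0x160004) (nat_lit 0) (p (nat_lit 0x50612) (nat_lit 0) (p (nat_lit 0x38592) (nat_lit 0) (p (nat_lit 0x40492) (nat_lit 0) (p (nat_lit 0x28412) (nat_lit 0) (p (nat_lit 0x30292) (nat_lit 0) (p (nat_lit 0x18212) (nat_lit 0) (p (nat_lit 0x20092) (nat_lit 0) (p (nat_lit 0x8012) (nat_lit 0) pn))))))))))))))))))))))))))) :=
  Cl.node (nat_lit 0x81) (nat_lit 2) (by decide +kernel) (ClAll.succ (ClAll.succ ClAll.zero s88) n5)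

def n14 : Cl (O (nat_lit 2)) (R (nat_lit 104577))
    (p (nat_lit 0xb0014) (nat_lit 0) (p (nat_lit 0xb0004) (nat_lit 0) (p (nat_lit 0x20000c) (nat_lit 1) (p (nat_lit 0xc9) (nat_lit 1) (p (nat_lit 0x109) (nat_lit 1) (p (nat_lit 0x101) (nat_lit 0) (p (nat_lit 0x119) (nat_lit 0) (p (nat_lit 0xd1) (nat_lit 0) (p (nat_lit 0x89) (nat_lit 0) (p (nat_lit 0x41) (nat_lit 0) (p (nat_lit 0x88070907889a) (nat_lit 0) (p (nat_lit 0x87868887061a) (nat_lit 0) (p (nat_lit 0x80000000070806878a) (nat_lit 0) (p (nat_lit 0x80000000068786050a) (nat_lit 0) (p (nat_lit 0x8507058682) (nat_lit 0) (p (nat_lit 0x8486850402) (nat_lit 0) (p (nat_lit 0x160014) (nat_lit 0) (p (nat_lit 0x160004) (nat_lit 0) (p (nat_lit 0x50612) (nat_lit 0) (p (nat_lit 0x38592) (nat_lit 0) (p (nat_lit 0x40492) (nat_lit 0) (p (nat_lit 0x28412) (nat_lit 0) (p (nat_lit 0x30292) (nat_lit 0) (p (nat_lit 0x18212) (nat_lit 0) (p (nat_lit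 0x20092) (nat_lit 0) (p (nat_lit 0x8012) (nat_lit 0) pn)))))))))))))))))))))))))) :=
  Cl.node (nat_lit 0x81) (nat_lit 2) (by decide +kernel) (ClAll.succ (ClAll.succ ClAll.zero s3) s4)

def n15 : Cl (O (nat_lit 2)) (R (nat_lit 104577))
    (p (nat_lit 0xb0004) (nat_lit 0) (p (nat_lit 0x20000c) (nat_lit 1) (p (nat_lit 0xc9) (nat_lit 1) (p (nat_lit 0xc1) (nat_lit 0) (p (nat_lit 0x81) (nat_lit 1) (p (nat_lit 0x101) (nat_lit 1) (p (nat_lit 0x119) (nat_lit 0) (p (nat_lit 0xd1) (nat_lit 0) (p (nat_lit 0x89) (nat_lit 0) (p (nat_lit 0x41) (nat_lit 0) (p (nat_lit 0x88070907889a) (nat_lit 0) (p (nat_lit 0x87868887061a) (nat_lit 0) (p (nat_lit 0x80000000070806878a) (nat_lit 0) (p (nat_lit 0x80000000068786050a) (nat_lit 0) (p (nat_lit 0x8507058682) (nat_lit 0) (p (nat_lit 0x8486850402) (nat_lit 0) (p (nat_lit 0x160014) (nat_lit 0) (p (nat_lit 0x160004) (nat_lit 0) (p (nat_lit 0x50612) (nat_lit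 0) (p (nat_lit 0x38592) (nat_lit 0) (p (nat_lit 0x40492) (nat_lit 0) (p (nat_lit 0x28412) (nat_lit 0) (p (nat_lit 0x30292) (nat_lit 0) (p (nat_lit 0x18212) (nat_lit 0) (p (nat_lit 0x20092) (nat_lit 0) (p (nat_lit 0x8012) (nat_lit 0) pn)))))))))))))))))))))))))) :=
  Cl.node (nat_lit 0xb0014) (nat_lit 2) (by decide +kernel) (ClAll.succ (ClAll.succ ClAll.zero n6) s14)

def n16 : Cl (O (nat_lit 2)) (R (nat_lit 104577))
    (p (nat_lit 0xb0004) (nat_lit 0) (p (nat_lit 0x20000c) (nat_lit 1) (p (nat_lit 0x109) (nat_lit 1) (p (nat_lit 0x101) (nat_lit 0) (p (nat_lit 0x81) (nat_lit 1) (p (nat_lit 0xc1) (nat_lit 1) (p (nat_lit 0x119) (nat_lit 1) (p (nat_lit 0xd1) (nat_lit 0) (p (nat_lit 0x89) (nat_lit 0) (p (nat_lit 0x41) (nat_lit 0) (p (nat_lit 0x88070907889a) (nat_lit 0) (p (nat_lit 0x87868887061a) (nat_lit 0) (p (nat_lit 0x80000000070806878a) (nat_lit 0) (p (nat_lit 0x80000000068786050a)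 (nat_lit 0) (p (nat_lit 0x8507058682) (nat_lit 0) (p (nat_lit 0x8486850402) (nat_lit 0) (p (nat_lit 0x160014) (nat_lit 0) (p (nat_lit 0x160004) (nat_lit 0) (p (nat_lit 0x50612) (nat_lit 0) (p (nat_lit 0x38592) (nat_lit 0) (p (nat_lit 0x40492) (nat_lit 0) (p (nat_lit 0x28412) (nat_lit 0) (p (nat_lit 0x30292) (nat_lit 0) (p (nat_lit 0x18212) (nat_lit 0) (p (nat_lit 0x20092) (nat_lit 0) (p (nat_lit 0x8012) (nat_lit 0) pn)))))))))))))))))))))))))) :=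
  Cl.node (nat_lit 0xb0014) (nat_lit 2) (by decide +kernel) (ClAll.succ (ClAll.succ ClAll.zero n7) s27)

def n17 : Cl (O (nat_lit 2)) (R (nat_lit 104577))
    (p (nat_lit 0xc1) (nat_lit 1) (p (nat_lit 0xb0014) (nat_lit 0) (p (nat_lit 0xb0004) (nat_lit 0) (p (nat_lit 0x20000c) (nat_lit 1) (p (nat_lit 0x109) (nat_lit 1) (p (nat_lit 0x101) (nat_lit 0) (p (nat_lit 0x111) (nat_lit 0) (p (nat_lit 0xd1) (nat_lit 1) (p (nat_lit 0x89) (nat_lit 0) (p (nat_lit 0x41) (nat_lit 0) (p (nat_lit 0x88070907889a) (nat_lit 0) (p (nat_lit 0x87868887061a) (nat_lit 0) (p (nat_lit 0x80000000070806878a) (nat_lit 0) (p (nat_lit 0x80000000068786050a) (nat_lit 0) (p (nat_lit 0x8507058682) (nat_lit 0) (p (nat_lit 0x8486850402) (nat_lit 0) (p (nat_lit 0x160014) (nat_lit 0) (p (nat_lit 0x160004) (nat_lit 0) (p (nat_lit 0x50612) (nat_lit 0) (p (nat_lit 0x38592) (nat_lit 0) (p (nat_lit 0x40492) (nat_lit 0) (p (nat_lit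 0x28412) (nat_lit 0) (p (nat_lit 0x30292) (nat_lit 0) (p (nat_lit 0x18212) (nat_lit 0) (p (nat_lit 0x20092) (nat_lit 0) (p (nat_lit 0x8012) (nat_lit 0) pn)))))))))))))))))))))))))) :=
  Cl.node (nat_lit 0x41) (nat_lit 2) (by decide +kernel) (ClAll.succ (ClAll.succ ClAll.zero s33) s34)

def n18 : Cl (O (nat_lit 2)) (R (nat_lit 104577))
    (p (nat_lit 0xb0014) (nat_lit 0) (p (nat_lit 0xb0004) (nat_lit 0) (p (nat_lit 0x20000c) (nat_lit 1) (p (nat_lit 0xd1) (nat_lit 0) (p (nat_lit 0x109) (nat_lit 1) (p (nat_lit 0x101) (nat_lit 0) (p (nat_lit 0x119) (nat_lit 0) (p (nat_lit 0xc9) (nat_lit 0) (p (nat_lit 0x89) (nat_lit 1) (p (nat_lit 0x41) (nat_lit 0) (p (nat_lit 0x88070907889a) (nat_lit 0) (p (nat_lit 0x87868887061a) (nat_lit 0) (p (nat_lit 0x80000000070806878a) (nat_lit 0) (p (nat_lit 0x80000000068786050a) (nat_lit 0) (p (nat_lit 0x8507058682) (nat_lit 0) (p (nat_lit 0x8486850402) (nat_lit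 0) (p (nat_lit 0x160014) (nat_lit 0) (p (nat_lit 0x160004) (nat_lit 0) (p (nat_lit 0x50612) (nat_lit 0) (p (nat_lit 0x38592) (nat_lit 0) (p (nat_lit 0x40492) (nat_lit 0) (p (nat_lit 0x28412) (nat_lit 0) (p (nat_lit 0x30292) (nat_lit 0) (p (nat_lit 0x18212) (nat_lit 0) (p (nat_lit 0x20092) (nat_lit 0) (p (nat_lit 0x8012) (nat_lit 0) pn)))))))))))))))))))))))))) :=
  Cl.node (nat_lit 0x41) (nat_lit 2) (by decide +kernel) (ClAll.succ (ClAll.succ ClAll.zero n8) s51)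

def n19 : Cl (O (nat_lit 2)) (R (nat_lit 104577))
    (p (nat_lit 0xb0014) (nat_lit 0) (p (nat_lit 0xb0004) (nat_lit 0) (p (nat_lit 0x20000c) (nat_lit 1) (p (nat_lit 0xd1) (nat_lit 1) (p (nat_lit 0x109) (nat_lit 1) (p (nat_lit 0x101) (nat_lit 0) (p (nat_lit 0x119) (nat_lit 0) (p (nat_lit 0xc9) (nat_lit 0) (p (nat_lit 0x89) (nat_lit 1) (p (nat_lit 0x41) (nat_lit 0) (p (nat_lit 0x88070907889a) (nat_lit 0) (p (nat_lit 0x87868887061a) (nat_lit 0) (p (nat_lit 0x80000000070806878a) (nat_lit 0) (p (nat_lit 0x80000000068786050a) (nat_lit 0) (p (nat_lit 0x8507058682) (nat_lit 0) (p (nat_lit 0x8486850402) (nat_lit 0) (p (nat_lit 0x160014) (nat_lit 0) (p (nat_lit 0x160004) (nat_lit 0) (p (nat_lit 0x50612) (nat_lit 0) (p (nat_lit 0x38592) (nat_lit 0) (p (nat_lit 0x40492) (nat_lit 0) (p (nat_lit 0x28412) (nat_lit 0) (p (nat_lit 0x30292) (nat_lit 0) (p (nat_lit 0x18212) (nat_lit 0) (p (nat_lit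 0x20092) (nat_lit 0) (p (nat_lit 0x8012) (nat_lit 0) pn)))))))))))))))))))))))))) :=
  Cl.node (nat_lit 0x41) (nat_lit 2) (by decide +kernel) (ClAll.succ (ClAll.succ ClAll.zero n9) s58)

def n20 : Cl (O (nat_lit 2)) (R (nat_lit 104577))
    (p (nat_lit 0xb0014) (nat_lit 0) (p (nat_lit 0xb0004) (nat_lit 0) (p (nat_lit 0x20000c) (nat_lit 1) (p (nat_lit 0xd1) (nat_lit 0) (p (nat_lit 0xc1) (nat_lit 0) (p (nat_lit 0x101) (nat_lit 1) (p (nat_lit 0x119) (nat_lit 0) (p (nat_lit 0xc9) (nat_lit 0) (p (nat_lit 0x89) (nat_lit 1) (p (nat_lit 0x41) (nat_lit 0) (p (nat_lit 0x88070907889a) (nat_lit 0) (p (nat_lit 0x87868887061a) (nat_lit 0) (p (nat_lit 0x80000000070806878a) (nat_lit 0) (p (nat_lit 0x80000000068786050a) (nat_lit 0) (p (nat_lit 0x8507058682) (nat_lit 0) (p (nat_lit 0x8486850402) (nat_lit 0) (p (nat_lit 0x160014) (nat_lit 0) (p (nat_lit 0x160004) (nat_lit 0) (p (nat_lit 0x50612) (nat_lit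 0) (p (nat_lit 0x38592) (nat_lit 0) (p (nat_lit 0x40492) (nat_lit 0) (p (nat_lit 0x28412) (nat_lit 0) (p (nat_lit 0x30292) (nat_lit 0) (p (nat_lit 0x18212) (nat_lit 0) (p (nat_lit 0x20092) (nat_lit 0) (p (nat_lit 0x8012) (nat_lit 0) pn)))))))))))))))))))))))))) :=
  Cl.node (nat_lit 0x109) (nat_lit 2) (by decide +kernel) (ClAll.succ (ClAll.succ ClAll.zero s62) n10)

def n21 : Cl (O (nat_lit 2)) (R (nat_lit 104577))
    (p (nat_lit 0xb0014) (nat_lit 0) (p (nat_lit 0xb0004) (nat_lit 0) (p (nat_lit 0x20000c) (nat_lit 1) (p (nat_lit 0xd1) (nat_lit 1) (p (nat_lit 0xc1) (nat_lit 0) (p (nat_lit 0x101) (nat_lit 1) (p (nat_lit 0x119) (nat_lit 0) (p (nat_lit 0xc9) (nat_lit 0) (p (nat_lit 0x89) (nat_lit 1) (p (nat_lit 0x41) (nat_lit 0) (p (nat_lit 0x88070907889a) (nat_lit 0) (p (nat_lit 0x87868887061a) (nat_lit 0) (p (nat_lit 0x80000000070806878a) (nat_lit 0) (p (nat_lit 0x80000000068786050a)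 (nat_lit 0) (p (nat_lit 0x8507058682) (nat_lit 0) (p (nat_lit 0x8486850402) (nat_lit 0) (p (nat_lit 0x160014) (nat_lit 0) (p (nat_lit 0x160004) (nat_lit 0) (p (nat_lit 0x50612) (nat_lit 0) (p (nat_lit 0x38592) (nat_lit 0) (p (nat_lit 0x40492) (nat_lit 0) (p (nat_lit 0x28412) (nat_lit 0) (p (nat_lit 0x30292) (nat_lit 0) (p (nat_lit 0x18212) (nat_lit 0) (p (nat_lit 0x20092) (nat_lit 0) (p (nat_lit 0x8012) (nat_lit 0) pn)))))))))))))))))))))))))) :=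
  Cl.node (nat_lit 0x109) (nat_lit 2) (by decide +kernel) (ClAll.succ (ClAll.succ ClAll.zero s68) n11)

def n22 : Cl (O (nat_lit 2)) (R (nat_lit 104577))
    (p (nat_lit 0xb0014) (nat_lit 0) (p (nat_lit 0xb0004) (nat_lit 0) (p (nat_lit 0x20000c) (nat_lit 1) (p (nat_lit 0x111) (nat_lit 1) (p (nat_lit 0xd1) (nat_lit 1) (p (nat_lit 0xc1) (nat_lit 0) (p (nat_lit 0x119) (nat_lit 1) (p (nat_lit 0xc9) (nat_lit 0) (p (nat_lit 0x89) (nat_lit 1) (p (nat_lit 0x41) (nat_lit 0) (p (nat_lit 0x88070907889a) (nat_lit 0) (p (nat_lit 0x87868887061a) (nat_lit 0) (p (nat_lit 0x80000000070806878a) (nat_lit 0) (p (nat_lit 0x80000000068786050a) (nat_lit 0) (p (nat_lit 0x8507058682) (nat_lit 0) (p (nat_lit 0x8486850402) (nat_lit 0) (p (nat_lit 0x160014) (nat_lit 0) (p (nat_lit 0x160004) (nat_lit 0) (p (nat_lit 0x50612) (nat_lit 0) (p (nat_lit 0x38592) (nat_lit 0) (p (nat_lit 0x40492) (nat_lit 0) (p (nat_lit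 0x28412) (nat_lit 0) (p (nat_lit 0x30292) (nat_lit 0) (p (nat_lit 0x18212) (nat_lit 0) (p (nat_lit 0x20092) (nat_lit 0) (p (nat_lit 0x8012) (nat_lit 0) pn)))))))))))))))))))))))))) :=
  Cl.node (nat_lit 0x81) (nat_lit 2) (by decide +kernel) (ClAll.succ (ClAll.succ ClAll.zero s80) s81)

def n23 : Cl (O (nat_lit 2)) (R (nat_lit 104577))
    (p (nat_lit 0xb0014) (nat_lit 0) (p (nat_lit 0xb0004) (nat_lit 0) (p (nat_lit 0x20000c) (nat_lit 1) (p (nat_lit 0x111) (nat_lit 1) (p (nat_lit 0x101) (nat_lit 0) (p (nat_lit 0xc1) (nat_lit 1) (p (nat_lit 0x119) (nat_lit 1) (p (nat_lit 0xc9) (nat_lit 0) (p (nat_lit 0x89) (nat_lit 1) (p (nat_lit 0x41) (nat_lit 0) (p (nat_lit 0x88070907889a) (nat_lit 0) (p (nat_lit 0x87868887061a) (nat_lit 0) (p (nat_lit 0x80000000070806878a) (nat_lit 0) (p (nat_lit 0x80000000068786050a) (nat_lit 0) (p (nat_lit 0x8507058682) (nat_lit 0) (p (nat_lit 0x8486850402) (nat_lit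 0) (p (nat_lit 0x160014) (nat_lit 0) (p (nat_lit 0x160004) (nat_lit 0) (p (nat_lit 0x50612) (nat_lit 0) (p (nat_lit 0x38592) (nat_lit 0) (p (nat_lit 0x40492) (nat_lit 0) (p (nat_lit 0x28412) (nat_lit 0) (p (nat_lit 0x30292) (nat_lit 0) (p (nat_lit 0x18212) (nat_lit 0) (p (nat_lit 0x20092) (nat_lit 0) (p (nat_lit 0x8012) (nat_lit 0) pn)))))))))))))))))))))))))) :=
  Cl.node (nat_lit 0xd1) (nat_lit 2) (by decide +kernel) (ClAll.succ (ClAll.succ ClAll.zero n12) n13)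

def n24 : Cl (O (nat_lit 2)) (R (nat_lit 104577))
    (p (nat_lit 0xb0004) (nat_lit 0) (p (nat_lit 0x20000c) (nat_lit 1) (p (nat_lit 0xc9) (nat_lit 1) (p (nat_lit 0x109) (nat_lit 1) (p (nat_lit 0x101) (nat_lit 0) (p (nat_lit 0x119) (nat_lit 0) (p (nat_lit 0xd1) (nat_lit 0) (p (nat_lit 0x89) (nat_lit 0) (p (nat_lit 0x41) (nat_lit 0) (p (nat_lit 0x88070907889a) (nat_lit 0) (p (nat_lit 0x87868887061a) (nat_lit 0) (p (nat_lit 0x80000000070806878a) (nat_lit 0) (p (nat_lit 0x80000000068786050a) (nat_lit 0) (p (nat_lit 0x8507058682) (nat_lit 0) (p (nat_lit 0x8486850402) (nat_lit 0) (p (nat_lit 0x160014) (nat_lit 0) (p (nat_lit 0x160004) (nat_lit 0) (p (nat_lit 0x50612) (nat_lit 0) (p (nat_lit 0x38592) (nat_lit 0) (p (nat_lit 0x40492) (nat_lit 0) (p (nat_lit 0x28412) (nat_lit 0) (p (nat_lit 0x30292) (nat_lit 0) (p (nat_lit 0x18212) (nat_lit 0) (p (nat_lit 0x20092) (nat_lit 0) (p (nat_lit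 0x8012) (nat_lit 0) pn))))))))))))))))))))))))) :=
  Cl.node (nat_lit 0xb0014) (nat_lit 2) (by decide +kernel) (ClAll.succ (ClAll.succ ClAll.zero n14) s5)

def n25 : Cl (O (nat_lit 2)) (R (nat_lit 104577))
    (p (nat_lit 0x20000c) (nat_lit 1) (p (nat_lit 0xc9) (nat_lit 1) (p (nat_lit 0xc1) (nat_lit 0) (p (nat_lit 0x81) (nat_lit 1) (p (nat_lit 0x101) (nat_lit 1) (p (nat_lit 0x119) (nat_lit 0) (p (nat_lit 0xd1) (nat_lit 0) (p (nat_lit 0x89) (nat_lit 0) (p (nat_lit 0x41) (nat_lit 0) (p (nat_lit 0x88070907889a) (nat_lit 0) (p (nat_lit 0x87868887061a) (nat_lit 0) (p (nat_lit 0x80000000070806878a) (nat_lit 0) (p (nat_lit 0x80000000068786050a) (nat_lit 0) (p (nat_lit 0x8507058682) (nat_lit 0) (p (nat_lit 0x8486850402) (nat_lit 0) (p (nat_lit 0x160014) (nat_lit 0) (p (nat_lit 0x160004) (nat_lit 0) (p (nat_lit 0x50612) (nat_lit 0) (p (nat_lit 0x38592) (nat_lit 0) (p (nat_lit 0x40492) (nat_lit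 0) (p (nat_lit 0x28412) (nat_lit 0) (p (nat_lit 0x30292) (nat_lit 0) (p (nat_lit 0x18212) (nat_lit 0) (p (nat_lit 0x20092) (nat_lit 0) (p (nat_lit 0x8012) (nat_lit 0) pn))))))))))))))))))))))))) :=
  Cl.node (nat_lit 0xb0004) (nat_lit 2) (by decide +kernel) (ClAll.succ (ClAll.succ ClAll.zero n15) s15)

def n26 : Cl (O (nat_lit 2)) (R (nat_lit 104577))
    (p (nat_lit 0x20000c) (nat_lit 1) (p (nat_lit 0x109) (nat_lit 1) (p (nat_lit 0x101) (nat_lit 0) (p (nat_lit 0x81) (nat_lit 1) (p (nat_lit 0xc1) (nat_lit 1) (p (nat_lit 0x119) (nat_lit 1) (p (nat_lit 0xd1) (nat_lit 0) (p (nat_lit 0x89) (nat_lit 0) (p (nat_lit 0x41) (nat_lit 0) (p (nat_lit 0x88070907889a) (nat_lit 0) (p (nat_lit 0x87868887061a) (nat_lit 0) (p (nat_lit 0x80000000070806878a) (nat_lit 0) (p (nat_lit 0x80000000068786050a) (nat_lit 0) (p (nat_lit 0x8507058682) (nat_lit 0) (p (nat_lit 0x8486850402) (nat_lit 0) (p (nat_lit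 0x160014) (nat_lit 0) (p (nat_lit 0x160004) (nat_lit 0) (p (nat_lit 0x50612) (nat_lit 0) (p (nat_lit 0x38592) (nat_lit 0) (p (nat_lit 0x40492) (nat_lit 0) (p (nat_lit 0x28412) (nat_lit 0) (p (nat_lit 0x30292) (nat_lit 0) (p (nat_lit 0x18212) (nat_lit 0) (p (nat_lit 0x20092) (nat_lit 0) (p (nat_lit 0x8012) (nat_lit 0) pn))))))))))))))))))))))))) :=
  Cl.node (nat_lit 0xb0004) (nat_lit 2) (by decide +kernel) (ClAll.succ (ClAll.succ ClAll.zero n16) s28)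

def n27 : Cl (O (nat_lit 2)) (R (nat_lit 104577))
    (p (nat_lit 0xb0014) (nat_lit 0) (p (nat_lit 0xb0004) (nat_lit 0) (p (nat_lit 0x20000c) (nat_lit 1) (p (nat_lit 0x109) (nat_lit 1) (p (nat_lit 0x101) (nat_lit 0) (p (nat_lit 0x111) (nat_lit 0) (p (nat_lit 0xd1) (nat_lit 1) (p (nat_lit 0x89) (nat_lit 0) (p (nat_lit 0x41) (nat_lit 0) (p (nat_lit 0x88070907889a) (nat_lit 0) (p (nat_lit 0x87868887061a) (nat_lit 0) (p (nat_lit 0x80000000070806878a) (nat_lit 0) (p (nat_lit 0x80000000068786050a) (nat_lit 0) (p (nat_lit 0x8507058682) (nat_lit 0) (p (nat_lit 0x8486850402) (nat_lit 0) (p (nat_lit 0x160014) (nat_lit 0) (p (nat_lit 0x160004) (nat_lit 0) (p (nat_lit 0x50612) (nat_lit 0) (p (nat_lit 0x38592) (nat_lit 0) (p (nat_lit 0x40492) (nat_lit 0) (p (nat_lit 0x28412) (nat_lit 0) (p (nat_lit 0x30292) (nat_lit 0) (p (nat_lit 0x18212) (nat_lit 0) (p (nat_lit 0x20092) (nat_lit 0) (p (nat_lit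 0x8012) (nat_lit 0) pn))))))))))))))))))))))))) :=
  Cl.node (nat_lit 0xc1) (nat_lit 2) (by decide +kernel) (ClAll.succ (ClAll.succ ClAll.zero s32) n17)

def n28 : Cl (O (nat_lit 2)) (R (nat_lit 104577))
    (p (nat_lit 0xb0004) (nat_lit 0) (p (nat_lit 0x20000c) (nat_lit 1) (p (nat_lit 0xd1) (nat_lit 0) (p (nat_lit 0x109) (nat_lit 1) (p (nat_lit 0x101) (nat_lit 0) (p (nat_lit 0x119) (nat_lit 0) (p (nat_lit 0xc9) (nat_lit 0) (p (nat_lit 0x89) (nat_lit 1) (p (nat_lit 0x41) (nat_lit 0) (p (nat_lit 0x88070907889a) (nat_lit 0) (p (nat_lit 0x87868887061a) (nat_lit 0) (p (nat_lit 0x80000000070806878a) (nat_lit 0) (p (nat_lit 0x80000000068786050a) (nat_lit 0) (p (nat_lit 0x8507058682) (nat_lit 0) (p (nat_lit 0x8486850402) (nat_lit 0) (p (nat_lit 0x160014) (nat_lit 0) (p (nat_lit 0x160004) (nat_lit 0) (p (nat_lit 0x50612) (nat_lit 0) (p (nat_lit 0x38592) (nat_lit 0) (p (nat_lit 0x40492)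 (nat_lit 0) (p (nat_lit 0x28412) (nat_lit 0) (p (nat_lit 0x30292) (nat_lit 0) (p (nat_lit 0x18212) (nat_lit 0) (p (nat_lit 0x20092) (nat_lit 0) (p (nat_lit 0x8012) (nat_lit 0) pn))))))))))))))))))))))))) :=
  Cl.node (nat_lit 0xb0014) (nat_lit 2) (by decide +kernel) (ClAll.succ (ClAll.succ ClAll.zero n18) s52)

def n29 : Cl (O (nat_lit 2)) (R (nat_lit 104577))
    (p (nat_lit 0xb0004) (nat_lit 0) (p (nat_lit 0x20000c) (nat_lit 1) (p (nat_lit 0xd1) (nat_lit 1) (p (nat_lit 0x109) (nat_lit 1) (p (nat_lit 0x101) (nat_lit 0) (p (nat_lit 0x119) (nat_lit 0) (p (nat_lit 0xc9) (nat_lit 0) (p (nat_lit 0x89) (nat_lit 1) (p (nat_lit 0x41) (nat_lit 0) (p (nat_lit 0x88070907889a) (nat_lit 0) (p (nat_lit 0x87868887061a) (nat_lit 0) (p (nat_lit 0x80000000070806878a) (nat_lit 0) (p (nat_lit 0x80000000068786050a) (nat_lit 0) (p (nat_lit 0x8507058682) (nat_lit 0) (p (nat_lit 0x8486850402) (nat_lit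 0) (p (nat_lit 0x160014) (nat_lit 0) (p (nat_lit 0x160004) (nat_lit 0) (p (nat_lit 0x50612) (nat_lit 0) (p (nat_lit 0x38592) (nat_lit 0) (p (nat_lit 0x40492) (nat_lit 0) (p (nat_lit 0x28412) (nat_lit 0) (p (nat_lit 0x30292) (nat_lit 0) (p (nat_lit 0x18212) (nat_lit 0) (p (nat_lit 0x20092) (nat_lit 0) (p (nat_lit 0x8012) (nat_lit 0) pn))))))))))))))))))))))))) :=
  Cl.node (nat_lit 0xb0014) (nat_lit 2) (by decide +kernel) (ClAll.succ (ClAll.succ ClAll.zero n19) s59)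

def n30 : Cl (O (nat_lit 2)) (R (nat_lit 104577))
    (p (nat_lit 0xb0004) (nat_lit 0) (p (nat_lit 0x20000c) (nat_lit 1) (p (nat_lit 0xd1) (nat_lit 0) (p (nat_lit 0xc1) (nat_lit 0) (p (nat_lit 0x101) (nat_lit 1) (p (nat_lit 0x119) (nat_lit 0) (p (nat_lit 0xc9) (nat_lit 0) (p (nat_lit 0x89) (nat_lit 1) (p (nat_lit 0x41) (nat_lit 0) (p (nat_lit 0x88070907889a) (nat_lit 0) (p (nat_lit 0x87868887061a) (nat_lit 0) (p (nat_lit 0x80000000070806878a) (nat_lit 0) (p (nat_lit 0x80000000068786050a) (nat_lit 0) (p (nat_lit 0x8507058682) (nat_lit 0) (p (nat_lit 0x8486850402) (nat_lit 0) (p (nat_lit 0x160014) (nat_lit 0) (p (nat_lit 0x160004) (nat_lit 0) (p (nat_lit 0x50612) (nat_lit 0) (p (nat_lit 0x38592) (nat_lit 0) (p (nat_lit 0x40492) (nat_lit 0) (p (nat_lit 0x28412) (nat_lit 0) (p (nat_lit 0x30292) (nat_lit 0) (p (nat_lit 0x18212) (nat_lit 0) (p (nat_lit 0x20092) (nat_lit 0) (p (nat_lit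 0x8012) (nat_lit 0) pn))))))))))))))))))))))))) :=
  Cl.node (nat_lit 0xb0014) (nat_lit 2) (by decide +kernel) (ClAll.succ (ClAll.succ ClAll.zero n20) s65)

def n31 : Cl (O (nat_lit 2)) (R (nat_lit 104577))
    (p (nat_lit 0xb0004) (nat_lit 0) (p (nat_lit 0x20000c) (nat_lit 1) (p (nat_lit 0xd1) (nat_lit 1) (p (nat_lit 0xc1) (nat_lit 0) (p (nat_lit 0x101) (nat_lit 1) (p (nat_lit 0x119) (nat_lit 0) (p (nat_lit 0xc9) (nat_lit 0) (p (nat_lit 0x89) (nat_lit 1) (p (nat_lit 0x41) (nat_lit 0) (p (nat_lit 0x88070907889a) (nat_lit 0) (p (nat_lit 0x87868887061a) (nat_lit 0) (p (nat_lit 0x80000000070806878a) (nat_lit 0) (p (nat_lit 0x80000000068786050a) (nat_lit 0) (p (nat_lit 0x8507058682) (nat_lit 0) (p (nat_lit 0x8486850402) (nat_lit 0) (p (nat_lit 0x160014) (nat_lit 0) (p (nat_lit 0x160004) (nat_lit 0) (p (nat_lit 0x50612) (nat_lit 0) (p (nat_lit 0x38592) (nat_lit 0) (p (nat_lit 0x40492)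 (nat_lit 0) (p (nat_lit 0x28412) (nat_lit 0) (p (nat_lit 0x30292) (nat_lit 0) (p (nat_lit 0x18212) (nat_lit 0) (p (nat_lit 0x20092) (nat_lit 0) (p (nat_lit 0x8012) (nat_lit 0) pn))))))))))))))))))))))))) :=
  Cl.node (nat_lit 0xb0014) (nat_lit 2) (by decide +kernel) (ClAll.succ (ClAll.succ ClAll.zero n21) s74)

def n32 : Cl (O (nat_lit 2)) (R (nat_lit 104577))
    (p (nat_lit 0xb0004) (nat_lit 0) (p (nat_lit 0x20000c) (nat_lit 1) (p (nat_lit 0x111) (nat_lit 1) (p (nat_lit 0xd1) (nat_lit 1) (p (nat_lit 0xc1) (nat_lit 0) (p (nat_lit 0x119) (nat_lit 1) (p (nat_lit 0xc9) (nat_lit 0) (p (nat_lit 0x89) (nat_lit 1) (p (nat_lit 0x41) (nat_lit 0) (p (nat_lit 0x88070907889a) (nat_lit 0) (p (nat_lit 0x87868887061a) (nat_lit 0) (p (nat_lit 0x80000000070806878a) (nat_lit 0) (p (nat_lit 0x80000000068786050a) (nat_lit 0) (p (nat_lit 0x8507058682) (nat_lit 0) (p (nat_lit 0x8486850402) (nat_lit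 0) (p (nat_lit 0x160014) (nat_lit 0) (p (nat_lit 0x160004) (nat_lit 0) (p (nat_lit 0x50612) (nat_lit 0) (p (nat_lit 0x38592) (nat_lit 0) (p (nat_lit 0x40492) (nat_lit 0) (p (nat_lit 0x28412) (nat_lit 0) (p (nat_lit 0x30292) (nat_lit 0) (p (nat_lit 0x18212) (nat_lit 0) (p (nat_lit 0x20092) (nat_lit 0) (p (nat_lit 0x8012) (nat_lit 0) pn))))))))))))))))))))))))) :=
  Cl.node (nat_lit 0xb0014) (nat_lit 2) (by decide +kernel) (ClAll.succ (ClAll.succ ClAll.zero n22) s82)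

def n33 : Cl (O (nat_lit 2)) (R (nat_lit 104577))
    (p (nat_lit 0xb0004) (nat_lit 0) (p (nat_lit 0x20000c) (nat_lit 1) (p (nat_lit 0x111) (nat_lit 1) (p (nat_lit 0x101) (nat_lit 0) (p (nat_lit 0xc1) (nat_lit 1) (p (nat_lit 0x119) (nat_lit 1) (p (nat_lit 0xc9) (nat_lit 0) (p (nat_lit 0x89) (nat_lit 1) (p (nat_lit 0x41) (nat_lit 0) (p (nat_lit 0x88070907889a) (nat_lit 0) (p (nat_lit 0x87868887061a) (nat_lit 0) (p (nat_lit 0x80000000070806878a) (nat_lit 0) (p (nat_lit 0x80000000068786050a) (nat_lit 0) (p (nat_lit 0x8507058682) (nat_lit 0) (p (nat_lit 0x8486850402) (nat_lit 0) (p (nat_lit 0x160014) (nat_lit 0) (p (nat_lit 0x160004) (nat_lit 0) (p (nat_lit 0x50612) (nat_lit 0) (p (nat_lit 0x38592) (nat_lit 0) (p (nat_lit 0x40492) (nat_lit 0) (p (nat_lit 0x28412) (nat_lit 0) (p (nat_lit 0x30292) (nat_lit 0) (p (nat_lit 0x18212) (nat_lit 0) (p (nat_lit 0x20092) (nat_lit 0) (p (nat_lit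 0x8012) (nat_lit 0) pn))))))))))))))))))))))))) :=
  Cl.node (nat_lit 0xb0014) (nat_lit 2) (by decide +kernel) (ClAll.succ (ClAll.succ ClAll.zero n23) s91)

def n34 : Cl (O (nat_lit 2)) (R (nat_lit 104577))
    (p (nat_lit 0x20000c) (nat_lit 1) (p (nat_lit 0xc9) (nat_lit 1) (p (nat_lit 0x109) (nat_lit 1) (p (nat_lit 0x101) (nat_lit 0) (p (nat_lit 0x119) (nat_lit 0) (p (nat_lit 0xd1) (nat_lit 0) (p (nat_lit 0x89) (nat_lit 0) (p (nat_lit 0x41) (nat_lit 0) (p (nat_lit 0x88070907889a) (nat_lit 0) (p (nat_lit 0x87868887061a) (nat_lit 0) (p (nat_lit 0x80000000070806878a) (nat_lit 0) (p (nat_lit 0x80000000068786050a) (nat_lit 0) (p (nat_lit 0x8507058682) (nat_lit 0) (p (nat_lit 0x8486850402) (nat_lit 0) (p (nat_lit 0x160014) (nat_lit 0) (p (nat_lit 0x160004) (nat_lit 0) (p (nat_lit 0x50612) (nat_lit 0) (p (nat_lit 0x38592) (nat_lit 0) (p (nat_lit 0x40492) (nat_lit 0) (p (nat_lit 0x28412)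 (nat_lit 0) (p (nat_lit 0x30292) (nat_lit 0) (p (nat_lit 0x18212) (nat_lit 0) (p (nat_lit 0x20092) (nat_lit 0) (p (nat_lit 0x8012) (nat_lit 0) pn)))))))))))))))))))))))) :=
  Cl.node (nat_lit 0xb0004) (nat_lit 2) (by decide +kernel) (ClAll.succ (ClAll.succ ClAll.zero n24) s6)

def n35 : Cl (O (nat_lit 2)) (R (nat_lit 104577))
    (p (nat_lit 0xc9) (nat_lit 1) (p (nat_lit 0xc1) (nat_lit 0) (p (nat_lit 0x81) (nat_lit 1) (p (nat_lit 0x101) (nat_lit 1) (p (nat_lit 0x119) (nat_lit 0) (p (nat_lit 0xd1) (nat_lit 0) (p (nat_lit 0x89) (nat_lit 0) (p (nat_lit 0x41) (nat_lit 0) (p (nat_lit 0x88070907889a) (nat_lit 0) (p (nat_lit 0x87868887061a) (nat_lit 0) (p (nat_lit 0x80000000070806878a) (nat_lit 0) (p (nat_lit 0x80000000068786050a) (nat_lit 0) (p (nat_lit 0x8507058682) (nat_lit 0) (p (nat_lit 0x8486850402) (nat_lit 0) (p (nat_lit 0x160014) (nat_lit 0) (p (nat_lit 0x160004) (nat_lit 0) (p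 (nat_lit 0x50612) (nat_lit 0) (p (nat_lit 0x38592) (nat_lit 0) (p (nat_lit 0x40492) (nat_lit 0) (p (nat_lit 0x28412) (nat_lit 0) (p (nat_lit 0x30292) (nat_lit 0) (p (nat_lit 0x18212) (nat_lit 0) (p (nat_lit 0x20092) (nat_lit 0) (p (nat_lit 0x8012) (nat_lit 0) pn)))))))))))))))))))))))) :=
  Cl.node (nat_lit 0x20000c) (nat_lit 2) (by decide +kernel) (ClAll.succ (ClAll.succ ClAll.zero s11) n25)

def n36 : Cl (O (nat_lit 2)) (R (nat_lit 104577))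
    (p (nat_lit 0x109) (nat_lit 1) (p (nat_lit 0x101) (nat_lit 0) (p (nat_lit 0x81) (nat_lit 1) (p (nat_lit 0xc1) (nat_lit 1) (p (nat_lit 0x119) (nat_lit 1) (p (nat_lit 0xd1) (nat_lit 0) (p (nat_lit 0x89) (nat_lit 0) (p (nat_lit 0x41) (nat_lit 0) (p (nat_lit 0x88070907889a) (nat_lit 0) (p (nat_lit 0x87868887061a) (nat_lit 0) (p (nat_lit 0x80000000070806878a) (nat_lit 0) (p (nat_lit 0x80000000068786050a) (nat_lit 0) (p (nat_lit 0x8507058682) (nat_lit 0) (p (nat_lit 0x8486850402) (nat_lit 0) (p (nat_lit 0x160014) (nat_lit 0) (p (nat_lit 0x160004) (nat_lit 0) (p (nat_lit 0x50612) (nat_lit 0) (p (nat_lit 0x38592) (nat_lit 0) (p (nat_lit 0x40492) (nat_lit 0) (p (nat_lit 0x28412) (nat_lit 0) (p (nat_lit 0x30292) (nat_lit 0) (p (nat_lit 0x18212) (nat_lit 0) (p (nat_lit 0x20092) (nat_lit 0) (p (nat_lit 0x8012) (nat_lit 0) pn)))))))))))))))))))))))) :=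
  Cl.node (nat_lit 0x20000c) (nat_lit 2) (by decide +kernel) (ClAll.succ (ClAll.succ ClAll.zero s24) n26)

def n37 : Cl (O (nat_lit 2)) (R (nat_lit 104577))
    (p (nat_lit 0xb0004) (nat_lit 0) (p (nat_lit 0x20000c) (nat_lit 1) (p (nat_lit 0x109) (nat_lit 1) (p (nat_lit 0x101) (nat_lit 0) (p (nat_lit 0x111) (nat_lit 0) (p (nat_lit 0xd1) (nat_lit 1) (p (nat_lit 0x89) (nat_lit 0) (p (nat_lit 0x41) (nat_lit 0) (p (nat_lit 0x88070907889a) (nat_lit 0) (p (nat_lit 0x87868887061a) (nat_lit 0) (p (nat_lit 0x80000000070806878a) (nat_lit 0) (p (nat_lit 0x80000000068786050a) (nat_lit 0) (p (nat_lit 0x8507058682) (nat_lit 0) (p (nat_lit 0x8486850402) (nat_lit 0) (p (nat_lit 0x160014) (nat_lit 0) (p (nat_lit 0x160004) (nat_lit 0) (p (nat_lit 0x50612) (nat_lit 0) (p (nat_lit 0x38592) (nat_lit 0) (p (nat_lit 0x40492) (nat_lit 0) (p (nat_lit 0x28412) (nat_lit 0) (p (nat_lit 0x30292) (nat_lit 0)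 (p (nat_lit 0x18212) (nat_lit 0) (p (nat_lit 0x20092) (nat_lit 0) (p (nat_lit 0x8012) (nat_lit 0) pn)))))))))))))))))))))))) :=
  Cl.node (nat_lit 0xb0014) (nat_lit 2) (by decide +kernel) (ClAll.succ (ClAll.succ ClAll.zero n27) s35)

def n38 : Cl (O (nat_lit 2)) (R (nat_lit 104577))
    (p (nat_lit 0xd1) (nat_lit 1) (p (nat_lit 0x111) (nat_lit 1) (p (nat_lit 0x109) (nat_lit 0) (p (nat_lit 0x101) (nat_lit 0) (p (nat_lit 0x119) (nat_lit 0) (p (nat_lit 0xc9) (nat_lit 0) (p (nat_lit 0x89) (nat_lit 1) (p (nat_lit 0x41) (nat_lit 0) (p (nat_lit 0x88070907889a) (nat_lit 0) (p (nat_lit 0x87868887061a) (nat_lit 0) (p (nat_lit 0x80000000070806878a) (nat_lit 0) (p (nat_lit 0x80000000068786050a) (nat_lit 0) (p (nat_lit 0x8507058682) (nat_lit 0) (p (nat_lit 0x8486850402) (nat_lit 0) (p (nat_lit 0x160014) (nat_lit 0) (p (nat_lit 0x160004) (nat_lit 0) (p (nat_lit 0x50612) (nat_lit 0) (p (nat_lit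 0x38592) (nat_lit 0) (p (nat_lit 0x40492) (nat_lit 0) (p (nat_lit 0x28412) (nat_lit 0) (p (nat_lit 0x30292) (nat_lit 0) (p (nat_lit 0x18212) (nat_lit 0) (p (nat_lit 0x20092) (nat_lit 0) (p (nat_lit 0x8012) (nat_lit 0) pn)))))))))))))))))))))))) :=
  Cl.node (nat_lit 0x20000c) (nat_lit 2) (by decide +kernel) (ClAll.succ (ClAll.succ ClAll.zero s45) s46)

def n39 : Cl (O (nat_lit 2)) (R (nat_lit 104577))
    (p (nat_lit 0x20000c) (nat_lit 1) (p (nat_lit 0xd1) (nat_lit 0) (p (nat_lit 0x109) (nat_lit 1) (p (nat_lit 0x101) (nat_lit 0) (p (nat_lit 0x119) (nat_lit 0) (p (nat_lit 0xc9) (nat_lit 0) (p (nat_lit 0x89) (nat_lit 1) (p (nat_lit 0x41) (nat_lit 0) (p (nat_lit 0x88070907889a) (nat_lit 0) (p (nat_lit 0x87868887061a) (nat_lit 0) (p (nat_lit 0x80000000070806878a) (nat_lit 0) (p (nat_lit 0x80000000068786050a) (nat_lit 0) (p (nat_lit 0x8507058682) (nat_lit 0) (p (nat_lit 0x8486850402)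 (nat_lit 0) (p (nat_lit 0x160014) (nat_lit 0) (p (nat_lit 0x160004) (nat_lit 0) (p (nat_lit 0x50612) (nat_lit 0) (p (nat_lit 0x38592) (nat_lit 0) (p (nat_lit 0x40492) (nat_lit 0) (p (nat_lit 0x28412) (nat_lit 0) (p (nat_lit 0x30292) (nat_lit 0) (p (nat_lit 0x18212) (nat_lit 0) (p (nat_lit 0x20092) (nat_lit 0) (p (nat_lit 0x8012) (nat_lit 0) pn)))))))))))))))))))))))) :=
  Cl.node (nat_lit 0xb0004) (nat_lit 2) (by decide +kernel) (ClAll.succ (ClAll.succ ClAll.zero n28) s53)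

def n40 : Cl (O (nat_lit 2)) (R (nat_lit 104577))
    (p (nat_lit 0x20000c) (nat_lit 1) (p (nat_lit 0xd1) (nat_lit 1) (p (nat_lit 0x109) (nat_lit 1) (p (nat_lit 0x101) (nat_lit 0) (p (nat_lit 0x119) (nat_lit 0) (p (nat_lit 0xc9) (nat_lit 0) (p (nat_lit 0x89) (nat_lit 1) (p (nat_lit 0x41) (nat_lit 0) (p (nat_lit 0x88070907889a) (nat_lit 0) (p (nat_lit 0x87868887061a) (nat_lit 0) (p (nat_lit 0x80000000070806878a) (nat_lit 0) (p (nat_lit 0x80000000068786050a) (nat_lit 0) (p (nat_lit 0x8507058682) (nat_lit 0) (p (nat_lit 0x8486850402) (nat_lit 0) (p (nat_lit 0x160014) (nat_lit 0) (p (nat_lit 0x160004) (nat_lit 0) (p (nat_lit 0x50612) (nat_lit 0) (p (nat_lit 0x38592) (nat_lit 0) (p (nat_lit 0x40492) (nat_lit 0) (p (nat_lit 0x28412) (nat_lit 0) (p (nat_lit 0x30292) (nat_lit 0) (p (nat_lit 0x18212) (nat_lit 0) (p (nat_lit 0x20092) (nat_lit 0) (p (nat_lit 0x8012) (nat_lit 0) pn))))))))))))))))))))))))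 :=
  Cl.node (nat_lit 0xb0004) (nat_lit 2) (by decide +kernel) (ClAll.succ (ClAll.succ ClAll.zero n29) s60)

def n41 : Cl (O (nat_lit 2)) (R (nat_lit 104577))
    (p (nat_lit 0x20000c) (nat_lit 1) (p (nat_lit 0xd1) (nat_lit 0) (p (nat_lit 0xc1) (nat_lit 0) (p (nat_lit 0x101) (nat_lit 1) (p (nat_lit 0x119) (nat_lit 0) (p (nat_lit 0xc9) (nat_lit 0) (p (nat_lit 0x89) (nat_lit 1) (p (nat_lit 0x41) (nat_lit 0) (p (nat_lit 0x88070907889a) (nat_lit 0) (p (nat_lit 0x87868887061a) (nat_lit 0) (p (nat_lit 0x80000000070806878a) (nat_lit 0) (p (nat_lit 0x80000000068786050a) (nat_lit 0) (p (nat_lit 0x8507058682) (nat_lit 0) (p (nat_lit 0x8486850402) (nat_lit 0) (p (nat_lit 0x160014) (nat_lit 0) (p (nat_lit 0x160004) (nat_lit 0) (p (nat_lit 0x50612) (nat_lit 0) (p (nat_lit 0x38592) (nat_lit 0) (p (nat_lit 0x40492) (nat_lit 0) (p (nat_lit 0x28412) (nat_lit 0) (p (nat_lit 0x30292) (nat_lit 0) (p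 (nat_lit 0x18212) (nat_lit 0) (p (nat_lit 0x20092) (nat_lit 0) (p (nat_lit 0x8012) (nat_lit 0) pn)))))))))))))))))))))))) :=
  Cl.node (nat_lit 0xb0004) (nat_lit 2) (by decide +kernel) (ClAll.succ (ClAll.succ ClAll.zero n30) s66)

def n42 : Cl (O (nat_lit 2)) (R (nat_lit 104577))
    (p (nat_lit 0x20000c) (nat_lit 1) (p (nat_lit 0xd1) (nat_lit 1) (p (nat_lit 0xc1) (nat_lit 0) (p (nat_lit 0x101) (nat_lit 1) (p (nat_lit 0x119) (nat_lit 0) (p (nat_lit 0xc9) (nat_lit 0) (p (nat_lit 0x89) (nat_lit 1) (p (nat_lit 0x41) (nat_lit 0) (p (nat_lit 0x88070907889a) (nat_lit 0) (p (nat_lit 0x87868887061a) (nat_lit 0) (p (nat_lit 0x80000000070806878a) (nat_lit 0) (p (nat_lit 0x80000000068786050a) (nat_lit 0) (p (nat_lit 0x8507058682) (nat_lit 0) (p (nat_lit 0x8486850402) (nat_lit 0) (p (nat_lit 0x160014) (nat_lit 0) (p (nat_lit 0x160004) (nat_lit 0) (p (nat_lit 0x50612) (nat_lit 0) (p (nat_lit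 0x38592) (nat_lit 0) (p (nat_lit 0x40492) (nat_lit 0) (p (nat_lit 0x28412) (nat_lit 0) (p (nat_lit 0x30292) (nat_lit 0) (p (nat_lit 0x18212) (nat_lit 0) (p (nat_lit 0x20092) (nat_lit 0) (p (nat_lit 0x8012) (nat_lit 0) pn)))))))))))))))))))))))) :=
  Cl.node (nat_lit 0xb0004) (nat_lit 2) (by decide +kernel) (ClAll.succ (ClAll.succ ClAll.zero n31) s75)

def n43 : Cl (O (nat_lit 2)) (R (nat_lit 104577))
    (p (nat_lit 0x20000c) (nat_lit 1) (p (nat_lit 0x111) (nat_lit 1) (p (nat_lit 0xd1) (nat_lit 1) (p (nat_lit 0xc1) (nat_lit 0) (p (nat_lit 0x119) (nat_lit 1) (p (nat_lit 0xc9) (nat_lit 0) (p (nat_lit 0x89) (nat_lit 1) (p (nat_lit 0x41) (nat_lit 0) (p (nat_lit 0x88070907889a) (nat_lit 0) (p (nat_lit 0x87868887061a) (nat_lit 0) (p (nat_lit 0x80000000070806878a) (nat_lit 0) (p (nat_lit 0x80000000068786050a) (nat_lit 0) (p (nat_lit 0x8507058682) (nat_lit 0) (p (nat_lit 0x8486850402) (nat_lit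 0) (p (nat_lit 0x160014) (nat_lit 0) (p (nat_lit 0x160004) (nat_lit 0) (p (nat_lit 0x50612) (nat_lit 0) (p (nat_lit 0x38592) (nat_lit 0) (p (nat_lit 0x40492) (nat_lit 0) (p (nat_lit 0x28412) (nat_lit 0) (p (nat_lit 0x30292) (nat_lit 0) (p (nat_lit 0x18212) (nat_lit 0) (p (nat_lit 0x20092) (nat_lit 0) (p (nat_lit 0x8012) (nat_lit 0) pn)))))))))))))))))))))))) :=
  Cl.node (nat_lit 0xb0004) (nat_lit 2) (by decide +kernel) (ClAll.succ (ClAll.succ ClAll.zero n32) s83)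

def n44 : Cl (O (nat_lit 2)) (R (nat_lit 104577))
    (p (nat_lit 0x20000c) (nat_lit 1) (p (nat_lit 0x111) (nat_lit 1) (p (nat_lit 0x101) (nat_lit 0) (p (nat_lit 0xc1) (nat_lit 1) (p (nat_lit 0x119) (nat_lit 1) (p (nat_lit 0xc9) (nat_lit 0) (p (nat_lit 0x89) (nat_lit 1) (p (nat_lit 0x41) (nat_lit 0) (p (nat_lit 0x88070907889a) (nat_lit 0) (p (nat_lit 0x87868887061a) (nat_lit 0) (p (nat_lit 0x80000000070806878a) (nat_lit 0) (p (nat_lit 0x80000000068786050a) (nat_lit 0) (p (nat_lit 0x8507058682) (nat_lit 0) (p (nat_lit 0x8486850402) (nat_lit 0) (p (nat_lit 0x160014) (nat_lit 0) (p (nat_lit 0x160004) (nat_lit 0) (p (nat_lit 0x50612) (nat_lit 0) (p (nat_lit 0x38592) (nat_lit 0) (p (nat_lit 0x40492) (nat_lit 0) (p (nat_lit 0x28412) (nat_lit 0) (p (nat_lit 0x30292) (nat_lit 0) (p (nat_lit 0x18212) (nat_lit 0) (p (nat_lit 0x20092) (nat_lit 0) (p (nat_lit 0x8012) (nat_lit 0) pn))))))))))))))))))))))))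 :=
  Cl.node (nat_lit 0xb0004) (nat_lit 2) (by decide +kernel) (ClAll.succ (ClAll.succ ClAll.zero n33) s92)

def n45 : Cl (O (nat_lit 2)) (R (nat_lit 104577))
    (p (nat_lit 0xc9) (nat_lit 0) (p (nat_lit 0x89) (nat_lit 1) (p (nat_lit 0x109) (nat_lit 1) (p (nat_lit 0x101) (nat_lit 0) (p (nat_lit 0x111) (nat_lit 0) (p (nat_lit 0xd1) (nat_lit 1) (p (nat_lit 0x81) (nat_lit 0) (p (nat_lit 0x41) (nat_lit 1) (p (nat_lit 0x88070907889a) (nat_lit 0) (p (nat_lit 0x87868887061a) (nat_lit 0) (p (nat_lit 0x80000000070806878a) (nat_lit 0) (p (nat_lit 0x80000000068786050a) (nat_lit 0) (p (nat_lit 0x8507058682) (nat_lit 0) (p (nat_lit 0x8486850402) (nat_lit 0) (p (nat_lit 0x160014) (nat_lit 0) (p (nat_lit 0x160004) (nat_lit 0) (p (nat_lit 0x50612) (nat_lit 0) (p (nat_lit 0x38592) (nat_lit 0) (p (nat_lit 0x40492) (nat_lit 0) (p (nat_lit 0x28412) (nat_lit 0) (p (nat_lit 0x30292) (nat_lit 0) (p (nat_lit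 0x18212) (nat_lit 0) (p (nat_lit 0x20092) (nat_lit 0) (p (nat_lit 0x8012) (nat_lit 0) pn)))))))))))))))))))))))) :=
  Cl.node (nat_lit 0x20000c) (nat_lit 2) (by decide +kernel) (ClAll.succ (ClAll.succ ClAll.zero s112) s113)

def n46 : Cl (O (nat_lit 2)) (R (nat_lit 104577))
    (p (nat_lit 0xc9) (nat_lit 1) (p (nat_lit 0x109) (nat_lit 1) (p (nat_lit 0x101) (nat_lit 0) (p (nat_lit 0x119) (nat_lit 0) (p (nat_lit 0xd1) (nat_lit 0) (p (nat_lit 0x89) (nat_lit 0) (p (nat_lit 0x41) (nat_lit 0) (p (nat_lit 0x88070907889a) (nat_lit 0) (p (nat_lit 0x87868887061a) (nat_lit 0) (p (nat_lit 0x80000000070806878a) (nat_lit 0) (p (nat_lit 0x80000000068786050a) (nat_lit 0) (p (nat_lit 0x8507058682) (nat_lit 0) (p (nat_lit 0x8486850402) (nat_lit 0) (p (nat_lit 0x160014) (nat_lit 0) (p (nat_lit 0x160004) (nat_lit 0) (p (nat_lit 0x50612) (nat_lit 0) (p (nat_lit 0x38592) (nat_lit 0) (p (nat_lit 0x40492)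 (nat_lit 0) (p (nat_lit 0x28412) (nat_lit 0) (p (nat_lit 0x30292) (nat_lit 0) (p (nat_lit 0x18212) (nat_lit 0) (p (nat_lit 0x20092) (nat_lit 0) (p (nat_lit 0x8012) (nat_lit 0) pn))))))))))))))))))))))) :=
  Cl.node (nat_lit 0x20000c) (nat_lit 2) (by decide +kernel) (ClAll.succ (ClAll.succ ClAll.zero s2) n34)

def n47 : Cl (O (nat_lit 2)) (R (nat_lit 104577))
    (p (nat_lit 0xc9) (nat_lit 1) (p (nat_lit 0x81) (nat_lit 0) (p (nat_lit 0x101) (nat_lit 1) (p (nat_lit 0x119) (nat_lit 0) (p (nat_lit 0xd1) (nat_lit 0) (p (nat_lit 0x89) (nat_lit 0) (p (nat_lit 0x41) (nat_lit 0) (p (nat_lit 0x88070907889a) (nat_lit 0) (p (nat_lit 0x87868887061a) (nat_lit 0) (p (nat_lit 0x80000000070806878a) (nat_lit 0) (p (nat_lit 0x80000000068786050a) (nat_lit 0) (p (nat_lit 0x8507058682) (nat_lit 0) (p (nat_lit 0x8486850402) (nat_lit 0) (p (nat_lit 0x160014) (nat_lit 0) (p (nat_lit 0x160004) (nat_lit 0)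 (p (nat_lit 0x50612) (nat_lit 0) (p (nat_lit 0x38592) (nat_lit 0) (p (nat_lit 0x40492) (nat_lit 0) (p (nat_lit 0x28412) (nat_lit 0) (p (nat_lit 0x30292) (nat_lit 0) (p (nat_lit 0x18212) (nat_lit 0) (p (nat_lit 0x20092) (nat_lit 0) (p (nat_lit 0x8012) (nat_lit 0) pn))))))))))))))))))))))) :=
  Cl.node (nat_lit 0x20000c) (nat_lit 2) (by decide +kernel) (ClAll.succ (ClAll.succ ClAll.zero s8) s9)

def n48 : Cl (O (nat_lit 2)) (R (nat_lit 104577))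
    (p (nat_lit 0xc1) (nat_lit 0) (p (nat_lit 0x81) (nat_lit 1) (p (nat_lit 0x101) (nat_lit 1) (p (nat_lit 0x119) (nat_lit 0) (p (nat_lit 0xd1) (nat_lit 0) (p (nat_lit 0x89) (nat_lit 0) (p (nat_lit 0x41) (nat_lit 0) (p (nat_lit 0x88070907889a) (nat_lit 0) (p (nat_lit 0x87868887061a) (nat_lit 0) (p (nat_lit 0x80000000070806878a) (nat_lit 0) (p (nat_lit 0x80000000068786050a) (nat_lit 0) (p (nat_lit 0x8507058682) (nat_lit 0) (p (nat_lit 0x8486850402) (nat_lit 0) (p (nat_lit 0x160014) (nat_lit 0) (p (nat_lit 0x160004) (nat_lit 0) (p (nat_lit 0x50612) (nat_lit 0) (p (nat_lit 0x38592) (nat_lit 0) (p (nat_lit 0x40492) (nat_lit 0) (p (nat_lit 0x28412) (nat_lit 0) (p (nat_lit 0x30292) (nat_lit 0) (p (nat_lit 0x18212) (nat_lit 0) (p (nat_lit 0x20092) (nat_lit 0) (p (nat_lit 0x8012) (nat_lit 0) pn))))))))))))))))))))))) :=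
  Cl.node (nat_lit 0xc9) (nat_lit 2) (by decide +kernel) (ClAll.succ (ClAll.succ ClAll.zero s10) n35)

def n49 : Cl (O (nat_lit 2)) (R (nat_lit 104577))
    (p (nat_lit 0x109) (nat_lit 1) (p (nat_lit 0xc9) (nat_lit 1) (p (nat_lit 0xc1) (nat_lit 0) (p (nat_lit 0x119) (nat_lit 1) (p (nat_lit 0xd1) (nat_lit 0) (p (nat_lit 0x89) (nat_lit 0) (p (nat_lit 0x41) (nat_lit 0) (p (nat_lit 0x88070907889a) (nat_lit 0) (p (nat_lit 0x87868887061a) (nat_lit 0) (p (nat_lit 0x80000000070806878a) (nat_lit 0) (p (nat_lit 0x80000000068786050a) (nat_lit 0) (p (nat_lit 0x8507058682) (nat_lit 0) (p (nat_lit 0x8486850402) (nat_lit 0) (p (nat_lit 0x160014) (nat_lit 0) (p (nat_lit 0x160004) (nat_lit 0) (p (nat_lit 0x50612) (nat_lit 0) (p (nat_lit 0x38592) (nat_lit 0) (p (nat_lit 0x40492) (nat_lit 0) (p (nat_lit 0x28412) (nat_lit 0) (p (nat_lit 0x30292) (nat_lit 0) (p (nat_lit 0x18212) (nat_lit 0) (p (nat_lit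 0x20092) (nat_lit 0) (p (nat_lit 0x8012) (nat_lit 0) pn))))))))))))))))))))))) :=
  Cl.node (nat_lit 0x20000c) (nat_lit 2) (by decide +kernel) (ClAll.succ (ClAll.succ ClAll.zero s19) s20)

def n50 : Cl (O (nat_lit 2)) (R (nat_lit 104577))
    (p (nat_lit 0x101) (nat_lit 0) (p (nat_lit 0x81) (nat_lit 1) (p (nat_lit 0xc1) (nat_lit 1) (p (nat_lit 0x119) (nat_lit 1) (p (nat_lit 0xd1) (nat_lit 0) (p (nat_lit 0x89) (nat_lit 0) (p (nat_lit 0x41) (nat_lit 0) (p (nat_lit 0x88070907889a) (nat_lit 0) (p (nat_lit 0x87868887061a) (nat_lit 0) (p (nat_lit 0x80000000070806878a) (nat_lit 0) (p (nat_lit 0x80000000068786050a) (nat_lit 0) (p (nat_lit 0x8507058682) (nat_lit 0) (p (nat_lit 0x8486850402) (nat_lit 0) (p (nat_lit 0x160014) (nat_lit 0) (p (nat_lit 0x160004) (nat_lit 0) (p (nat_lit 0x50612) (nat_lit 0) (p (nat_lit 0x38592) (nat_lit 0) (p (nat_lit 0x40492) (nat_lit 0) (p (nat_lit 0x28412)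 (nat_lit 0) (p (nat_lit 0x30292) (nat_lit 0) (p (nat_lit 0x18212) (nat_lit 0) (p (nat_lit 0x20092) (nat_lit 0) (p (nat_lit 0x8012) (nat_lit 0) pn))))))))))))))))))))))) :=
  Cl.node (nat_lit 0x109) (nat_lit 2) (by decide +kernel) (ClAll.succ (ClAll.succ ClAll.zero s23) n36)

def n51 : Cl (O (nat_lit 2)) (R (nat_lit 104577))
    (p (nat_lit 0x20000c) (nat_lit 1) (p (nat_lit 0x109) (nat_lit 1) (p (nat_lit 0x101) (nat_lit 0) (p (nat_lit 0x111) (nat_lit 0) (p (nat_lit 0xd1) (nat_lit 1) (p (nat_lit 0x89) (nat_lit 0) (p (nat_lit 0x41) (nat_lit 0) (p (nat_lit 0x88070907889a) (nat_lit 0) (p (nat_lit 0x87868887061a) (nat_lit 0) (p (nat_lit 0x80000000070806878a) (nat_lit 0) (p (nat_lit 0x80000000068786050a) (nat_lit 0) (p (nat_lit 0x8507058682) (nat_lit 0) (p (nat_lit 0x8486850402) (nat_lit 0) (p (nat_lit 0x160014) (nat_lit 0) (p (nat_lit 0x160004) (nat_lit 0) (p (nat_lit 0x50612) (nat_lit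 0) (p (nat_lit 0x38592) (nat_lit 0) (p (nat_lit 0x40492) (nat_lit 0) (p (nat_lit 0x28412) (nat_lit 0) (p (nat_lit 0x30292) (nat_lit 0) (p (nat_lit 0x18212) (nat_lit 0) (p (nat_lit 0x20092) (nat_lit 0) (p (nat_lit 0x8012) (nat_lit 0) pn))))))))))))))))))))))) :=
  Cl.node (nat_lit 0xb0004) (nat_lit 2) (by decide +kernel) (ClAll.succ (ClAll.succ ClAll.zero n37) s36)

def n52 : Cl (O (nat_lit 2)) (R (nat_lit 104577))
    (p (nat_lit 0xc1) (nat_lit 0) (p (nat_lit 0x81) (nat_lit 1) (p (nat_lit 0x101) (nat_lit 1) (p (nat_lit 0x111) (nat_lit 0) (p (nat_lit 0xd1) (nat_lit 1) (p (nat_lit 0x89) (nat_lit 0) (p (nat_lit 0x41) (nat_lit 0) (p (nat_lit 0x88070907889a) (nat_lit 0) (p (nat_lit 0x87868887061a) (nat_lit 0) (p (nat_lit 0x80000000070806878a) (nat_lit 0) (p (nat_lit 0x80000000068786050a) (nat_lit 0) (p (nat_lit 0x8507058682) (nat_lit 0) (p (nat_lit 0x8486850402) (nat_lit 0) (p (nat_lit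 0x160014) (nat_lit 0) (p (nat_lit 0x160004) (nat_lit 0) (p (nat_lit 0x50612) (nat_lit 0) (p (nat_lit 0x38592) (nat_lit 0) (p (nat_lit 0x40492) (nat_lit 0) (p (nat_lit 0x28412) (nat_lit 0) (p (nat_lit 0x30292) (nat_lit 0) (p (nat_lit 0x18212) (nat_lit 0) (p (nat_lit 0x20092) (nat_lit 0) (p (nat_lit 0x8012) (nat_lit 0) pn))))))))))))))))))))))) :=
  Cl.node (nat_lit 0x20000c) (nat_lit 2) (by decide +kernel) (ClAll.succ (ClAll.succ ClAll.zero s39) s40)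

def n53 : Cl (O (nat_lit 2)) (R (nat_lit 104577))
    (p (nat_lit 0x111) (nat_lit 1) (p (nat_lit 0x109) (nat_lit 0) (p (nat_lit 0x101) (nat_lit 0) (p (nat_lit 0x119) (nat_lit 0) (p (nat_lit 0xc9) (nat_lit 0) (p (nat_lit 0x89) (nat_lit 1) (p (nat_lit 0x41) (nat_lit 0) (p (nat_lit 0x88070907889a) (nat_lit 0) (p (nat_lit 0x87868887061a) (nat_lit 0) (p (nat_lit 0x80000000070806878a) (nat_lit 0) (p (nat_lit 0x80000000068786050a) (nat_lit 0) (p (nat_lit 0x8507058682) (nat_lit 0) (p (nat_lit 0x8486850402) (nat_lit 0) (p (nat_lit 0x160014) (nat_lit 0) (p (nat_lit 0x160004) (nat_lit 0) (p (nat_lit 0x50612) (nat_lit 0) (p (nat_lit 0x38592) (nat_lit 0) (p (nat_lit 0x40492) (nat_lit 0) (p (nat_lit 0x28412) (nat_lit 0) (p (nat_lit 0x30292) (nat_lit 0) (p (nat_lit 0x18212) (nat_lit 0) (p (nat_lit 0x20092) (nat_lit 0) (p (nat_lit 0x8012) (nat_lit 0) pn))))))))))))))))))))))) :=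
  Cl.node (nat_lit 0xd1) (nat_lit 2) (by decide +kernel) (ClAll.succ (ClAll.succ ClAll.zero s44) n38)

def n54 : Cl (O (nat_lit 2)) (R (nat_lit 104577))
    (p (nat_lit 0xd1) (nat_lit 0) (p (nat_lit 0x109) (nat_lit 1) (p (nat_lit 0x101) (nat_lit 0) (p (nat_lit 0x119) (nat_lit 0) (p (nat_lit 0xc9) (nat_lit 0) (p (nat_lit 0x89) (nat_lit 1) (p (nat_lit 0x41) (nat_lit 0) (p (nat_lit 0x88070907889a) (nat_lit 0) (p (nat_lit 0x87868887061a) (nat_lit 0) (p (nat_lit 0x80000000070806878a) (nat_lit 0) (p (nat_lit 0x80000000068786050a) (nat_lit 0) (p (nat_lit 0x8507058682) (nat_lit 0) (p (nat_lit 0x8486850402) (nat_lit 0) (p (nat_lit 0x160014) (nat_lit 0) (p (nat_lit 0x160004) (nat_lit 0) (p (nat_lit 0x50612) (nat_lit 0) (p (nat_lit 0x38592) (nat_lit 0) (p (nat_lit 0x40492) (nat_lit 0) (p (nat_lit 0x28412) (nat_lit 0) (p (nat_lit 0x30292) (nat_lit 0) (p (nat_lit 0x18212) (nat_lit 0) (p (nat_lit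 0x20092) (nat_lit 0) (p (nat_lit 0x8012) (nat_lit 0) pn))))))))))))))))))))))) :=
  Cl.node (nat_lit 0x20000c) (nat_lit 2) (by decide +kernel) (ClAll.succ (ClAll.succ ClAll.zero s47) n39)

def n55 : Cl (O (nat_lit 2)) (R (nat_lit 104577))
    (p (nat_lit 0xd1) (nat_lit 1) (p (nat_lit 0x109) (nat_lit 1) (p (nat_lit 0x101) (nat_lit 0) (p (nat_lit 0x119) (nat_lit 0) (p (nat_lit 0xc9) (nat_lit 0) (p (nat_lit 0x89) (nat_lit 1) (p (nat_lit 0x41) (nat_lit 0) (p (nat_lit 0x88070907889a) (nat_lit 0) (p (nat_lit 0x87868887061a) (nat_lit 0) (p (nat_lit 0x80000000070806878a) (nat_lit 0) (p (nat_lit 0x80000000068786050a) (nat_lit 0) (p (nat_lit 0x8507058682) (nat_lit 0) (p (nat_lit 0x8486850402) (nat_lit 0) (p (nat_lit 0x160014) (nat_lit 0) (p (nat_lit 0x160004) (nat_lit 0) (p (nat_lit 0x50612) (nat_lit 0) (p (nat_lit 0x38592) (nat_lit 0) (p (nat_lit 0x40492) (nat_lit 0) (p (nat_lit 0x28412)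 (nat_lit 0) (p (nat_lit 0x30292) (nat_lit 0) (p (nat_lit 0x18212) (nat_lit 0) (p (nat_lit 0x20092) (nat_lit 0) (p (nat_lit 0x8012) (nat_lit 0) pn))))))))))))))))))))))) :=
  Cl.node (nat_lit 0x20000c) (nat_lit 2) (by decide +kernel) (ClAll.succ (ClAll.succ ClAll.zero s54) n40)

def n56 : Cl (O (nat_lit 2)) (R (nat_lit 104577))
    (p (nat_lit 0xd1) (nat_lit 0) (p (nat_lit 0xc1) (nat_lit 0) (p (nat_lit 0x101) (nat_lit 1) (p (nat_lit 0x119) (nat_lit 0) (p (nat_lit 0xc9) (nat_lit 0) (p (nat_lit 0x89) (nat_lit 1) (p (nat_lit 0x41) (nat_lit 0) (p (nat_lit 0x88070907889a) (nat_lit 0) (p (nat_lit 0x87868887061a) (nat_lit 0) (p (nat_lit 0x80000000070806878a) (nat_lit 0) (p (nat_lit 0x80000000068786050a) (nat_lit 0) (p (nat_lit 0x8507058682) (nat_lit 0) (p (nat_lit 0x8486850402) (nat_lit 0) (p (nat_lit 0x160014) (nat_lit 0) (p (nat_lit 0x160004) (nat_lit 0) (p (nat_lit 0x50612) (nat_lit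 0) (p (nat_lit 0x38592) (nat_lit 0) (p (nat_lit 0x40492) (nat_lit 0) (p (nat_lit 0x28412) (nat_lit 0) (p (nat_lit 0x30292) (nat_lit 0) (p (nat_lit 0x18212) (nat_lit 0) (p (nat_lit 0x20092) (nat_lit 0) (p (nat_lit 0x8012) (nat_lit 0) pn))))))))))))))))))))))) :=
  Cl.node (nat_lit 0x20000c) (nat_lit 2) (by decide +kernel) (ClAll.succ (ClAll.succ ClAll.zero s61) n41)

def n57 : Cl (O (nat_lit 2)) (R (nat_lit 104577))
    (p (nat_lit 0xd1) (nat_lit 1) (p (nat_lit 0xc1) (nat_lit 0) (p (nat_lit 0x101) (nat_lit 1) (p (nat_lit 0x119) (nat_lit 0) (p (nat_lit 0xc9) (nat_lit 0) (p (nat_lit 0x89) (nat_lit 1) (p (nat_lit 0x41) (nat_lit 0) (p (nat_lit 0x88070907889a) (nat_lit 0) (p (nat_lit 0x87868887061a) (nat_lit 0) (p (nat_lit 0x80000000070806878a) (nat_lit 0) (p (nat_lit 0x80000000068786050a) (nat_lit 0) (p (nat_lit 0x8507058682) (nat_lit 0) (p (nat_lit 0x8486850402) (nat_lit 0) (p (nat_lit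 0x160014) (nat_lit 0) (p (nat_lit 0x160004) (nat_lit 0) (p (nat_lit 0x50612) (nat_lit 0) (p (nat_lit 0x38592) (nat_lit 0) (p (nat_lit 0x40492) (nat_lit 0) (p (nat_lit 0x28412) (nat_lit 0) (p (nat_lit 0x30292) (nat_lit 0) (p (nat_lit 0x18212) (nat_lit 0) (p (nat_lit 0x20092) (nat_lit 0) (p (nat_lit 0x8012) (nat_lit 0) pn))))))))))))))))))))))) :=
  Cl.node (nat_lit 0x20000c) (nat_lit 2) (by decide +kernel) (ClAll.succ (ClAll.succ ClAll.zero s67) n42)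

def n58 : Cl (O (nat_lit 2)) (R (nat_lit 104577))
    (p (nat_lit 0x111) (nat_lit 1) (p (nat_lit 0xd1) (nat_lit 1) (p (nat_lit 0xc1) (nat_lit 0) (p (nat_lit 0x119) (nat_lit 1) (p (nat_lit 0xc9) (nat_lit 0) (p (nat_lit 0x89) (nat_lit 1) (p (nat_lit 0x41) (nat_lit 0) (p (nat_lit 0x88070907889a) (nat_lit 0) (p (nat_lit 0x87868887061a) (nat_lit 0) (p (nat_lit 0x80000000070806878a) (nat_lit 0) (p (nat_lit 0x80000000068786050a) (nat_lit 0) (p (nat_lit 0x8507058682) (nat_lit 0) (p (nat_lit 0x8486850402) (nat_lit 0) (p (nat_lit 0x160014) (nat_lit 0) (p (nat_lit 0x160004) (nat_lit 0) (p (nat_lit 0x50612) (nat_lit 0) (p (nat_lit 0x38592) (nat_lit 0) (p (nat_lit 0x40492) (nat_lit 0) (p (nat_lit 0x28412) (nat_lit 0) (p (nat_lit 0x30292) (nat_lit 0) (p (nat_lit 0x18212) (nat_lit 0) (p (nat_lit 0x20092) (nat_lit 0) (p (nat_lit 0x8012) (nat_lit 0) pn))))))))))))))))))))))) :=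
  Cl.node (nat_lit 0x20000c) (nat_lit 2) (by decide +kernel) (ClAll.succ (ClAll.succ ClAll.zero s79) n43)

def n59 : Cl (O (nat_lit 2)) (R (nat_lit 104577))
    (p (nat_lit 0x111) (nat_lit 1) (p (nat_lit 0x101) (nat_lit 0) (p (nat_lit 0xc1) (nat_lit 1) (p (nat_lit 0x119) (nat_lit 1) (p (nat_lit 0xc9) (nat_lit 0) (p (nat_lit 0x89) (nat_lit 1) (p (nat_lit 0x41) (nat_lit 0) (p (nat_lit 0x88070907889a) (nat_lit 0) (p (nat_lit 0x87868887061a) (nat_lit 0) (p (nat_lit 0x80000000070806878a) (nat_lit 0) (p (nat_lit 0x80000000068786050a) (nat_lit 0) (p (nat_lit 0x8507058682) (nat_lit 0) (p (nat_lit 0x8486850402) (nat_lit 0) (p (nat_lit 0x160014) (nat_lit 0) (p (nat_lit 0x160004) (nat_lit 0) (p (nat_lit 0x50612) (nat_lit 0) (p (nat_lit 0x38592) (nat_lit 0) (p (nat_lit 0x40492) (nat_lit 0) (p (nat_lit 0x28412) (nat_lit 0) (p (nat_lit 0x30292) (nat_lit 0) (p (nat_lit 0x18212) (nat_lit 0) (p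 (nat_lit 0x20092) (nat_lit 0) (p (nat_lit 0x8012) (nat_lit 0) pn))))))))))))))))))))))) :=
  Cl.node (nat_lit 0x20000c) (nat_lit 2) (by decide +kernel) (ClAll.succ (ClAll.succ ClAll.zero s85) n44)

def n60 : Cl (O (nat_lit 2)) (R (nat_lit 104577))
    (p (nat_lit 0x89) (nat_lit 0) (p (nat_lit 0x109) (nat_lit 1) (p (nat_lit 0x101) (nat_lit 0) (p (nat_lit 0x119) (nat_lit 0) (p (nat_lit 0xd1) (nat_lit 0) (p (nat_lit 0x81) (nat_lit 0) (p (nat_lit 0x41) (nat_lit 1) (p (nat_lit 0x88070907889a) (nat_lit 0) (p (nat_lit 0x87868887061a) (nat_lit 0) (p (nat_lit 0x80000000070806878a) (nat_lit 0) (p (nat_lit 0x80000000068786050a) (nat_lit 0) (p (nat_lit 0x8507058682) (nat_lit 0) (p (nat_lit 0x8486850402) (nat_lit 0) (p (nat_lit 0x160014) (nat_lit 0) (p (nat_lit 0x160004) (nat_lit 0) (p (nat_lit 0x50612) (nat_lit 0) (p (nat_lit 0x38592) (nat_lit 0) (p (nat_lit 0x40492) (nat_lit 0) (p (nat_lit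 0x28412) (nat_lit 0) (p (nat_lit 0x30292) (nat_lit 0) (p (nat_lit 0x18212) (nat_lit 0) (p (nat_lit 0x20092) (nat_lit 0) (p (nat_lit 0x8012) (nat_lit 0) pn))))))))))))))))))))))) :=
  Cl.node (nat_lit 0x20000c) (nat_lit 2) (by decide +kernel) (ClAll.succ (ClAll.succ ClAll.zero s99) s100)

def n61 : Cl (O (nat_lit 2)) (R (nat_lit 104577))
    (p (nat_lit 0x89) (nat_lit 1) (p (nat_lit 0xc1) (nat_lit 0) (p (nat_lit 0x101) (nat_lit 1) (p (nat_lit 0x119) (nat_lit 0) (p (nat_lit 0xd1) (nat_lit 0) (p (nat_lit 0x81) (nat_lit 0) (p (nat_lit 0x41) (nat_lit 1) (p (nat_lit 0x88070907889a) (nat_lit 0) (p (nat_lit 0x87868887061a) (nat_lit 0) (p (nat_lit 0x80000000070806878a) (nat_lit 0) (p (nat_lit 0x80000000068786050a) (nat_lit 0) (p (nat_lit 0x8507058682) (nat_lit 0) (p (nat_lit 0x8486850402) (nat_lit 0) (p (nat_lit 0x160014) (nat_lit 0) (p (nat_lit 0x160004) (nat_lit 0) (p (nat_lit 0x50612)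 (nat_lit 0) (p (nat_lit 0x38592) (nat_lit 0) (p (nat_lit 0x40492) (nat_lit 0) (p (nat_lit 0x28412) (nat_lit 0) (p (nat_lit 0x30292) (nat_lit 0) (p (nat_lit 0x18212) (nat_lit 0) (p (nat_lit 0x20092) (nat_lit 0) (p (nat_lit 0x8012) (nat_lit 0) pn))))))))))))))))))))))) :=
  Cl.node (nat_lit 0xc9) (nat_lit 2) (by decide +kernel) (ClAll.succ (ClAll.succ ClAll.zero s103) s104)

def n62 : Cl (O (nat_lit 2)) (R (nat_lit 104577))
    (p (nat_lit 0x89) (nat_lit 1) (p (nat_lit 0x109) (nat_lit 1) (p (nat_lit 0x101) (nat_lit 0) (p (nat_lit 0x111) (nat_lit 0) (p (nat_lit 0xd1) (nat_lit 1) (p (nat_lit 0x81) (nat_lit 0) (p (nat_lit 0x41) (nat_lit 1) (p (nat_lit 0x88070907889a) (nat_lit 0) (p (nat_lit 0x87868887061a) (nat_lit 0) (p (nat_lit 0x80000000070806878a) (nat_lit 0) (p (nat_lit 0x80000000068786050a) (nat_lit 0) (p (nat_lit 0x8507058682) (nat_lit 0) (p (nat_lit 0x8486850402) (nat_lit 0)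 (p (nat_lit 0x160014) (nat_lit 0) (p (nat_lit 0x160004) (nat_lit 0) (p (nat_lit 0x50612) (nat_lit 0) (p (nat_lit 0x38592) (nat_lit 0) (p (nat_lit 0x40492) (nat_lit 0) (p (nat_lit 0x28412) (nat_lit 0) (p (nat_lit 0x30292) (nat_lit 0) (p (nat_lit 0x18212) (nat_lit 0) (p (nat_lit 0x20092) (nat_lit 0) (p (nat_lit 0x8012) (nat_lit 0) pn))))))))))))))))))))))) :=
  Cl.node (nat_lit 0xc9) (nat_lit 2) (by decide +kernel) (ClAll.succ (ClAll.succ ClAll.zero n45) s114)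

def n63 : Cl (O (nat_lit 2)) (R (nat_lit 104577))
    (p (nat_lit 0x109) (nat_lit 1) (p (nat_lit 0x101) (nat_lit 0) (p (nat_lit 0x119) (nat_lit 0) (p (nat_lit 0xd1) (nat_lit 0) (p (nat_lit 0x89) (nat_lit 0) (p (nat_lit 0x41) (nat_lit 0) (p (nat_lit 0x88070907889a) (nat_lit 0) (p (nat_lit 0x87868887061a) (nat_lit 0) (p (nat_lit 0x80000000070806878a) (nat_lit 0) (p (nat_lit 0x80000000068786050a) (nat_lit 0) (p (nat_lit 0x8507058682) (nat_lit 0) (p (nat_lit 0x8486850402) (nat_lit 0) (p (nat_lit 0x160014) (nat_lit 0) (p (nat_lit 0x160004) (nat_lit 0) (p (nat_lit 0x50612) (nat_lit 0) (p (nat_lit 0x38592) (nat_lit 0) (p (nat_lit 0x40492) (nat_lit 0) (p (nat_lit 0x28412) (nat_lit 0) (p (nat_lit 0x30292) (nat_lit 0) (p (nat_lit 0x18212) (nat_lit 0) (p (nat_lit 0x20092) (nat_lit 0) (p (nat_lit 0x8012) (nat_lit 0) pn)))))))))))))))))))))) :=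
  Cl.node (nat_lit 0xc9) (nat_lit 2) (by decide +kernel) (ClAll.succ (ClAll.succ ClAll.zero s1) n46)

def n64 : Cl (O (nat_lit 2)) (R (nat_lit 104577))
    (p (nat_lit 0x81) (nat_lit 0) (p (nat_lit 0x101) (nat_lit 1) (p (nat_lit 0x119) (nat_lit 0) (p (nat_lit 0xd1) (nat_lit 0) (p (nat_lit 0x89) (nat_lit 0) (p (nat_lit 0x41) (nat_lit 0) (p (nat_lit 0x88070907889a) (nat_lit 0) (p (nat_lit 0x87868887061a) (nat_lit 0) (p (nat_lit 0x80000000070806878a) (nat_lit 0) (p (nat_lit 0x80000000068786050a) (nat_lit 0) (p (nat_lit 0x8507058682) (nat_lit 0) (p (nat_lit 0x8486850402) (nat_lit 0) (p (nat_lit 0x160014) (nat_lit 0) (p (nat_lit 0x160004) (nat_lit 0) (p (nat_lit 0x50612) (nat_lit 0) (p (nat_lit 0x38592) (nat_lit 0) (p (nat_lit 0x40492) (nat_lit 0) (p (nat_lit 0x28412) (nat_lit 0) (p (nat_lit 0x30292) (nat_lit 0) (p (nat_lit 0x18212) (nat_lit 0) (p (nat_lit 0x20092) (nat_lit 0) (p (nat_lit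 0x8012) (nat_lit 0) pn)))))))))))))))))))))) :=
  Cl.node (nat_lit 0xc9) (nat_lit 2) (by decide +kernel) (ClAll.succ (ClAll.succ ClAll.zero s7) n47)

def n65 : Cl (O (nat_lit 2)) (R (nat_lit 104577))
    (p (nat_lit 0x81) (nat_lit 1) (p (nat_lit 0x101) (nat_lit 1) (p (nat_lit 0x119) (nat_lit 0) (p (nat_lit 0xd1) (nat_lit 0) (p (nat_lit 0x89) (nat_lit 0) (p (nat_lit 0x41) (nat_lit 0) (p (nat_lit 0x88070907889a) (nat_lit 0) (p (nat_lit 0x87868887061a) (nat_lit 0) (p (nat_lit 0x80000000070806878a) (nat_lit 0) (p (nat_lit 0x80000000068786050a) (nat_lit 0) (p (nat_lit 0x8507058682) (nat_lit 0) (p (nat_lit 0x8486850402) (nat_lit 0) (p (nat_lit 0x160014) (nat_lit 0) (p (nat_lit 0x160004) (nat_lit 0) (p (nat_lit 0x50612) (nat_lit 0) (p (nat_lit 0x38592) (nat_lit 0) (p (nat_lit 0x40492) (nat_lit 0) (p (nat_lit 0x28412) (nat_lit 0) (p (nat_lit 0x30292) (nat_lit 0) (p (nat_lit 0x18212) (nat_lit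 0) (p (nat_lit 0x20092) (nat_lit 0) (p (nat_lit 0x8012) (nat_lit 0) pn)))))))))))))))))))))) :=
  Cl.node (nat_lit 0xc1) (nat_lit 2) (by decide +kernel) (ClAll.succ (ClAll.succ ClAll.zero n48) s16)

def n66 : Cl (O (nat_lit 2)) (R (nat_lit 104577))
    (p (nat_lit 0xc9) (nat_lit 1) (p (nat_lit 0xc1) (nat_lit 0) (p (nat_lit 0x119) (nat_lit 1) (p (nat_lit 0xd1) (nat_lit 0) (p (nat_lit 0x89) (nat_lit 0) (p (nat_lit 0x41) (nat_lit 0) (p (nat_lit 0x88070907889a) (nat_lit 0) (p (nat_lit 0x87868887061a) (nat_lit 0) (p (nat_lit 0x80000000070806878a) (nat_lit 0) (p (nat_lit 0x80000000068786050a) (nat_lit 0) (p (nat_lit 0x8507058682) (nat_lit 0) (p (nat_lit 0x8486850402) (nat_lit 0) (p (nat_lit 0x160014) (nat_lit 0) (p (nat_lit 0x160004) (nat_lit 0) (p (nat_lit 0x50612) (nat_lit 0) (p (nat_lit 0x38592) (nat_lit 0) (p (nat_lit 0x40492) (nat_lit 0) (p (nat_lit 0x28412) (nat_lit 0) (p (nat_lit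 0x30292) (nat_lit 0) (p (nat_lit 0x18212) (nat_lit 0) (p (nat_lit 0x20092) (nat_lit 0) (p (nat_lit 0x8012) (nat_lit 0) pn)))))))))))))))))))))) :=
  Cl.node (nat_lit 0x109) (nat_lit 2) (by decide +kernel) (ClAll.succ (ClAll.succ ClAll.zero s18) n49)

def n67 : Cl (O (nat_lit 2)) (R (nat_lit 104577))
    (p (nat_lit 0x81) (nat_lit 0) (p (nat_lit 0xc1) (nat_lit 1) (p (nat_lit 0x119) (nat_lit 1) (p (nat_lit 0xd1) (nat_lit 0) (p (nat_lit 0x89) (nat_lit 0) (p (nat_lit 0x41) (nat_lit 0) (p (nat_lit 0x88070907889a) (nat_lit 0) (p (nat_lit 0x87868887061a) (nat_lit 0) (p (nat_lit 0x80000000070806878a) (nat_lit 0) (p (nat_lit 0x80000000068786050a) (nat_lit 0) (p (nat_lit 0x8507058682) (nat_lit 0) (p (nat_lit 0x8486850402) (nat_lit 0) (p (nat_lit 0x160014) (nat_lit 0) (p (nat_lit 0x160004) (nat_lit 0) (p (nat_lit 0x50612) (nat_lit 0) (p (nat_lit 0x38592) (nat_lit 0) (p (nat_lit 0x40492) (nat_lit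 0) (p (nat_lit 0x28412) (nat_lit 0) (p (nat_lit 0x30292) (nat_lit 0) (p (nat_lit 0x18212) (nat_lit 0) (p (nat_lit 0x20092) (nat_lit 0) (p (nat_lit 0x8012) (nat_lit 0) pn)))))))))))))))))))))) :=
  Cl.node (nat_lit 0x109) (nat_lit 2) (by decide +kernel) (ClAll.succ (ClAll.succ ClAll.zero s21) s22)

def n68 : Cl (O (nat_lit 2)) (R (nat_lit 104577))
    (p (nat_lit 0x81) (nat_lit 1) (p (nat_lit 0xc1) (nat_lit 1) (p (nat_lit 0x119) (nat_lit 1) (p (nat_lit 0xd1) (nat_lit 0) (p (nat_lit 0x89) (nat_lit 0) (p (nat_lit 0x41) (nat_lit 0) (p (nat_lit 0x88070907889a) (nat_lit 0) (p (nat_lit 0x87868887061a) (nat_lit 0) (p (nat_lit 0x80000000070806878a) (nat_lit 0) (p (nat_lit 0x80000000068786050a) (nat_lit 0) (p (nat_lit 0x8507058682) (nat_lit 0) (p (nat_lit 0x8486850402) (nat_lit 0) (p (nat_lit 0x160014) (nat_lit 0) (p (nat_lit 0x160004) (nat_lit 0) (p (nat_lit 0x50612) (nat_lit 0) (p (nat_lit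 0x38592) (nat_lit 0) (p (nat_lit 0x40492) (nat_lit 0) (p (nat_lit 0x28412) (nat_lit 0) (p (nat_lit 0x30292) (nat_lit 0) (p (nat_lit 0x18212) (nat_lit 0) (p (nat_lit 0x20092) (nat_lit 0) (p (nat_lit 0x8012) (nat_lit 0) pn)))))))))))))))))))))) :=
  Cl.node (nat_lit 0x101) (nat_lit 2) (by decide +kernel) (ClAll.succ (ClAll.succ ClAll.zero n50) s29)

def n69 : Cl (O (nat_lit 2)) (R (nat_lit 104577))
    (p (nat_lit 0x109) (nat_lit 1) (p (nat_lit 0x101) (nat_lit 0) (p (nat_lit 0x111) (nat_lit 0) (p (nat_lit 0xd1) (nat_lit 1) (p (nat_lit 0x89) (nat_lit 0) (p (nat_lit 0x41) (nat_lit 0) (p (nat_lit 0x88070907889a) (nat_lit 0) (p (nat_lit 0x87868887061a) (nat_lit 0) (p (nat_lit 0x80000000070806878a) (nat_lit 0) (p (nat_lit 0x80000000068786050a) (nat_lit 0) (p (nat_lit 0x8507058682) (nat_lit 0) (p (nat_lit 0x8486850402) (nat_lit 0) (p (nat_lit 0x160014) (nat_lit 0) (p (nat_lit 0x160004)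 (nat_lit 0) (p (nat_lit 0x50612) (nat_lit 0) (p (nat_lit 0x38592) (nat_lit 0) (p (nat_lit 0x40492) (nat_lit 0) (p (nat_lit 0x28412) (nat_lit 0) (p (nat_lit 0x30292) (nat_lit 0) (p (nat_lit 0x18212) (nat_lit 0) (p (nat_lit 0x20092) (nat_lit 0) (p (nat_lit 0x8012) (nat_lit 0) pn)))))))))))))))))))))) :=
  Cl.node (nat_lit 0x20000c) (nat_lit 2) (by decide +kernel) (ClAll.succ (ClAll.succ ClAll.zero s31) n51)

def n70 : Cl (O (nat_lit 2)) (R (nat_lit 104577))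
    (p (nat_lit 0x81) (nat_lit 0) (p (nat_lit 0x101) (nat_lit 1) (p (nat_lit 0x111) (nat_lit 0) (p (nat_lit 0xd1) (nat_lit 1) (p (nat_lit 0x89) (nat_lit 0) (p (nat_lit 0x41) (nat_lit 0) (p (nat_lit 0x88070907889a) (nat_lit 0) (p (nat_lit 0x87868887061a) (nat_lit 0) (p (nat_lit 0x80000000070806878a) (nat_lit 0) (p (nat_lit 0x80000000068786050a) (nat_lit 0) (p (nat_lit 0x8507058682) (nat_lit 0) (p (nat_lit 0x8486850402) (nat_lit 0) (p (nat_lit 0x160014) (nat_lit 0) (p (nat_lit 0x160004) (nat_lit 0) (p (nat_lit 0x50612) (nat_lit 0) (p (nat_lit 0x38592) (nat_lit 0) (p (nat_lit 0x40492) (nat_lit 0) (p (nat_lit 0x28412) (nat_lit 0) (p (nat_lit 0x30292) (nat_lit 0) (p (nat_lit 0x18212) (nat_lit 0) (p (nat_lit 0x20092) (nat_lit 0) (p (nat_lit 0x8012) (nat_lit 0) pn)))))))))))))))))))))) :=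
  Cl.node (nat_lit 0x20000c) (nat_lit 2) (by decide +kernel) (ClAll.succ (ClAll.succ ClAll.zero s37) s38)

def n71 : Cl (O (nat_lit 2)) (R (nat_lit 104577))
    (p (nat_lit 0x81) (nat_lit 1) (p (nat_lit 0x101) (nat_lit 1) (p (nat_lit 0x111) (nat_lit 0) (p (nat_lit 0xd1) (nat_lit 1) (p (nat_lit 0x89) (nat_lit 0) (p (nat_lit 0x41) (nat_lit 0) (p (nat_lit 0x88070907889a) (nat_lit 0) (p (nat_lit 0x87868887061a) (nat_lit 0) (p (nat_lit 0x80000000070806878a) (nat_lit 0) (p (nat_lit 0x80000000068786050a) (nat_lit 0) (p (nat_lit 0x8507058682) (nat_lit 0) (p (nat_lit 0x8486850402) (nat_lit 0) (p (nat_lit 0x160014) (nat_lit 0) (p (nat_lit 0x160004) (nat_lit 0) (p (nat_lit 0x50612) (nat_lit 0) (p (nat_lit 0x38592) (nat_lit 0) (p (nat_lit 0x40492) (nat_lit 0) (p (nat_lit 0x28412) (nat_lit 0) (p (nat_lit 0x30292) (nat_lit 0) (p (nat_lit 0x18212) (nat_lit 0) (p (nat_lit 0x20092) (nat_lit 0) (p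 (nat_lit 0x8012) (nat_lit 0) pn)))))))))))))))))))))) :=
  Cl.node (nat_lit 0xc1) (nat_lit 2) (by decide +kernel) (ClAll.succ (ClAll.succ ClAll.zero n52) s41)

def n72 : Cl (O (nat_lit 2)) (R (nat_lit 104577))
    (p (nat_lit 0x109) (nat_lit 0) (p (nat_lit 0x101) (nat_lit 0) (p (nat_lit 0x119) (nat_lit 0) (p (nat_lit 0xc9) (nat_lit 0) (p (nat_lit 0x89) (nat_lit 1) (p (nat_lit 0x41) (nat_lit 0) (p (nat_lit 0x88070907889a) (nat_lit 0) (p (nat_lit 0x87868887061a) (nat_lit 0) (p (nat_lit 0x80000000070806878a) (nat_lit 0) (p (nat_lit 0x80000000068786050a) (nat_lit 0) (p (nat_lit 0x8507058682) (nat_lit 0) (p (nat_lit 0x8486850402) (nat_lit 0) (p (nat_lit 0x160014) (nat_lit 0) (p (nat_lit 0x160004) (nat_lit 0) (p (nat_lit 0x50612) (nat_lit 0) (p (nat_lit 0x38592) (nat_lit 0) (p (nat_lit 0x40492) (nat_lit 0) (p (nat_lit 0x28412) (nat_lit 0) (p (nat_lit 0x30292) (nat_lit 0) (p (nat_lit 0x18212)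 (nat_lit 0) (p (nat_lit 0x20092) (nat_lit 0) (p (nat_lit 0x8012) (nat_lit 0) pn)))))))))))))))))))))) :=
  Cl.node (nat_lit 0x111) (nat_lit 2) (by decide +kernel) (ClAll.succ (ClAll.succ ClAll.zero s43) n53)

def n73 : Cl (O (nat_lit 2)) (R (nat_lit 104577))
    (p (nat_lit 0x109) (nat_lit 1) (p (nat_lit 0x101) (nat_lit 0) (p (nat_lit 0x119) (nat_lit 0) (p (nat_lit 0xc9) (nat_lit 0) (p (nat_lit 0x89) (nat_lit 1) (p (nat_lit 0x41) (nat_lit 0) (p (nat_lit 0x88070907889a) (nat_lit 0) (p (nat_lit 0x87868887061a) (nat_lit 0) (p (nat_lit 0x80000000070806878a) (nat_lit 0) (p (nat_lit 0x80000000068786050a) (nat_lit 0) (p (nat_lit 0x8507058682) (nat_lit 0) (p (nat_lit 0x8486850402) (nat_lit 0) (p (nat_lit 0x160014) (nat_lit 0) (p (nat_lit 0x160004) (nat_lit 0) (p (nat_lit 0x50612) (nat_lit 0) (p (nat_lit 0x38592) (nat_lit 0) (p (nat_lit 0x40492) (nat_lit 0) (p (nat_lit 0x28412) (nat_lit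 0) (p (nat_lit 0x30292) (nat_lit 0) (p (nat_lit 0x18212) (nat_lit 0) (p (nat_lit 0x20092) (nat_lit 0) (p (nat_lit 0x8012) (nat_lit 0) pn)))))))))))))))))))))) :=
  Cl.node (nat_lit 0xd1) (nat_lit 2) (by decide +kernel) (ClAll.succ (ClAll.succ ClAll.zero n54) n55)

def n74 : Cl (O (nat_lit 2)) (R (nat_lit 104577))
    (p (nat_lit 0xc1) (nat_lit 0) (p (nat_lit 0x101) (nat_lit 1) (p (nat_lit 0x119) (nat_lit 0) (p (nat_lit 0xc9) (nat_lit 0) (p (nat_lit 0x89) (nat_lit 1) (p (nat_lit 0x41) (nat_lit 0) (p (nat_lit 0x88070907889a) (nat_lit 0) (p (nat_lit 0x87868887061a) (nat_lit 0) (p (nat_lit 0x80000000070806878a) (nat_lit 0) (p (nat_lit 0x80000000068786050a) (nat_lit 0) (p (nat_lit 0x8507058682) (nat_lit 0) (p (nat_lit 0x8486850402) (nat_lit 0) (p (nat_lit 0x160014) (nat_lit 0) (p (nat_lit 0x160004) (nat_lit 0) (p (nat_lit 0x50612) (nat_lit 0) (p (nat_lit 0x38592) (nat_lit 0) (p (nat_lit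 0x40492) (nat_lit 0) (p (nat_lit 0x28412) (nat_lit 0) (p (nat_lit 0x30292) (nat_lit 0) (p (nat_lit 0x18212) (nat_lit 0) (p (nat_lit 0x20092) (nat_lit 0) (p (nat_lit 0x8012) (nat_lit 0) pn)))))))))))))))))))))) :=
  Cl.node (nat_lit 0xd1) (nat_lit 2) (by decide +kernel) (ClAll.succ (ClAll.succ ClAll.zero n56) n57)

def n75 : Cl (O (nat_lit 2)) (R (nat_lit 104577))
    (p (nat_lit 0xd1) (nat_lit 1) (p (nat_lit 0xc1) (nat_lit 0) (p (nat_lit 0x119) (nat_lit 1) (p (nat_lit 0xc9) (nat_lit 0) (p (nat_lit 0x89) (nat_lit 1) (p (nat_lit 0x41) (nat_lit 0) (p (nat_lit 0x88070907889a) (nat_lit 0) (p (nat_lit 0x87868887061a) (nat_lit 0) (p (nat_lit 0x80000000070806878a) (nat_lit 0) (p (nat_lit 0x80000000068786050a) (nat_lit 0) (p (nat_lit 0x8507058682) (nat_lit 0) (p (nat_lit 0x8486850402) (nat_lit 0) (p (nat_lit 0x160014) (nat_lit 0) (p (nat_lit 0x160004) (nat_lit 0) (p (nat_lit 0x50612) (nat_lit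 0) (p (nat_lit 0x38592) (nat_lit 0) (p (nat_lit 0x40492) (nat_lit 0) (p (nat_lit 0x28412) (nat_lit 0) (p (nat_lit 0x30292) (nat_lit 0) (p (nat_lit 0x18212) (nat_lit 0) (p (nat_lit 0x20092) (nat_lit 0) (p (nat_lit 0x8012) (nat_lit 0) pn)))))))))))))))))))))) :=
  Cl.node (nat_lit 0x111) (nat_lit 2) (by decide +kernel) (ClAll.succ (ClAll.succ ClAll.zero s78) n58)

def n76 : Cl (O (nat_lit 2)) (R (nat_lit 104577))
    (p (nat_lit 0x101) (nat_lit 0) (p (nat_lit 0xc1) (nat_lit 1) (p (nat_lit 0x119) (nat_lit 1) (p (nat_lit 0xc9) (nat_lit 0) (p (nat_lit 0x89) (nat_lit 1) (p (nat_lit 0x41) (nat_lit 0) (p (nat_lit 0x88070907889a) (nat_lit 0) (p (nat_lit 0x87868887061a) (nat_lit 0) (p (nat_lit 0x80000000070806878a) (nat_lit 0) (p (nat_lit 0x80000000068786050a) (nat_lit 0) (p (nat_lit 0x8507058682) (nat_lit 0) (p (nat_lit 0x8486850402) (nat_lit 0) (p (nat_lit 0x160014) (nat_lit 0) (p (nat_lit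 0x160004) (nat_lit 0) (p (nat_lit 0x50612) (nat_lit 0) (p (nat_lit 0x38592) (nat_lit 0) (p (nat_lit 0x40492) (nat_lit 0) (p (nat_lit 0x28412) (nat_lit 0) (p (nat_lit 0x30292) (nat_lit 0) (p (nat_lit 0x18212) (nat_lit 0) (p (nat_lit 0x20092) (nat_lit 0) (p (nat_lit 0x8012) (nat_lit 0) pn)))))))))))))))))))))) :=
  Cl.node (nat_lit 0x111) (nat_lit 2) (by decide +kernel) (ClAll.succ (ClAll.succ ClAll.zero s84) n59)

def n77 : Cl (O (nat_lit 2)) (R (nat_lit 104577))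
    (p (nat_lit 0x109) (nat_lit 1) (p (nat_lit 0x101) (nat_lit 0) (p (nat_lit 0x119) (nat_lit 0) (p (nat_lit 0xd1) (nat_lit 0) (p (nat_lit 0x81) (nat_lit 0) (p (nat_lit 0x41) (nat_lit 1) (p (nat_lit 0x88070907889a) (nat_lit 0) (p (nat_lit 0x87868887061a) (nat_lit 0) (p (nat_lit 0x80000000070806878a) (nat_lit 0) (p (nat_lit 0x80000000068786050a) (nat_lit 0) (p (nat_lit 0x8507058682) (nat_lit 0) (p (nat_lit 0x8486850402) (nat_lit 0) (p (nat_lit 0x160014) (nat_lit 0) (p (nat_lit 0x160004) (nat_lit 0) (p (nat_lit 0x50612) (nat_lit 0) (p (nat_lit 0x38592) (nat_lit 0) (p (nat_lit 0x40492) (nat_lit 0) (p (nat_lit 0x28412) (nat_lit 0) (p (nat_lit 0x30292) (nat_lit 0) (p (nat_lit 0x18212) (nat_lit 0) (p (nat_lit 0x20092) (nat_lit 0) (p (nat_lit 0x8012) (nat_lit 0) pn)))))))))))))))))))))) :=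
  Cl.node (nat_lit 0x89) (nat_lit 2) (by decide +kernel) (ClAll.succ (ClAll.succ ClAll.zero n60) s101)

def n78 : Cl (O (nat_lit 2)) (R (nat_lit 104577))
    (p (nat_lit 0xc1) (nat_lit 0) (p (nat_lit 0x101) (nat_lit 1) (p (nat_lit 0x119) (nat_lit 0) (p (nat_lit 0xd1) (nat_lit 0) (p (nat_lit 0x81) (nat_lit 0) (p (nat_lit 0x41) (nat_lit 1) (p (nat_lit 0x88070907889a) (nat_lit 0) (p (nat_lit 0x87868887061a) (nat_lit 0) (p (nat_lit 0x80000000070806878a) (nat_lit 0) (p (nat_lit 0x80000000068786050a) (nat_lit 0) (p (nat_lit 0x8507058682) (nat_lit 0) (p (nat_lit 0x8486850402) (nat_lit 0) (p (nat_lit 0x160014) (nat_lit 0) (p (nat_lit 0x160004) (nat_lit 0) (p (nat_lit 0x50612) (nat_lit 0) (p (nat_lit 0x38592) (nat_lit 0) (p (nat_lit 0x40492) (nat_lit 0) (p (nat_lit 0x28412) (nat_lit 0) (p (nat_lit 0x30292) (nat_lit 0) (p (nat_lit 0x18212) (nat_lit 0) (p (nat_lit 0x20092) (nat_lit 0) (p (nat_lit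 0x8012) (nat_lit 0) pn)))))))))))))))))))))) :=
  Cl.node (nat_lit 0x89) (nat_lit 2) (by decide +kernel) (ClAll.succ (ClAll.succ ClAll.zero s102) n61)

def n79 : Cl (O (nat_lit 2)) (R (nat_lit 104577))
    (p (nat_lit 0x101) (nat_lit 0) (p (nat_lit 0xc1) (nat_lit 1) (p (nat_lit 0x119) (nat_lit 1) (p (nat_lit 0xd1) (nat_lit 0) (p (nat_lit 0x81) (nat_lit 0) (p (nat_lit 0x41) (nat_lit 1) (p (nat_lit 0x88070907889a) (nat_lit 0) (p (nat_lit 0x87868887061a) (nat_lit 0) (p (nat_lit 0x80000000070806878a) (nat_lit 0) (p (nat_lit 0x80000000068786050a) (nat_lit 0) (p (nat_lit 0x8507058682) (nat_lit 0) (p (nat_lit 0x8486850402) (nat_lit 0) (p (nat_lit 0x160014) (nat_lit 0) (p (nat_lit 0x160004) (nat_lit 0) (p (nat_lit 0x50612) (nat_lit 0) (p (nat_lit 0x38592) (nat_lit 0) (p (nat_lit 0x40492) (nat_lit 0) (p (nat_lit 0x28412) (nat_lit 0) (p (nat_lit 0x30292) (nat_lit 0) (p (nat_lit 0x18212) (nat_lit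 0) (p (nat_lit 0x20092) (nat_lit 0) (p (nat_lit 0x8012) (nat_lit 0) pn)))))))))))))))))))))) :=
  Cl.node (nat_lit 0x89) (nat_lit 2) (by decide +kernel) (ClAll.succ (ClAll.succ ClAll.zero s107) s108)

def n80 : Cl (O (nat_lit 2)) (R (nat_lit 104577))
    (p (nat_lit 0x109) (nat_lit 1) (p (nat_lit 0x101) (nat_lit 0) (p (nat_lit 0x111) (nat_lit 0) (p (nat_lit 0xd1) (nat_lit 1) (p (nat_lit 0x81) (nat_lit 0) (p (nat_lit 0x41) (nat_lit 1) (p (nat_lit 0x88070907889a) (nat_lit 0) (p (nat_lit 0x87868887061a) (nat_lit 0) (p (nat_lit 0x80000000070806878a) (nat_lit 0) (p (nat_lit 0x80000000068786050a) (nat_lit 0) (p (nat_lit 0x8507058682) (nat_lit 0) (p (nat_lit 0x8486850402) (nat_lit 0) (p (nat_lit 0x160014) (nat_lit 0) (p (nat_lit 0x160004) (nat_lit 0) (p (nat_lit 0x50612) (nat_lit 0) (p (nat_lit 0x38592) (nat_lit 0) (p (nat_lit 0x40492) (nat_lit 0) (p (nat_lit 0x28412) (nat_lit 0) (p (nat_lit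 0x30292) (nat_lit 0) (p (nat_lit 0x18212) (nat_lit 0) (p (nat_lit 0x20092) (nat_lit 0) (p (nat_lit 0x8012) (nat_lit 0) pn)))))))))))))))))))))) :=
  Cl.node (nat_lit 0x89) (nat_lit 2) (by decide +kernel) (ClAll.succ (ClAll.succ ClAll.zero s111) n62)

def n81 : Cl (O (nat_lit 2)) (R (nat_lit 104577))
    (p (nat_lit 0x101) (nat_lit 0) (p (nat_lit 0x119) (nat_lit 0) (p (nat_lit 0xd1) (nat_lit 0) (p (nat_lit 0x89) (nat_lit 0) (p (nat_lit 0x41) (nat_lit 0) (p (nat_lit 0x88070907889a) (nat_lit 0) (p (nat_lit 0x87868887061a) (nat_lit 0) (p (nat_lit 0x80000000070806878a) (nat_lit 0) (p (nat_lit 0x80000000068786050a) (nat_lit 0) (p (nat_lit 0x8507058682) (nat_lit 0) (p (nat_lit 0x8486850402) (nat_lit 0) (p (nat_lit 0x160014) (nat_lit 0) (p (nat_lit 0x160004) (nat_lit 0) (p (nat_lit 0x50612) (nat_lit 0) (p (nat_lit 0x38592) (nat_lit 0) (p (nat_lit 0x40492) (nat_lit 0) (p (nat_lit 0x28412)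 (nat_lit 0) (p (nat_lit 0x30292) (nat_lit 0) (p (nat_lit 0x18212) (nat_lit 0) (p (nat_lit 0x20092) (nat_lit 0) (p (nat_lit 0x8012) (nat_lit 0) pn))))))))))))))))))))) :=
  Cl.node (nat_lit 0x109) (nat_lit 2) (by decide +kernel) (ClAll.succ (ClAll.succ ClAll.zero s0) n63)

def n82 : Cl (O (nat_lit 2)) (R (nat_lit 104577))
    (p (nat_lit 0x101) (nat_lit 1) (p (nat_lit 0x119) (nat_lit 0) (p (nat_lit 0xd1) (nat_lit 0) (p (nat_lit 0x89) (nat_lit 0) (p (nat_lit 0x41) (nat_lit 0) (p (nat_lit 0x88070907889a) (nat_lit 0) (p (nat_lit 0x87868887061a) (nat_lit 0) (p (nat_lit 0x80000000070806878a) (nat_lit 0) (p (nat_lit 0x80000000068786050a) (nat_lit 0) (p (nat_lit 0x8507058682) (nat_lit 0) (p (nat_lit 0x8486850402) (nat_lit 0) (p (nat_lit 0x160014) (nat_lit 0) (p (nat_lit 0x160004) (nat_lit 0) (p (nat_lit 0x50612) (nat_lit 0) (p (nat_lit 0x38592) (nat_lit 0) (p (nat_lit 0x40492) (nat_lit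 0) (p (nat_lit 0x28412) (nat_lit 0) (p (nat_lit 0x30292) (nat_lit 0) (p (nat_lit 0x18212) (nat_lit 0) (p (nat_lit 0x20092) (nat_lit 0) (p (nat_lit 0x8012) (nat_lit 0) pn))))))))))))))))))))) :=
  Cl.node (nat_lit 0x81) (nat_lit 2) (by decide +kernel) (ClAll.succ (ClAll.succ ClAll.zero n64) n65)

def n83 : Cl (O (nat_lit 2)) (R (nat_lit 104577))
    (p (nat_lit 0xc1) (nat_lit 0) (p (nat_lit 0x119) (nat_lit 1) (p (nat_lit 0xd1) (nat_lit 0) (p (nat_lit 0x89) (nat_lit 0) (p (nat_lit 0x41) (nat_lit 0) (p (nat_lit 0x88070907889a) (nat_lit 0) (p (nat_lit 0x87868887061a) (nat_lit 0) (p (nat_lit 0x80000000070806878a) (nat_lit 0) (p (nat_lit 0x80000000068786050a) (nat_lit 0) (p (nat_lit 0x8507058682) (nat_lit 0) (p (nat_lit 0x8486850402) (nat_lit 0) (p (nat_lit 0x160014) (nat_lit 0) (p (nat_lit 0x160004) (nat_lit 0) (p (nat_lit 0x50612) (nat_lit 0) (p (nat_lit 0x38592) (nat_lit 0) (p (nat_lit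 0x40492) (nat_lit 0) (p (nat_lit 0x28412) (nat_lit 0) (p (nat_lit 0x30292) (nat_lit 0) (p (nat_lit 0x18212) (nat_lit 0) (p (nat_lit 0x20092) (nat_lit 0) (p (nat_lit 0x8012) (nat_lit 0) pn))))))))))))))))))))) :=
  Cl.node (nat_lit 0xc9) (nat_lit 2) (by decide +kernel) (ClAll.succ (ClAll.succ ClAll.zero s17) n66)

def n84 : Cl (O (nat_lit 2)) (R (nat_lit 104577))
    (p (nat_lit 0xc1) (nat_lit 1) (p (nat_lit 0x119) (nat_lit 1) (p (nat_lit 0xd1) (nat_lit 0) (p (nat_lit 0x89) (nat_lit 0) (p (nat_lit 0x41) (nat_lit 0) (p (nat_lit 0x88070907889a) (nat_lit 0) (p (nat_lit 0x87868887061a) (nat_lit 0) (p (nat_lit 0x80000000070806878a) (nat_lit 0) (p (nat_lit 0x80000000068786050a) (nat_lit 0) (p (nat_lit 0x8507058682) (nat_lit 0) (p (nat_lit 0x8486850402) (nat_lit 0) (p (nat_lit 0x160014) (nat_lit 0) (p (nat_lit 0x160004) (nat_lit 0) (p (nat_lit 0x50612) (nat_lit 0) (p (nat_lit 0x38592) (nat_lit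 0) (p (nat_lit 0x40492) (nat_lit 0) (p (nat_lit 0x28412) (nat_lit 0) (p (nat_lit 0x30292) (nat_lit 0) (p (nat_lit 0x18212) (nat_lit 0) (p (nat_lit 0x20092) (nat_lit 0) (p (nat_lit 0x8012) (nat_lit 0) pn))))))))))))))))))))) :=
  Cl.node (nat_lit 0x81) (nat_lit 2) (by decide +kernel) (ClAll.succ (ClAll.succ ClAll.zero n67) n68)

def n85 : Cl (O (nat_lit 2)) (R (nat_lit 104577))
    (p (nat_lit 0x101) (nat_lit 0) (p (nat_lit 0x111) (nat_lit 0) (p (nat_lit 0xd1) (nat_lit 1) (p (nat_lit 0x89) (nat_lit 0) (p (nat_lit 0x41) (nat_lit 0) (p (nat_lit 0x88070907889a) (nat_lit 0) (p (nat_lit 0x87868887061a) (nat_lit 0) (p (nat_lit 0x80000000070806878a) (nat_lit 0) (p (nat_lit 0x80000000068786050a) (nat_lit 0) (p (nat_lit 0x8507058682) (nat_lit 0) (p (nat_lit 0x8486850402) (nat_lit 0) (p (nat_lit 0x160014) (nat_lit 0) (p (nat_lit 0x160004) (nat_lit 0) (p (nat_lit 0x50612) (nat_lit 0) (p (nat_lit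 0x38592) (nat_lit 0) (p (nat_lit 0x40492) (nat_lit 0) (p (nat_lit 0x28412) (nat_lit 0) (p (nat_lit 0x30292) (nat_lit 0) (p (nat_lit 0x18212) (nat_lit 0) (p (nat_lit 0x20092) (nat_lit 0) (p (nat_lit 0x8012) (nat_lit 0) pn))))))))))))))))))))) :=
  Cl.node (nat_lit 0x109) (nat_lit 2) (by decide +kernel) (ClAll.succ (ClAll.succ ClAll.zero s30) n69)

def n86 : Cl (O (nat_lit 2)) (R (nat_lit 104577))
    (p (nat_lit 0x101) (nat_lit 1) (p (nat_lit 0x111) (nat_lit 0) (p (nat_lit 0xd1) (nat_lit 1) (p (nat_lit 0x89) (nat_lit 0) (p (nat_lit 0x41) (nat_lit 0) (p (nat_lit 0x88070907889a) (nat_lit 0) (p (nat_lit 0x87868887061a) (nat_lit 0) (p (nat_lit 0x80000000070806878a) (nat_lit 0) (p (nat_lit 0x80000000068786050a) (nat_lit 0) (p (nat_lit 0x8507058682) (nat_lit 0) (p (nat_lit 0x8486850402) (nat_lit 0) (p (nat_lit 0x160014) (nat_lit 0) (p (nat_lit 0x160004) (nat_lit 0) (p (nat_lit 0x50612)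 (nat_lit 0) (p (nat_lit 0x38592) (nat_lit 0) (p (nat_lit 0x40492) (nat_lit 0) (p (nat_lit 0x28412) (nat_lit 0) (p (nat_lit 0x30292) (nat_lit 0) (p (nat_lit 0x18212) (nat_lit 0) (p (nat_lit 0x20092) (nat_lit 0) (p (nat_lit 0x8012) (nat_lit 0) pn))))))))))))))))))))) :=
  Cl.node (nat_lit 0x81) (nat_lit 2) (by decide +kernel) (ClAll.succ (ClAll.succ ClAll.zero n70) n71)

def n87 : Cl (O (nat_lit 2)) (R (nat_lit 104577))
    (p (nat_lit 0x101) (nat_lit 0) (p (nat_lit 0x119) (nat_lit 0) (p (nat_lit 0xc9) (nat_lit 0) (p (nat_lit 0x89) (nat_lit 1) (p (nat_lit 0x41) (nat_lit 0) (p (nat_lit 0x88070907889a) (nat_lit 0) (p (nat_lit 0x87868887061a) (nat_lit 0) (p (nat_lit 0x80000000070806878a) (nat_lit 0) (p (nat_lit 0x80000000068786050a) (nat_lit 0) (p (nat_lit 0x8507058682) (nat_lit 0) (p (nat_lit 0x8486850402) (nat_lit 0) (p (nat_lit 0x160014) (nat_lit 0) (p (nat_lit 0x160004) (nat_lit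 0) (p (nat_lit 0x50612) (nat_lit 0) (p (nat_lit 0x38592) (nat_lit 0) (p (nat_lit 0x40492) (nat_lit 0) (p (nat_lit 0x28412) (nat_lit 0) (p (nat_lit 0x30292) (nat_lit 0) (p (nat_lit 0x18212) (nat_lit 0) (p (nat_lit 0x20092) (nat_lit 0) (p (nat_lit 0x8012) (nat_lit 0) pn))))))))))))))))))))) :=
  Cl.node (nat_lit 0x109) (nat_lit 2) (by decide +kernel) (ClAll.succ (ClAll.succ ClAll.zero n72) n73)

def n88 : Cl (O (nat_lit 2)) (R (nat_lit 104577))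
    (p (nat_lit 0x101) (nat_lit 1) (p (nat_lit 0x119) (nat_lit 0) (p (nat_lit 0xc9) (nat_lit 0) (p (nat_lit 0x89) (nat_lit 1) (p (nat_lit 0x41) (nat_lit 0) (p (nat_lit 0x88070907889a) (nat_lit 0) (p (nat_lit 0x87868887061a) (nat_lit 0) (p (nat_lit 0x80000000070806878a) (nat_lit 0) (p (nat_lit 0x80000000068786050a) (nat_lit 0) (p (nat_lit 0x8507058682) (nat_lit 0) (p (nat_lit 0x8486850402) (nat_lit 0) (p (nat_lit 0x160014) (nat_lit 0) (p (nat_lit 0x160004) (nat_lit 0) (p (nat_lit 0x50612) (nat_lit 0) (p (nat_lit 0x38592) (nat_lit 0) (p (nat_lit 0x40492) (nat_lit 0) (p (nat_lit 0x28412) (nat_lit 0) (p (nat_lit 0x30292) (nat_lit 0) (p (nat_lit 0x18212) (nat_lit 0) (p (nat_lit 0x20092) (nat_lit 0) (p (nat_lit 0x8012) (nat_lit 0) pn))))))))))))))))))))) :=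
  Cl.node (nat_lit 0xc1) (nat_lit 2) (by decide +kernel) (ClAll.succ (ClAll.succ ClAll.zero n74) s76)

def n89 : Cl (O (nat_lit 2)) (R (nat_lit 104577))
    (p (nat_lit 0xc1) (nat_lit 0) (p (nat_lit 0x119) (nat_lit 1) (p (nat_lit 0xc9) (nat_lit 0) (p (nat_lit 0x89) (nat_lit 1) (p (nat_lit 0x41) (nat_lit 0) (p (nat_lit 0x88070907889a) (nat_lit 0) (p (nat_lit 0x87868887061a) (nat_lit 0) (p (nat_lit 0x80000000070806878a) (nat_lit 0) (p (nat_lit 0x80000000068786050a) (nat_lit 0) (p (nat_lit 0x8507058682) (nat_lit 0) (p (nat_lit 0x8486850402) (nat_lit 0) (p (nat_lit 0x160014) (nat_lit 0) (p (nat_lit 0x160004) (nat_lit 0) (p (nat_lit 0x50612) (nat_lit 0) (p (nat_lit 0x38592) (nat_lit 0) (p (nat_lit 0x40492) (nat_lit 0) (p (nat_lit 0x28412) (nat_lit 0) (p (nat_lit 0x30292) (nat_lit 0) (p (nat_lit 0x18212) (nat_lit 0) (p (nat_lit 0x20092) (nat_lit 0) (p (nat_lit 0x8012) (nat_lit 0) pn)))))))))))))))))))))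 :=
  Cl.node (nat_lit 0xd1) (nat_lit 2) (by decide +kernel) (ClAll.succ (ClAll.succ ClAll.zero s77) n75)

def n90 : Cl (O (nat_lit 2)) (R (nat_lit 104577))
    (p (nat_lit 0xc1) (nat_lit 1) (p (nat_lit 0x119) (nat_lit 1) (p (nat_lit 0xc9) (nat_lit 0) (p (nat_lit 0x89) (nat_lit 1) (p (nat_lit 0x41) (nat_lit 0) (p (nat_lit 0x88070907889a) (nat_lit 0) (p (nat_lit 0x87868887061a) (nat_lit 0) (p (nat_lit 0x80000000070806878a) (nat_lit 0) (p (nat_lit 0x80000000068786050a) (nat_lit 0) (p (nat_lit 0x8507058682) (nat_lit 0) (p (nat_lit 0x8486850402) (nat_lit 0) (p (nat_lit 0x160014) (nat_lit 0) (p (nat_lit 0x160004) (nat_lit 0) (p (nat_lit 0x50612) (nat_lit 0) (p (nat_lit 0x38592) (nat_lit 0) (p (nat_lit 0x40492) (nat_lit 0) (p (nat_lit 0x28412) (nat_lit 0) (p (nat_lit 0x30292) (nat_lit 0) (p (nat_lit 0x18212) (nat_lit 0) (p (nat_lit 0x20092) (nat_lit 0) (p (nat_lit 0x8012) (nat_lit 0) pn)))))))))))))))))))))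 :=
  Cl.node (nat_lit 0x101) (nat_lit 2) (by decide +kernel) (ClAll.succ (ClAll.succ ClAll.zero n76) s93)

def n91 : Cl (O (nat_lit 2)) (R (nat_lit 104577))
    (p (nat_lit 0x101) (nat_lit 0) (p (nat_lit 0x109) (nat_lit 0) (p (nat_lit 0xc9) (nat_lit 1) (p (nat_lit 0x89) (nat_lit 1) (p (nat_lit 0x41) (nat_lit 0) (p (nat_lit 0x88070907889a) (nat_lit 0) (p (nat_lit 0x87868887061a) (nat_lit 0) (p (nat_lit 0x80000000070806878a) (nat_lit 0) (p (nat_lit 0x80000000068786050a) (nat_lit 0) (p (nat_lit 0x8507058682) (nat_lit 0) (p (nat_lit 0x8486850402) (nat_lit 0) (p (nat_lit 0x160014) (nat_lit 0) (p (nat_lit 0x160004) (nat_lit 0) (p (nat_lit 0x50612) (nat_lit 0) (p (nat_lit 0x38592) (nat_lit 0) (p (nat_lit 0x40492) (nat_lit 0) (p (nat_lit 0x28412) (nat_lit 0) (p (nat_lit 0x30292) (nat_lit 0) (p (nat_lit 0x18212) (nat_lit 0) (p (nat_lit 0x20092) (nat_lit 0) (p (nat_lit 0x8012) (nat_lit 0)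 pn))))))))))))))))))))) :=
  Cl.node (nat_lit 0x111) (nat_lit 2) (by decide +kernel) (ClAll.succ (ClAll.succ ClAll.zero s94) s95)

def n92 : Cl (O (nat_lit 2)) (R (nat_lit 104577))
    (p (nat_lit 0x101) (nat_lit 0) (p (nat_lit 0x119) (nat_lit 0) (p (nat_lit 0xd1) (nat_lit 0) (p (nat_lit 0x81) (nat_lit 0) (p (nat_lit 0x41) (nat_lit 1) (p (nat_lit 0x88070907889a) (nat_lit 0) (p (nat_lit 0x87868887061a) (nat_lit 0) (p (nat_lit 0x80000000070806878a) (nat_lit 0) (p (nat_lit 0x80000000068786050a) (nat_lit 0) (p (nat_lit 0x8507058682) (nat_lit 0) (p (nat_lit 0x8486850402) (nat_lit 0) (p (nat_lit 0x160014) (nat_lit 0) (p (nat_lit 0x160004) (nat_lit 0) (p (nat_lit 0x50612) (nat_lit 0) (p (nat_lit 0x38592) (nat_lit 0) (p (nat_lit 0x40492) (nat_lit 0) (p (nat_lit 0x28412) (nat_lit 0) (p (nat_lit 0x30292) (nat_lit 0) (p (nat_lit 0x18212) (nat_lit 0) (p (nat_lit 0x20092) (nat_lit 0) (p (nat_lit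 0x8012) (nat_lit 0) pn))))))))))))))))))))) :=
  Cl.node (nat_lit 0x109) (nat_lit 2) (by decide +kernel) (ClAll.succ (ClAll.succ ClAll.zero s98) n77)

def n93 : Cl (O (nat_lit 2)) (R (nat_lit 104577))
    (p (nat_lit 0x101) (nat_lit 1) (p (nat_lit 0x119) (nat_lit 0) (p (nat_lit 0xd1) (nat_lit 0) (p (nat_lit 0x81) (nat_lit 0) (p (nat_lit 0x41) (nat_lit 1) (p (nat_lit 0x88070907889a) (nat_lit 0) (p (nat_lit 0x87868887061a) (nat_lit 0) (p (nat_lit 0x80000000070806878a) (nat_lit 0) (p (nat_lit 0x80000000068786050a) (nat_lit 0) (p (nat_lit 0x8507058682) (nat_lit 0) (p (nat_lit 0x8486850402) (nat_lit 0) (p (nat_lit 0x160014) (nat_lit 0) (p (nat_lit 0x160004) (nat_lit 0) (p (nat_lit 0x50612) (nat_lit 0) (p (nat_lit 0x38592) (nat_lit 0) (p (nat_lit 0x40492) (nat_lit 0) (p (nat_lit 0x28412) (nat_lit 0) (p (nat_lit 0x30292) (nat_lit 0) (p (nat_lit 0x18212) (nat_lit 0) (p (nat_lit 0x20092)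 (nat_lit 0) (p (nat_lit 0x8012) (nat_lit 0) pn))))))))))))))))))))) :=
  Cl.node (nat_lit 0xc1) (nat_lit 2) (by decide +kernel) (ClAll.succ (ClAll.succ ClAll.zero n78) s105)

def n94 : Cl (O (nat_lit 2)) (R (nat_lit 104577))
    (p (nat_lit 0xc1) (nat_lit 1) (p (nat_lit 0x119) (nat_lit 1) (p (nat_lit 0xd1) (nat_lit 0) (p (nat_lit 0x81) (nat_lit 0) (p (nat_lit 0x41) (nat_lit 1) (p (nat_lit 0x88070907889a) (nat_lit 0) (p (nat_lit 0x87868887061a) (nat_lit 0) (p (nat_lit 0x80000000070806878a) (nat_lit 0) (p (nat_lit 0x80000000068786050a) (nat_lit 0) (p (nat_lit 0x8507058682) (nat_lit 0) (p (nat_lit 0x8486850402) (nat_lit 0) (p (nat_lit 0x160014) (nat_lit 0) (p (nat_lit 0x160004) (nat_lit 0) (p (nat_lit 0x50612) (nat_lit 0) (p (nat_lit 0x38592) (nat_lit 0) (p (nat_lit 0x40492) (nat_lit 0) (p (nat_lit 0x28412) (nat_lit 0) (p (nat_lit 0x30292) (nat_lit 0) (p (nat_lit 0x18212) (nat_lit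 0) (p (nat_lit 0x20092) (nat_lit 0) (p (nat_lit 0x8012) (nat_lit 0) pn))))))))))))))))))))) :=
  Cl.node (nat_lit 0x101) (nat_lit 2) (by decide +kernel) (ClAll.succ (ClAll.succ ClAll.zero n79) s109)

def n95 : Cl (O (nat_lit 2)) (R (nat_lit 104577))
    (p (nat_lit 0x101) (nat_lit 0) (p (nat_lit 0x111) (nat_lit 0) (p (nat_lit 0xd1) (nat_lit 1) (p (nat_lit 0x81) (nat_lit 0) (p (nat_lit 0x41) (nat_lit 1) (p (nat_lit 0x88070907889a) (nat_lit 0) (p (nat_lit 0x87868887061a) (nat_lit 0) (p (nat_lit 0x80000000070806878a) (nat_lit 0) (p (nat_lit 0x80000000068786050a) (nat_lit 0) (p (nat_lit 0x8507058682) (nat_lit 0) (p (nat_lit 0x8486850402) (nat_lit 0) (p (nat_lit 0x160014) (nat_lit 0) (p (nat_lit 0x160004) (nat_lit 0) (p (nat_lit 0x50612) (nat_lit 0) (p (nat_lit 0x38592) (nat_lit 0) (p (nat_lit 0x40492) (nat_lit 0) (p (nat_lit 0x28412) (nat_lit 0) (p (nat_lit 0x30292) (nat_lit 0) (p (nat_lit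 0x18212) (nat_lit 0) (p (nat_lit 0x20092) (nat_lit 0) (p (nat_lit 0x8012) (nat_lit 0) pn))))))))))))))))))))) :=
  Cl.node (nat_lit 0x109) (nat_lit 2) (by decide +kernel) (ClAll.succ (ClAll.succ ClAll.zero s110) n80)

def n96 : Cl (O (nat_lit 2)) (R (nat_lit 104577))
    (p (nat_lit 0x101) (nat_lit 1) (p (nat_lit 0x111) (nat_lit 0) (p (nat_lit 0xd1) (nat_lit 1) (p (nat_lit 0x81) (nat_lit 0) (p (nat_lit 0x41) (nat_lit 1) (p (nat_lit 0x88070907889a) (nat_lit 0) (p (nat_lit 0x87868887061a) (nat_lit 0) (p (nat_lit 0x80000000070806878a) (nat_lit 0) (p (nat_lit 0x80000000068786050a) (nat_lit 0) (p (nat_lit 0x8507058682) (nat_lit 0) (p (nat_lit 0x8486850402) (nat_lit 0) (p (nat_lit 0x160014) (nat_lit 0) (p (nat_lit 0x160004) (nat_lit 0) (p (nat_lit 0x50612) (nat_lit 0) (p (nat_lit 0x38592) (nat_lit 0) (p (nat_lit 0x40492) (nat_lit 0) (p (nat_lit 0x28412) (nat_lit 0) (p (nat_lit 0x30292)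 (nat_lit 0) (p (nat_lit 0x18212) (nat_lit 0) (p (nat_lit 0x20092) (nat_lit 0) (p (nat_lit 0x8012) (nat_lit 0) pn))))))))))))))))))))) :=
  Cl.node (nat_lit 0x89) (nat_lit 2) (by decide +kernel) (ClAll.succ (ClAll.succ ClAll.zero s115) s116)

def n97 : Cl (O (nat_lit 2)) (R (nat_lit 104577))
    (p (nat_lit 0x101) (nat_lit 0) (p (nat_lit 0x119) (nat_lit 0) (p (nat_lit 0xc1) (nat_lit 0) (p (nat_lit 0x81) (nat_lit 1) (p (nat_lit 0x41) (nat_lit 1) (p (nat_lit 0x88070907889a) (nat_lit 0) (p (nat_lit 0x87868887061a) (nat_lit 0) (p (nat_lit 0x80000000070806878a) (nat_lit 0) (p (nat_lit 0x80000000068786050a) (nat_lit 0) (p (nat_lit 0x8507058682) (nat_lit 0) (p (nat_lit 0x8486850402) (nat_lit 0) (p (nat_lit 0x160014) (nat_lit 0) (p (nat_lit 0x160004) (nat_lit 0) (p (nat_lit 0x50612) (nat_lit 0) (p (nat_lit 0x38592) (nat_lit 0) (p (nat_lit 0x40492) (nat_lit 0) (p (nat_lit 0x28412) (nat_lit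 0) (p (nat_lit 0x30292) (nat_lit 0) (p (nat_lit 0x18212) (nat_lit 0) (p (nat_lit 0x20092) (nat_lit 0) (p (nat_lit 0x8012) (nat_lit 0) pn))))))))))))))))))))) :=
  Cl.node (nat_lit 0x109) (nat_lit 2) (by decide +kernel) (ClAll.succ (ClAll.succ ClAll.zero s118) s119)

def n98 : Cl (O (nat_lit 2)) (R (nat_lit 104577))
    (p (nat_lit 0x119) (nat_lit 0) (p (nat_lit 0xd1) (nat_lit 0) (p (nat_lit 0x89) (nat_lit 0) (p (nat_lit 0x41) (nat_lit 0) (p (nat_lit 0x88070907889a) (nat_lit 0) (p (nat_lit 0x87868887061a) (nat_lit 0) (p (nat_lit 0x80000000070806878a) (nat_lit 0) (p (nat_lit 0x80000000068786050a) (nat_lit 0) (p (nat_lit 0x8507058682) (nat_lit 0) (p (nat_lit 0x8486850402) (nat_lit 0) (p (nat_lit 0x160014) (nat_lit 0) (p (nat_lit 0x160004) (nat_lit 0) (p (nat_lit 0x50612) (nat_lit 0) (p (nat_lit 0x38592) (nat_lit 0) (p (nat_lit 0x40492) (nat_lit 0) (p (nat_lit 0x28412) (nat_lit 0) (p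 (nat_lit 0x30292) (nat_lit 0) (p (nat_lit 0x18212) (nat_lit 0) (p (nat_lit 0x20092) (nat_lit 0) (p (nat_lit 0x8012) (nat_lit 0) pn)))))))))))))))))))) :=
  Cl.node (nat_lit 0x101) (nat_lit 2) (by decide +kernel) (ClAll.succ (ClAll.succ ClAll.zero n81) n82)

def n99 : Cl (O (nat_lit 2)) (R (nat_lit 104577))
    (p (nat_lit 0x119) (nat_lit 1) (p (nat_lit 0xd1) (nat_lit 0) (p (nat_lit 0x89) (nat_lit 0) (p (nat_lit 0x41) (nat_lit 0) (p (nat_lit 0x88070907889a) (nat_lit 0) (p (nat_lit 0x87868887061a) (nat_lit 0) (p (nat_lit 0x80000000070806878a) (nat_lit 0) (p (nat_lit 0x80000000068786050a) (nat_lit 0) (p (nat_lit 0x8507058682) (nat_lit 0) (p (nat_lit 0x8486850402) (nat_lit 0) (p (nat_lit 0x160014) (nat_lit 0) (p (nat_lit 0x160004) (nat_lit 0) (p (nat_lit 0x50612) (nat_lit 0) (p (nat_lit 0x38592) (nat_lit 0) (p (nat_lit 0x40492) (nat_lit 0) (p (nat_lit 0x28412) (nat_lit 0) (p (nat_lit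 0x30292) (nat_lit 0) (p (nat_lit 0x18212) (nat_lit 0) (p (nat_lit 0x20092) (nat_lit 0) (p (nat_lit 0x8012) (nat_lit 0) pn)))))))))))))))))))) :=
  Cl.node (nat_lit 0xc1) (nat_lit 2) (by decide +kernel) (ClAll.succ (ClAll.succ ClAll.zero n83) n84)

def n100 : Cl (O (nat_lit 2)) (R (nat_lit 104577))
    (p (nat_lit 0x111) (nat_lit 0) (p (nat_lit 0xd1) (nat_lit 1) (p (nat_lit 0x89) (nat_lit 0) (p (nat_lit 0x41) (nat_lit 0) (p (nat_lit 0x88070907889a) (nat_lit 0) (p (nat_lit 0x87868887061a) (nat_lit 0) (p (nat_lit 0x80000000070806878a) (nat_lit 0) (p (nat_lit 0x80000000068786050a) (nat_lit 0) (p (nat_lit 0x8507058682) (nat_lit 0) (p (nat_lit 0x8486850402) (nat_lit 0) (p (nat_lit 0x160014) (nat_lit 0) (p (nat_lit 0x160004) (nat_lit 0) (p (nat_lit 0x50612) (nat_lit 0) (p (nat_lit 0x38592) (nat_lit 0) (p (nat_lit 0x40492) (nat_lit 0) (p (nat_lit 0x28412) (nat_lit 0) (p (nat_lit 0x30292)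 (nat_lit 0) (p (nat_lit 0x18212) (nat_lit 0) (p (nat_lit 0x20092) (nat_lit 0) (p (nat_lit 0x8012) (nat_lit 0) pn)))))))))))))))))))) :=
  Cl.node (nat_lit 0x101) (nat_lit 2) (by decide +kernel) (ClAll.succ (ClAll.succ ClAll.zero n85) n86)

def n101 : Cl (O (nat_lit 2)) (R (nat_lit 104577))
    (p (nat_lit 0x119) (nat_lit 0) (p (nat_lit 0xc9) (nat_lit 0) (p (nat_lit 0x89) (nat_lit 1) (p (nat_lit 0x41) (nat_lit 0) (p (nat_lit 0x88070907889a) (nat_lit 0) (p (nat_lit 0x87868887061a) (nat_lit 0) (p (nat_lit 0x80000000070806878a) (nat_lit 0) (p (nat_lit 0x80000000068786050a) (nat_lit 0) (p (nat_lit 0x8507058682) (nat_lit 0) (p (nat_lit 0x8486850402) (nat_lit 0) (p (nat_lit 0x160014) (nat_lit 0) (p (nat_lit 0x160004) (nat_lit 0) (p (nat_lit 0x50612) (nat_lit 0) (p (nat_lit 0x38592) (nat_lit 0) (p (nat_lit 0x40492) (nat_lit 0) (p (nat_lit 0x28412) (nat_lit 0) (p (nat_lit 0x30292) (nat_lit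 0) (p (nat_lit 0x18212) (nat_lit 0) (p (nat_lit 0x20092) (nat_lit 0) (p (nat_lit 0x8012) (nat_lit 0) pn)))))))))))))))))))) :=
  Cl.node (nat_lit 0x101) (nat_lit 2) (by decide +kernel) (ClAll.succ (ClAll.succ ClAll.zero n87) n88)

def n102 : Cl (O (nat_lit 2)) (R (nat_lit 104577))
    (p (nat_lit 0x119) (nat_lit 1) (p (nat_lit 0xc9) (nat_lit 0) (p (nat_lit 0x89) (nat_lit 1) (p (nat_lit 0x41) (nat_lit 0) (p (nat_lit 0x88070907889a) (nat_lit 0) (p (nat_lit 0x87868887061a) (nat_lit 0) (p (nat_lit 0x80000000070806878a) (nat_lit 0) (p (nat_lit 0x80000000068786050a) (nat_lit 0) (p (nat_lit 0x8507058682) (nat_lit 0) (p (nat_lit 0x8486850402) (nat_lit 0) (p (nat_lit 0x160014) (nat_lit 0) (p (nat_lit 0x160004) (nat_lit 0) (p (nat_lit 0x50612) (nat_lit 0) (p (nat_lit 0x38592) (nat_lit 0) (p (nat_lit 0x40492) (nat_lit 0) (p (nat_lit 0x28412) (nat_lit 0) (p (nat_lit 0x30292) (nat_lit 0) (p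 (nat_lit 0x18212) (nat_lit 0) (p (nat_lit 0x20092) (nat_lit 0) (p (nat_lit 0x8012) (nat_lit 0) pn)))))))))))))))))))) :=
  Cl.node (nat_lit 0xc1) (nat_lit 2) (by decide +kernel) (ClAll.succ (ClAll.succ ClAll.zero n89) n90)

def n103 : Cl (O (nat_lit 2)) (R (nat_lit 104577))
    (p (nat_lit 0x109) (nat_lit 0) (p (nat_lit 0xc9) (nat_lit 1) (p (nat_lit 0x89) (nat_lit 1) (p (nat_lit 0x41) (nat_lit 0) (p (nat_lit 0x88070907889a) (nat_lit 0) (p (nat_lit 0x87868887061a) (nat_lit 0) (p (nat_lit 0x80000000070806878a) (nat_lit 0) (p (nat_lit 0x80000000068786050a) (nat_lit 0) (p (nat_lit 0x8507058682) (nat_lit 0) (p (nat_lit 0x8486850402) (nat_lit 0) (p (nat_lit 0x160014) (nat_lit 0) (p (nat_lit 0x160004) (nat_lit 0) (p (nat_lit 0x50612) (nat_lit 0) (p (nat_lit 0x38592) (nat_lit 0) (p (nat_lit 0x40492) (nat_lit 0) (p (nat_lit 0x28412) (nat_lit 0) (p (nat_lit 0x30292) (nat_lit 0) (p (nat_lit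 0x18212) (nat_lit 0) (p (nat_lit 0x20092) (nat_lit 0) (p (nat_lit 0x8012) (nat_lit 0) pn)))))))))))))))))))) :=
  Cl.node (nat_lit 0x101) (nat_lit 2) (by decide +kernel) (ClAll.succ (ClAll.succ ClAll.zero n91) s96)

def n104 : Cl (O (nat_lit 2)) (R (nat_lit 104577))
    (p (nat_lit 0x119) (nat_lit 0) (p (nat_lit 0xd1) (nat_lit 0) (p (nat_lit 0x81) (nat_lit 0) (p (nat_lit 0x41) (nat_lit 1) (p (nat_lit 0x88070907889a) (nat_lit 0) (p (nat_lit 0x87868887061a) (nat_lit 0) (p (nat_lit 0x80000000070806878a) (nat_lit 0) (p (nat_lit 0x80000000068786050a) (nat_lit 0) (p (nat_lit 0x8507058682) (nat_lit 0) (p (nat_lit 0x8486850402) (nat_lit 0) (p (nat_lit 0x160014) (nat_lit 0) (p (nat_lit 0x160004) (nat_lit 0) (p (nat_lit 0x50612) (nat_lit 0) (p (nat_lit 0x38592) (nat_lit 0) (p (nat_lit 0x40492) (nat_lit 0) (p (nat_lit 0x28412) (nat_lit 0) (p (nat_lit 0x30292) (nat_lit 0) (p (nat_lit 0x18212)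 (nat_lit 0) (p (nat_lit 0x20092) (nat_lit 0) (p (nat_lit 0x8012) (nat_lit 0) pn)))))))))))))))))))) :=
  Cl.node (nat_lit 0x101) (nat_lit 2) (by decide +kernel) (ClAll.succ (ClAll.succ ClAll.zero n92) n93)

def n105 : Cl (O (nat_lit 2)) (R (nat_lit 104577))
    (p (nat_lit 0x119) (nat_lit 1) (p (nat_lit 0xd1) (nat_lit 0) (p (nat_lit 0x81) (nat_lit 0) (p (nat_lit 0x41) (nat_lit 1) (p (nat_lit 0x88070907889a) (nat_lit 0) (p (nat_lit 0x87868887061a) (nat_lit 0) (p (nat_lit 0x80000000070806878a) (nat_lit 0) (p (nat_lit 0x80000000068786050a) (nat_lit 0) (p (nat_lit 0x8507058682) (nat_lit 0) (p (nat_lit 0x8486850402) (nat_lit 0) (p (nat_lit 0x160014) (nat_lit 0) (p (nat_lit 0x160004) (nat_lit 0) (p (nat_lit 0x50612) (nat_lit 0) (p (nat_lit 0x38592) (nat_lit 0) (p (nat_lit 0x40492) (nat_lit 0) (p (nat_lit 0x28412) (nat_lit 0) (p (nat_lit 0x30292) (nat_lit 0) (p (nat_lit 0x18212) (nat_lit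 0) (p (nat_lit 0x20092) (nat_lit 0) (p (nat_lit 0x8012) (nat_lit 0) pn)))))))))))))))))))) :=
  Cl.node (nat_lit 0xc1) (nat_lit 2) (by decide +kernel) (ClAll.succ (ClAll.succ ClAll.zero s106) n94)

def n106 : Cl (O (nat_lit 2)) (R (nat_lit 104577))
    (p (nat_lit 0x111) (nat_lit 0) (p (nat_lit 0xd1) (nat_lit 1) (p (nat_lit 0x81) (nat_lit 0) (p (nat_lit 0x41) (nat_lit 1) (p (nat_lit 0x88070907889a) (nat_lit 0) (p (nat_lit 0x87868887061a) (nat_lit 0) (p (nat_lit 0x80000000070806878a) (nat_lit 0) (p (nat_lit 0x80000000068786050a) (nat_lit 0) (p (nat_lit 0x8507058682) (nat_lit 0) (p (nat_lit 0x8486850402) (nat_lit 0) (p (nat_lit 0x160014) (nat_lit 0) (p (nat_lit 0x160004) (nat_lit 0) (p (nat_lit 0x50612) (nat_lit 0) (p (nat_lit 0x38592) (nat_lit 0) (p (nat_lit 0x40492) (nat_lit 0) (p (nat_lit 0x28412) (nat_lit 0) (p (nat_lit 0x30292) (nat_lit 0) (p (nat_lit 0x18212) (nat_lit 0) (p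 (nat_lit 0x20092) (nat_lit 0) (p (nat_lit 0x8012) (nat_lit 0) pn)))))))))))))))))))) :=
  Cl.node (nat_lit 0x101) (nat_lit 2) (by decide +kernel) (ClAll.succ (ClAll.succ ClAll.zero n95) n96)

def n107 : Cl (O (nat_lit 2)) (R (nat_lit 104577))
    (p (nat_lit 0x119) (nat_lit 0) (p (nat_lit 0xc1) (nat_lit 0) (p (nat_lit 0x81) (nat_lit 1) (p (nat_lit 0x41) (nat_lit 1) (p (nat_lit 0x88070907889a) (nat_lit 0) (p (nat_lit 0x87868887061a) (nat_lit 0) (p (nat_lit 0x80000000070806878a) (nat_lit 0) (p (nat_lit 0x80000000068786050a) (nat_lit 0) (p (nat_lit 0x8507058682) (nat_lit 0) (p (nat_lit 0x8486850402) (nat_lit 0) (p (nat_lit 0x160014) (nat_lit 0) (p (nat_lit 0x160004) (nat_lit 0) (p (nat_lit 0x50612) (nat_lit 0) (p (nat_lit 0x38592) (nat_lit 0) (p (nat_lit 0x40492) (nat_lit 0) (p (nat_lit 0x28412) (nat_lit 0) (p (nat_lit 0x30292) (nat_lit 0) (p (nat_lit 0x18212) (nat_lit 0) (p (nat_lit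 0x20092) (nat_lit 0) (p (nat_lit 0x8012) (nat_lit 0) pn)))))))))))))))))))) :=
  Cl.node (nat_lit 0x101) (nat_lit 2) (by decide +kernel) (ClAll.succ (ClAll.succ ClAll.zero n97) s120)

def n108 : Cl (O (nat_lit 2)) (R (nat_lit 104577))
    (p (nat_lit 0x119) (nat_lit 1) (p (nat_lit 0xc1) (nat_lit 0) (p (nat_lit 0x81) (nat_lit 1) (p (nat_lit 0x41) (nat_lit 1) (p (nat_lit 0x88070907889a) (nat_lit 0) (p (nat_lit 0x87868887061a) (nat_lit 0) (p (nat_lit 0x80000000070806878a) (nat_lit 0) (p (nat_lit 0x80000000068786050a) (nat_lit 0) (p (nat_lit 0x8507058682) (nat_lit 0) (p (nat_lit 0x8486850402) (nat_lit 0) (p (nat_lit 0x160014) (nat_lit 0) (p (nat_lit 0x160004) (nat_lit 0) (p (nat_lit 0x50612) (nat_lit 0) (p (nat_lit 0x38592) (nat_lit 0) (p (nat_lit 0x40492) (nat_lit 0) (p (nat_lit 0x28412) (nat_lit 0) (p (nat_lit 0x30292) (nat_lit 0) (p (nat_lit 0x18212) (nat_lit 0) (p (nat_lit 0x20092)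 (nat_lit 0) (p (nat_lit 0x8012) (nat_lit 0) pn)))))))))))))))))))) :=
  Cl.node (nat_lit 0xc9) (nat_lit 2) (by decide +kernel) (ClAll.succ (ClAll.succ ClAll.zero s121) s122)

def n109 : Cl (O (nat_lit 2)) (R (nat_lit 104577))
    (p (nat_lit 0xd1) (nat_lit 0) (p (nat_lit 0x89) (nat_lit 0) (p (nat_lit 0x41) (nat_lit 0) (p (nat_lit 0x88070907889a) (nat_lit 0) (p (nat_lit 0x87868887061a) (nat_lit 0) (p (nat_lit 0x80000000070806878a) (nat_lit 0) (p (nat_lit 0x80000000068786050a) (nat_lit 0) (p (nat_lit 0x8507058682) (nat_lit 0) (p (nat_lit 0x8486850402) (nat_lit 0) (p (nat_lit 0x160014) (nat_lit 0) (p (nat_lit 0x160004) (nat_lit 0) (p (nat_lit 0x50612) (nat_lit 0) (p (nat_lit 0x38592) (nat_lit 0) (p (nat_lit 0x40492) (nat_lit 0) (p (nat_lit 0x28412) (nat_lit 0) (p (nat_lit 0x30292) (nat_lit 0) (p (nat_lit 0x18212) (nat_lit 0) (p (nat_lit 0x20092) (nat_lit 0) (p (nat_lit 0x8012) (nat_lit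 0) pn))))))))))))))))))) :=
  Cl.node (nat_lit 0x119) (nat_lit 2) (by decide +kernel) (ClAll.succ (ClAll.succ ClAll.zero n98) n99)

def n110 : Cl (O (nat_lit 2)) (R (nat_lit 104577))
    (p (nat_lit 0xd1) (nat_lit 1) (p (nat_lit 0x89) (nat_lit 0) (p (nat_lit 0x41) (nat_lit 0) (p (nat_lit 0x88070907889a) (nat_lit 0) (p (nat_lit 0x87868887061a) (nat_lit 0) (p (nat_lit 0x80000000070806878a) (nat_lit 0) (p (nat_lit 0x80000000068786050a) (nat_lit 0) (p (nat_lit 0x8507058682) (nat_lit 0) (p (nat_lit 0x8486850402) (nat_lit 0) (p (nat_lit 0x160014) (nat_lit 0) (p (nat_lit 0x160004) (nat_lit 0) (p (nat_lit 0x50612) (nat_lit 0) (p (nat_lit 0x38592) (nat_lit 0) (p (nat_lit 0x40492) (nat_lit 0) (p (nat_lit 0x28412) (nat_lit 0) (p (nat_lit 0x30292) (nat_lit 0) (p (nat_lit 0x18212) (nat_lit 0) (p (nat_lit 0x20092) (nat_lit 0) (p (nat_lit 0x8012) (nat_lit 0) pn))))))))))))))))))) :=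
  Cl.node (nat_lit 0x111) (nat_lit 2) (by decide +kernel) (ClAll.succ (ClAll.succ ClAll.zero n100) s42)

def n111 : Cl (O (nat_lit 2)) (R (nat_lit 104577))
    (p (nat_lit 0xc9) (nat_lit 0) (p (nat_lit 0x89) (nat_lit 1) (p (nat_lit 0x41) (nat_lit 0) (p (nat_lit 0x88070907889a) (nat_lit 0) (p (nat_lit 0x87868887061a) (nat_lit 0) (p (nat_lit 0x80000000070806878a) (nat_lit 0) (p (nat_lit 0x80000000068786050a) (nat_lit 0) (p (nat_lit 0x8507058682) (nat_lit 0) (p (nat_lit 0x8486850402) (nat_lit 0) (p (nat_lit 0x160014) (nat_lit 0) (p (nat_lit 0x160004) (nat_lit 0) (p (nat_lit 0x50612) (nat_lit 0) (p (nat_lit 0x38592) (nat_lit 0) (p (nat_lit 0x40492) (nat_lit 0) (p (nat_lit 0x28412) (nat_lit 0) (p (nat_lit 0x30292) (nat_lit 0) (p (nat_lit 0x18212) (nat_lit 0) (p (nat_lit 0x20092) (nat_lit 0) (p (nat_lit 0x8012) (nat_lit 0) pn))))))))))))))))))) :=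
  Cl.node (nat_lit 0x119) (nat_lit 2) (by decide +kernel) (ClAll.succ (ClAll.succ ClAll.zero n101) n102)

def n112 : Cl (O (nat_lit 2)) (R (nat_lit 104577))
    (p (nat_lit 0xc9) (nat_lit 1) (p (nat_lit 0x89) (nat_lit 1) (p (nat_lit 0x41) (nat_lit 0) (p (nat_lit 0x88070907889a) (nat_lit 0) (p (nat_lit 0x87868887061a) (nat_lit 0) (p (nat_lit 0x80000000070806878a) (nat_lit 0) (p (nat_lit 0x80000000068786050a) (nat_lit 0) (p (nat_lit 0x8507058682) (nat_lit 0) (p (nat_lit 0x8486850402) (nat_lit 0) (p (nat_lit 0x160014) (nat_lit 0) (p (nat_lit 0x160004) (nat_lit 0) (p (nat_lit 0x50612) (nat_lit 0) (p (nat_lit 0x38592) (nat_lit 0) (p (nat_lit 0x40492) (nat_lit 0) (p (nat_lit 0x28412) (nat_lit 0) (p (nat_lit 0x30292) (nat_lit 0) (p (nat_lit 0x18212) (nat_lit 0) (p (nat_lit 0x20092) (nat_lit 0) (p (nat_lit 0x8012) (nat_lit 0) pn))))))))))))))))))) :=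
  Cl.node (nat_lit 0x109) (nat_lit 2) (by decide +kernel) (ClAll.succ (ClAll.succ ClAll.zero n103) s97)

def n113 : Cl (O (nat_lit 2)) (R (nat_lit 104577))
    (p (nat_lit 0xd1) (nat_lit 0) (p (nat_lit 0x81) (nat_lit 0) (p (nat_lit 0x41) (nat_lit 1) (p (nat_lit 0x88070907889a) (nat_lit 0) (p (nat_lit 0x87868887061a) (nat_lit 0) (p (nat_lit 0x80000000070806878a) (nat_lit 0) (p (nat_lit 0x80000000068786050a) (nat_lit 0) (p (nat_lit 0x8507058682) (nat_lit 0) (p (nat_lit 0x8486850402) (nat_lit 0) (p (nat_lit 0x160014) (nat_lit 0) (p (nat_lit 0x160004) (nat_lit 0) (p (nat_lit 0x50612) (nat_lit 0) (p (nat_lit 0x38592) (nat_lit 0) (p (nat_lit 0x40492) (nat_lit 0) (p (nat_lit 0x28412) (nat_lit 0) (p (nat_lit 0x30292) (nat_lit 0) (p (nat_lit 0x18212) (nat_lit 0) (p (nat_lit 0x20092) (nat_lit 0) (p (nat_lit 0x8012) (nat_lit 0) pn))))))))))))))))))) :=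
  Cl.node (nat_lit 0x119) (nat_lit 2) (by decide +kernel) (ClAll.succ (ClAll.succ ClAll.zero n104) n105)

def n114 : Cl (O (nat_lit 2)) (R (nat_lit 104577))
    (p (nat_lit 0xd1) (nat_lit 1) (p (nat_lit 0x81) (nat_lit 0) (p (nat_lit 0x41) (nat_lit 1) (p (nat_lit 0x88070907889a) (nat_lit 0) (p (nat_lit 0x87868887061a) (nat_lit 0) (p (nat_lit 0x80000000070806878a) (nat_lit 0) (p (nat_lit 0x80000000068786050a) (nat_lit 0) (p (nat_lit 0x8507058682) (nat_lit 0) (p (nat_lit 0x8486850402) (nat_lit 0) (p (nat_lit 0x160014) (nat_lit 0) (p (nat_lit 0x160004) (nat_lit 0) (p (nat_lit 0x50612) (nat_lit 0) (p (nat_lit 0x38592) (nat_lit 0) (p (nat_lit 0x40492) (nat_lit 0) (p (nat_lit 0x28412) (nat_lit 0) (p (nat_lit 0x30292) (nat_lit 0) (p (nat_lit 0x18212) (nat_lit 0) (p (nat_lit 0x20092) (nat_lit 0) (p (nat_lit 0x8012) (nat_lit 0) pn))))))))))))))))))) :=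
  Cl.node (nat_lit 0x111) (nat_lit 2) (by decide +kernel) (ClAll.succ (ClAll.succ ClAll.zero n106) s117)

def n115 : Cl (O (nat_lit 2)) (R (nat_lit 104577))
    (p (nat_lit 0xc1) (nat_lit 0) (p (nat_lit 0x81) (nat_lit 1) (p (nat_lit 0x41) (nat_lit 1) (p (nat_lit 0x88070907889a) (nat_lit 0) (p (nat_lit 0x87868887061a) (nat_lit 0) (p (nat_lit 0x80000000070806878a) (nat_lit 0) (p (nat_lit 0x80000000068786050a) (nat_lit 0) (p (nat_lit 0x8507058682) (nat_lit 0) (p (nat_lit 0x8486850402) (nat_lit 0) (p (nat_lit 0x160014) (nat_lit 0) (p (nat_lit 0x160004) (nat_lit 0) (p (nat_lit 0x50612) (nat_lit 0) (p (nat_lit 0x38592) (nat_lit 0) (p (nat_lit 0x40492) (nat_lit 0) (p (nat_lit 0x28412) (nat_lit 0) (p (nat_lit 0x30292) (nat_lit 0) (p (nat_lit 0x18212) (nat_lit 0) (p (nat_lit 0x20092) (nat_lit 0) (p (nat_lit 0x8012) (nat_lit 0) pn))))))))))))))))))) :=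
  Cl.node (nat_lit 0x119) (nat_lit 2) (by decide +kernel) (ClAll.succ (ClAll.succ ClAll.zero n107) n108)

def n116 : Cl (O (nat_lit 2)) (R (nat_lit 104577))
    (p (nat_lit 0x89) (nat_lit 0) (p (nat_lit 0x41) (nat_lit 0) (p (nat_lit 0x88070907889a) (nat_lit 0) (p (nat_lit 0x87868887061a) (nat_lit 0) (p (nat_lit 0x80000000070806878a) (nat_lit 0) (p (nat_lit 0x80000000068786050a) (nat_lit 0) (p (nat_lit 0x8507058682) (nat_lit 0) (p (nat_lit 0x8486850402) (nat_lit 0) (p (nat_lit 0x160014) (nat_lit 0) (p (nat_lit 0x160004) (nat_lit 0) (p (nat_lit 0x50612) (nat_lit 0) (p (nat_lit 0x38592) (nat_lit 0) (p (nat_lit 0x40492) (nat_lit 0) (p (nat_lit 0x28412) (nat_lit 0) (p (nat_lit 0x30292) (nat_lit 0) (p (nat_lit 0x18212) (nat_lit 0) (p (nat_lit 0x20092) (nat_lit 0) (p (nat_lit 0x8012) (nat_lit 0) pn)))))))))))))))))) :=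
  Cl.node (nat_lit 0xd1) (nat_lit 2) (by decide +kernel) (ClAll.succ (ClAll.succ ClAll.zero n109) n110)

def n117 : Cl (O (nat_lit 2)) (R (nat_lit 104577))
    (p (nat_lit 0x89) (nat_lit 1) (p (nat_lit 0x41) (nat_lit 0) (p (nat_lit 0x88070907889a) (nat_lit 0) (p (nat_lit 0x87868887061a) (nat_lit 0) (p (nat_lit 0x80000000070806878a) (nat_lit 0) (p (nat_lit 0x80000000068786050a) (nat_lit 0) (p (nat_lit 0x8507058682) (nat_lit 0) (p (nat_lit 0x8486850402) (nat_lit 0) (p (nat_lit 0x160014) (nat_lit 0) (p (nat_lit 0x160004) (nat_lit 0) (p (nat_lit 0x50612) (nat_lit 0) (p (nat_lit 0x38592) (nat_lit 0) (p (nat_lit 0x40492) (nat_lit 0) (p (nat_lit 0x28412) (nat_lit 0) (p (nat_lit 0x30292) (nat_lit 0) (p (nat_lit 0x18212) (nat_lit 0) (p (nat_lit 0x20092) (nat_lit 0) (p (nat_lit 0x8012) (nat_lit 0) pn)))))))))))))))))) :=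
  Cl.node (nat_lit 0xc9) (nat_lit 2) (by decide +kernel) (ClAll.succ (ClAll.succ ClAll.zero n111) n112)

def n118 : Cl (O (nat_lit 2)) (R (nat_lit 104577))
    (p (nat_lit 0x81) (nat_lit 0) (p (nat_lit 0x41) (nat_lit 1) (p (nat_lit 0x88070907889a) (nat_lit 0) (p (nat_lit 0x87868887061a) (nat_lit 0) (p (nat_lit 0x80000000070806878a) (nat_lit 0) (p (nat_lit 0x80000000068786050a) (nat_lit 0) (p (nat_lit 0x8507058682) (nat_lit 0) (p (nat_lit 0x8486850402) (nat_lit 0) (p (nat_lit 0x160014) (nat_lit 0) (p (nat_lit 0x160004) (nat_lit 0) (p (nat_lit 0x50612) (nat_lit 0) (p (nat_lit 0x38592) (nat_lit 0) (p (nat_lit 0x40492) (nat_lit 0) (p (nat_lit 0x28412) (nat_lit 0) (p (nat_lit 0x30292) (nat_lit 0) (p (nat_lit 0x18212) (nat_lit 0) (p (nat_lit 0x20092) (nat_lit 0) (p (nat_lit 0x8012) (nat_lit 0) pn)))))))))))))))))) :=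
  Cl.node (nat_lit 0xd1) (nat_lit 2) (by decide +kernel) (ClAll.succ (ClAll.succ ClAll.zero n113) n114)

def n119 : Cl (O (nat_lit 2)) (R (nat_lit 104577))
    (p (nat_lit 0x81) (nat_lit 1) (p (nat_lit 0x41) (nat_lit 1) (p (nat_lit 0x88070907889a) (nat_lit 0) (p (nat_lit 0x87868887061a) (nat_lit 0) (p (nat_lit 0x80000000070806878a) (nat_lit 0) (p (nat_lit 0x80000000068786050a) (nat_lit 0) (p (nat_lit 0x8507058682) (nat_lit 0) (p (nat_lit 0x8486850402) (nat_lit 0) (p (nat_lit 0x160014) (nat_lit 0) (p (nat_lit 0x160004) (nat_lit 0) (p (nat_lit 0x50612) (nat_lit 0) (p (nat_lit 0x38592) (nat_lit 0) (p (nat_lit 0x40492) (nat_lit 0) (p (nat_lit 0x28412) (nat_lit 0) (p (nat_lit 0x30292) (nat_lit 0) (p (nat_lit 0x18212) (nat_lit 0) (p (nat_lit 0x20092) (nat_lit 0) (p (nat_lit 0x8012) (nat_lit 0) pn)))))))))))))))))) :=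
  Cl.node (nat_lit 0xc1) (nat_lit 2) (by decide +kernel) (ClAll.succ (ClAll.succ ClAll.zero n115) s123)

def n120 : Cl (O (nat_lit 2)) (R (nat_lit 104577))
    (p (nat_lit 0x41) (nat_lit 0) (p (nat_lit 0x88070907889a) (nat_lit 0) (p (nat_lit 0x87868887061a) (nat_lit 0) (p (nat_lit 0x80000000070806878a) (nat_lit 0) (p (nat_lit 0x80000000068786050a) (nat_lit 0) (p (nat_lit 0x8507058682) (nat_lit 0) (p (nat_lit 0x8486850402) (nat_lit 0) (p (nat_lit 0x160014) (nat_lit 0) (p (nat_lit 0x160004) (nat_lit 0) (p (nat_lit 0x50612) (nat_lit 0) (p (nat_lit 0x38592) (nat_lit 0) (p (nat_lit 0x40492) (nat_lit 0) (p (nat_lit 0x28412) (nat_lit 0) (p (nat_lit 0x30292) (nat_lit 0) (p (nat_lit 0x18212) (nat_lit 0) (p (nat_lit 0x20092) (nat_lit 0) (p (nat_lit 0x8012) (nat_lit 0) pn))))))))))))))))) :=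
  Cl.node (nat_lit 0x89) (nat_lit 2) (by decide +kernel) (ClAll.succ (ClAll.succ ClAll.zero n116) n117)

def n121 : Cl (O (nat_lit 2)) (R (nat_lit 104577))
    (p (nat_lit 0x41) (nat_lit 1) (p (nat_lit 0x88070907889a) (nat_lit 0) (p (nat_lit 0x87868887061a) (nat_lit 0) (p (nat_lit 0x80000000070806878a) (nat_lit 0) (p (nat_lit 0x80000000068786050a) (nat_lit 0) (p (nat_lit 0x8507058682) (nat_lit 0) (p (nat_lit 0x8486850402) (nat_lit 0) (p (nat_lit 0x160014) (nat_lit 0) (p (nat_lit 0x160004) (nat_lit 0) (p (nat_lit 0x50612) (nat_lit 0) (p (nat_lit 0x38592) (nat_lit 0) (p (nat_lit 0x40492) (nat_lit 0) (p (nat_lit 0x28412) (nat_lit 0) (p (nat_lit 0x30292) (nat_lit 0) (p (nat_lit 0x18212) (nat_lit 0) (p (nat_lit 0x20092) (nat_lit 0) (p (nat_lit 0x8012) (nat_lit 0) pn))))))))))))))))) :=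
  Cl.node (nat_lit 0x81) (nat_lit 2) (by decide +kernel) (ClAll.succ (ClAll.succ ClAll.zero n118) n119)

def n122 : Cl (O (nat_lit 2)) (R (nat_lit 104577))
    (p (nat_lit 0x88070907889a) (nat_lit 0) (p (nat_lit 0x87868887061a) (nat_lit 0) (p (nat_lit 0x80000000070806878a) (nat_lit 0) (p (nat_lit 0x80000000068786050a) (nat_lit 0) (p (nat_lit 0x8507058682) (nat_lit 0) (p (nat_lit 0x8486850402) (nat_lit 0) (p (nat_lit 0x160014) (nat_lit 0) (p (nat_lit 0x160004) (nat_lit 0) (p (nat_lit 0x50612) (nat_lit 0) (p (nat_lit 0x38592) (nat_lit 0) (p (nat_lit 0x40492) (nat_lit 0) (p (nat_lit 0x28412) (nat_lit 0) (p (nat_lit 0x30292) (nat_lit 0) (p (nat_lit 0x18212) (nat_lit 0) (p (nat_lit 0x20092) (nat_lit 0) (p (nat_lit 0x8012) (nat_lit 0) pn)))))))))))))))) :=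
  Cl.node (nat_lit 0x41) (nat_lit 2) (by decide +kernel) (ClAll.succ (ClAll.succ ClAll.zero n120) n121)

def n123 : Cl (O (nat_lit 2)) (R (nat_lit 104577))
    (p (nat_lit 0x87868887061a) (nat_lit 0) (p (nat_lit 0x80000000070806878a) (nat_lit 0) (p (nat_lit 0x80000000068786050a) (nat_lit 0) (p (nat_lit 0x8507058682) (nat_lit 0) (p (nat_lit 0x8486850402) (nat_lit 0) (p (nat_lit 0x160014) (nat_lit 0) (p (nat_lit 0x160004) (nat_lit 0) (p (nat_lit 0x50612) (nat_lit 0) (p (nat_lit 0x38592) (nat_lit 0) (p (nat_lit 0x40492) (nat_lit 0) (p (nat_lit 0x28412) (nat_lit 0) (p (nat_lit 0x30292) (nat_lit 0) (p (nat_lit 0x18212) (nat_lit 0) (p (nat_lit 0x20092) (nat_lit 0) (p (nat_lit 0x8012) (nat_lit 0) pn))))))))))))))) :=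
  Cl.node (nat_lit 0x88070907889a) (nat_lit 1) (by decide +kernel) (ClAll.succ ClAll.zero n122)

def n124 : Cl (O (nat_lit 2)) (R (nat_lit 104577))
    (p (nat_lit 0x80000000070806878a) (nat_lit 0) (p (nat_lit 0x80000000068786050a) (nat_lit 0) (p (nat_lit 0x8507058682) (nat_lit 0) (p (nat_lit 0x8486850402) (nat_lit 0) (p (nat_lit 0x160014) (nat_lit 0) (p (nat_lit 0x160004) (nat_lit 0) (p (nat_lit 0x50612) (nat_lit 0) (p (nat_lit 0x38592) (nat_lit 0) (p (nat_lit 0x40492) (nat_lit 0) (p (nat_lit 0x28412) (nat_lit 0) (p (nat_lit 0x30292) (nat_lit 0) (p (nat_lit 0x18212) (nat_lit 0) (p (nat_lit 0x20092) (nat_lit 0) (p (nat_lit 0x8012) (nat_lit 0) pn)))))))))))))) :=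
  Cl.node (nat_lit 0x87868887061a) (nat_lit 1) (by decide +kernel) (ClAll.succ ClAll.zero n123)

def n125 : Cl (O (nat_lit 2)) (R (nat_lit 104577))
    (p (nat_lit 0x80000000068786050a) (nat_lit 0) (p (nat_lit 0x8507058682) (nat_lit 0) (p (nat_lit 0x8486850402) (nat_lit 0) (p (nat_lit 0x160014) (nat_lit 0) (p (nat_lit 0x160004) (nat_lit 0) (p (nat_lit 0x50612) (nat_lit 0) (p (nat_lit 0x38592) (nat_lit 0) (p (nat_lit 0x40492) (nat_lit 0) (p (nat_lit 0x28412) (nat_lit 0) (p (nat_lit 0x30292) (nat_lit 0) (p (nat_lit 0x18212) (nat_lit 0) (p (nat_lit 0x20092) (nat_lit 0) (p (nat_lit 0x8012) (nat_lit 0) pn))))))))))))) :=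
  Cl.node (nat_lit 0x80000000070806878a) (nat_lit 1) (by decide +kernel) (ClAll.succ ClAll.zero n124)

def n126 : Cl (O (nat_lit 2)) (R (nat_lit 104577))
    (p (nat_lit 0x8507058682) (nat_lit 0) (p (nat_lit 0x8486850402) (nat_lit 0) (p (nat_lit 0x160014) (nat_lit 0) (p (nat_lit 0x160004) (nat_lit 0) (p (nat_lit 0x50612) (nat_lit 0) (p (nat_lit 0x38592) (nat_lit 0) (p (nat_lit 0x40492) (nat_lit 0) (p (nat_lit 0x28412) (nat_lit 0) (p (nat_lit 0x30292) (nat_lit 0) (p (nat_lit 0x18212) (nat_lit 0) (p (nat_lit 0x20092) (nat_lit 0) (p (nat_lit 0x8012) (nat_lit 0) pn)))))))))))) :=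
  Cl.node (nat_lit 0x80000000068786050a) (nat_lit 1) (by decide +kernel) (ClAll.succ ClAll.zero n125)

def n127 : Cl (O (nat_lit 2)) (R (nat_lit 104577))
    (p (nat_lit 0x8486850402) (nat_lit 0) (p (nat_lit 0x160014) (nat_lit 0) (p (nat_lit 0x160004) (nat_lit 0) (p (nat_lit 0x50612) (nat_lit 0) (p (nat_lit 0x38592) (nat_lit 0) (p (nat_lit 0x40492) (nat_lit 0) (p (nat_lit 0x28412) (nat_lit 0) (p (nat_lit 0x30292) (nat_lit 0) (p (nat_lit 0x18212) (nat_lit 0) (p (nat_lit 0x20092) (nat_lit 0) (p (nat_lit 0x8012) (nat_lit 0) pn))))))))))) :=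
  Cl.node (nat_lit 0x8507058682) (nat_lit 1) (by decide +kernel) (ClAll.succ ClAll.zero n126)

def n128 : Cl (O (nat_lit 2)) (R (nat_lit 104577))
    (p (nat_lit 0x160014) (nat_lit 0) (p (nat_lit 0x160004) (nat_lit 0) (p (nat_lit 0x50612) (nat_lit 0) (p (nat_lit 0x38592) (nat_lit 0) (p (nat_lit 0x40492) (nat_lit 0) (p (nat_lit 0x28412) (nat_lit 0) (p (nat_lit 0x30292) (nat_lit 0) (p (nat_lit 0x18212) (nat_lit 0) (p (nat_lit 0x20092) (nat_lit 0) (p (nat_lit 0x8012) (nat_lit 0) pn)))))))))) :=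
  Cl.node (nat_lit 0x8486850402) (nat_lit 1) (by decide +kernel) (ClAll.succ ClAll.zero n127)

def n129 : Cl (O (nat_lit 2)) (R (nat_lit 104577))
    (p (nat_lit 0x160004) (nat_lit 0) (p (nat_lit 0x50612) (nat_lit 0) (p (nat_lit 0x38592) (nat_lit 0) (p (nat_lit 0x40492) (nat_lit 0) (p (nat_lit 0x28412) (nat_lit 0) (p (nat_lit 0x30292) (nat_lit 0) (p (nat_lit 0x18212) (nat_lit 0) (p (nat_lit 0x20092) (nat_lit 0) (p (nat_lit 0x8012) (nat_lit 0) pn))))))))) :=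
  Cl.node (nat_lit 0x160014) (nat_lit 2) (by decide +kernel) (ClAll.succ (ClAll.succ ClAll.zero n128) s124)

def n130 : Cl (O (nat_lit 2)) (R (nat_lit 104577))
    (p (nat_lit 0x50612) (nat_lit 0) (p (nat_lit 0x38592) (nat_lit 0) (p (nat_lit 0x40492) (nat_lit 0) (p (nat_lit 0x28412) (nat_lit 0) (p (nat_lit 0x30292) (nat_lit 0) (p (nat_lit 0x18212) (nat_lit 0) (p (nat_lit 0x20092) (nat_lit 0) (p (nat_lit 0x8012) (nat_lit 0) pn)))))))) :=
  Cl.node (nat_lit 0x160004) (nat_lit 2) (by decide +kernel) (ClAll.succ (ClAll.succ ClAll.zero n129) s125)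

def n131 : Cl (O (nat_lit 2)) (R (nat_lit 104577))
    (p (nat_lit 0x38592) (nat_lit 0) (p (nat_lit 0x40492) (nat_lit 0) (p (nat_lit 0x28412) (nat_lit 0) (p (nat_lit 0x30292) (nat_lit 0) (p (nat_lit 0x18212) (nat_lit 0) (p (nat_lit 0x20092) (nat_lit 0) (p (nat_lit 0x8012) (nat_lit 0) pn))))))) :=
  Cl.node (nat_lit 0x50612) (nat_lit 1) (by decide +kernel) (ClAll.succ ClAll.zero n130)

def n132 : Cl (O (nat_lit 2)) (R (nat_lit 104577))
    (p (nat_lit 0x40492) (nat_lit 0) (p (nat_lit 0x28412) (nat_lit 0) (p (nat_lit 0x30292) (nat_lit 0) (p (nat_lit 0x18212) (nat_lit 0) (p (nat_lit 0x20092) (nat_lit 0) (p (nat_lit 0x8012) (nat_lit 0) pn)))))) :=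
  Cl.node (nat_lit 0x38592) (nat_lit 1) (by decide +kernel) (ClAll.succ ClAll.zero n131)

def n133 : Cl (O (nat_lit 2)) (R (nat_lit 104577))
    (p (nat_lit 0x28412) (nat_lit 0) (p (nat_lit 0x30292) (nat_lit 0) (p (nat_lit 0x18212) (nat_lit 0) (p (nat_lit 0x20092) (nat_lit 0) (p (nat_lit 0x8012) (nat_lit 0) pn))))) :=
  Cl.node (nat_lit 0x40492) (nat_lit 1) (by decide +kernel) (ClAll.succ ClAll.zero n132)

def n134 : Cl (O (nat_lit 2)) (R (nat_lit 104577))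
    (p (nat_lit 0x30292) (nat_lit 0) (p (nat_lit 0x18212) (nat_lit 0) (p (nat_lit 0x20092) (nat_lit 0) (p (nat_lit 0x8012) (nat_lit 0) pn)))) :=
  Cl.node (nat_lit 0x28412) (nat_lit 1) (by decide +kernel) (ClAll.succ ClAll.zero n133)

def n135 : Cl (O (nat_lit 2)) (R (nat_lit 104577))
    (p (nat_lit 0x18212) (nat_lit 0) (p (nat_lit 0x20092) (nat_lit 0) (p (nat_lit 0x8012) (nat_lit 0) pn))) :=
  Cl.node (nat_lit 0x30292) (nat_lit 1) (by decide +kernel) (ClAll.succ ClAll.zero n134)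

def n136 : Cl (O (nat_lit 2)) (R (nat_lit 104577))
    (p (nat_lit 0x20092) (nat_lit 0) (p (nat_lit 0x8012) (nat_lit 0) pn)) :=
  Cl.node (nat_lit 0x18212) (nat_lit 1) (by decide +kernel) (ClAll.succ ClAll.zero n135)

def n137 : Cl (O (nat_lit 2)) (R (nat_lit 104577))
    (p (nat_lit 0x8012) (nat_lit 0) pn) :=
  Cl.node (nat_lit 0x20092) (nat_lit 1) (by decide +kernel) (ClAll.succ ClAll.zero n136)

def n138 : Cl (O (nat_lit 2)) (R (nat_lit 104577))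
    pn :=
  Cl.node (nat_lit 0x8012) (nat_lit 1) (by decide +kernel) (ClAll.succ ClAll.zero n137)

theorem top : Cl (O (nat_lit 2)) (R (nat_lit 104577)) pn := n138

end Pool.Agent.Gen.F5.X1C2D13m2
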